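import Pool.Agent.LFC.Defs

/-!
Statements of the modules of the core frame (MP_716236_co, part K); proofs: PAPER.md.
-/

set_option autoImplicit false

namespace Pool.Agent.LFC

open Matrix

/-! ## linear algebra over fields -/

/-- LSU: surjectivity of the Lefschetz operators -/
def S_LSU : Prop :=
  ∀ (F : Type) [Field F] (H : Type) [AddCommGroup H] [Module F H]
    [FiniteDimensional F H] (N : ℕ) (G : ℕ → Submodule F H) (Q : H →ₗ[F] H →ₗ[F] F)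
    (ka : H →ₗ[F] H), Graded N G → Paired N G Q → Deg1 G ka → SelfAdj Q ka → HL N G ka →
    ∀ j, 2 * j ≤ N → ∀ y ∈ G (N - j), ∃ x ∈ G j, (ka ^ (N - 2 * j)) x = y

/-- LBT: string basis of a graded paired space with a Lefschetz operator -/
def S_LBT : Prop :=
  ∀ (F : Type) [Field F] [CharZero F] (H : Type) [AddCommGroup H] [Module F H]
    [FiniteDimensional F H] (N : ℕ) (G : ℕ → Submodule F H) (Q : H →ₗ[F] H →ₗ[F] F)
    (ka : H →ₗ[F] H), Graded N G → Paired N G Q → Deg1 G ka → SelfAdj Q ka → HL N G ka →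
    ∃ (T : Str N) (a : T.I → H),
      (∀ i, a i ∈ G (T.j i)) ∧ (∀ i, (ka ^ (T.m i + 1)) (a i) = 0) ∧
      (∀ i i', i ≠ i' → T.j i = T.j i' → Q (a i) ((ka ^ (T.m i')) (a i')) = 0) ∧
      LinearIndependent F (fun b : T.J => (ka ^ (b.2 : ℕ)) (a b.1)) ∧
      Submodule.span F (Set.range (fun b : T.J => (ka ^ (b.2 : ℕ)) (a b.1))) = ⊤

/-- GAM: elementary facts on the constant matrices -/
def S_GAM : Prop :=
  ∀ (R : Type) [Field R] [CharZero R] (N : ℕ) (T : Str N) (ph : T.I → R), (∀ i, ph i ≠ 0) →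
    adj (T.gam ph) (T.k R) = T.l R ∧ adj (T.gam ph) (T.l R) = T.k R ∧
    T.gram ph * T.c R = Matrix.diagonal (T.gam ph) ∧ T.c R * T.c R = 1 ∧
    T.c R * T.k R = T.l R * T.c R ∧ (T.gram ph)ᵀ = T.gram ph ∧
    br (T.k R) (T.l R) = T.h R

/-- STC: matrices commuting with the Lefschetz operator, in degrees 1, 0, -1 -/
def S_STC : Prop :=
  ∀ (R : Type) [Field R] (N : ℕ) (T : Str N) (A : Matrix T.J T.J R), br A (T.k R) = 0 →
    (MDeg T.dg 1 A → ∃ xi : T.I → T.I → R,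
      (∀ a b : T.J, A a b = if T.dg a = T.dg b + 1 then xi a.1 b.1 else 0) ∧
      (∀ i' i, xi i' i ≠ 0 → T.j i' ≤ T.j i + 1 ∧ T.j i ≤ T.j i' + 1)) ∧
    (MDeg T.dg 0 A → ∃ ze : T.I → T.I → R,
      (∀ a b : T.J, A a b = if T.dg a = T.dg b then ze a.1 b.1 else 0) ∧
      (∀ i' i, ze i' i ≠ 0 → T.j i' = T.j i)) ∧
    ((∀ a b : T.J, A a b ≠ 0 → T.dg b = T.dg a + 1) → A = 0)

/-- ALG1: identity (I1) for an operator of degree 1 commuting with the Lefschetz operator -/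
def S_ALG1 : Prop :=
  ∀ (R : Type) [Field R] [CharZero R] (N : ℕ) (T : Str N) (ph : T.I → R)
    (x : Matrix T.J T.J R), (∀ i, ph i ≠ 0) → MDeg T.dg 1 x → br x (T.k R) = 0 →
    xᵀ * T.gram ph = T.gram ph * x →
    br x (T.l R) = br (T.k R) (adj (T.gam ph) x)

/-- ALG2: consequences of `[Th,k]=x` for matrices over a field with a derivation -/
def S_ALG2 : Prop :=
  ∀ (R : Type) [Field R] [CharZero R] (D : R → R), (∀ a b, D (a + b) = D a + D b) →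
    (∀ a b, D (a * b) = D a * b + a * D b) →
    ∀ (N : ℕ) (T : Str N) (ph : T.I → R) (x Th : Matrix T.J T.J R), (∀ i, ph i ≠ 0) →
    MDeg T.dg 1 x → MDeg T.dg 0 Th → br x (T.k R) = 0 → br Th (T.k R) = x →
    xᵀ * T.gram ph = T.gram ph * x →
    (T.gram ph).map D = Thᵀ * T.gram ph + T.gram ph * Th →
    br Th (T.l R) = - adj (T.gam ph) x ∧
    adj (T.gam ph) Th + Th = br x (T.l R) +
      Matrix.diagonal (fun a => (T.gam ph a)⁻¹ * D (T.gam ph a))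

/-! ## Laurent series -/

/-- SER: the derivation and pole orders -/
def S_SER : Prop :=
  (∀ f g : K, dK (f + g) = dK f + dK g) ∧ (∀ f g : K, dK (f * g) = dK f * g + f * dK g) ∧
  (∀ a : ℝ, dK (cst a) = 0) ∧ (dK sK = sK) ∧
  (∀ (m : ℤ) (f : K), Pol m f → Pol m (dK f)) ∧
  (∀ (m n : ℤ) (f g : K), Pol m f → Pol n g →
    Pol (m + n) (f * g) ∧ (f * g).coeff (-(m + n)) = f.coeff (-m) * g.coeff (-n))

/-- ORD: positivity for large `s` -/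
def S_ORD : Prop :=
  (∀ f g : K, Nng f → Nng g → Nng (f + g) ∧ Nng (f * g)) ∧
  (∀ f g : K, Psv f → Nng g → Psv (f + g)) ∧ (∀ f g : K, Psv f → Psv g → Psv (f * g)) ∧
  (∀ f : K, Nng (f * f)) ∧ (∀ f : K, Nng f ↔ f = 0 ∨ Psv f) ∧ (∀ f : K, Nng f → Nng (-f) → f = 0) ∧
  (∀ a : ℝ, (0 < a ↔ Psv (cst a)) ∧ (0 ≤ a ↔ Nng (cst a))) ∧
  (∀ (m : ℤ) (f g : K), Nng f → Nng (g - f) → Pol m g → Pol m f) ∧
  (∀ (m : ℤ) (f : K), Nng f → Pol m f → 0 ≤ f.coeff (-m)) ∧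
  (∀ (m : ℤ) (f : K), Pol (2 * m) (f * f) → Pol m f) ∧
  (∀ (J : Type) [Fintype J] (ga v w : J → K), (∀ a, Psv (ga a)) →
    Nng (hf ga v v) ∧ (hf ga v v = 0 → v = 0) ∧
    Nng (hf ga v v * hf ga w w - hf ga v w * hf ga v w))

/-- LEAD: the two leading term arguments (`phi = c u^n + ...`) -/
def S_LEAD : Prop :=
  (∀ phi : K, Nng phi → Nng ((dK (dK phi) - dK phi) * phi - dK phi * dK phi) → Pol 0 phi) ∧
  (∀ phi psi : K, Nng phi → Pol 0 psi →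
    Nng ((dK (dK phi) - dK phi + sK * sK * psi) * phi - dK phi * dK phi) → Pol 2 phi) ∧
  (∀ phi : K, Pol 0 phi → Pol (-1) (dK (dK phi) - dK phi))

/-! ## frames -/

/-- PHL: the space `F^i`, `F` the rational functions -/
def S_PHL : Prop :=
  ∀ (N : ℕ) (C : CD), C.Ok N → Graded N (cG FX C) ∧ Paired N (cG FX C) C.QF ∧
    Deg1 (cG FX C) C.kF ∧ SelfAdj C.QF C.kF ∧ HL N (cG FX C) C.kF

/-- POLY: string basis with polynomial coefficients, positive leading coefficients -/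
def S_POLY : Prop :=
  ∀ (N : ℕ) (C : CD), C.Ok N → ∃ (T : Str N) (A : T.I → C.i → Polynomial ℝ) (e : C.i ≃ T.J),
    (∀ i r, A i r ≠ 0 → C.dg r = T.j i) ∧ (∀ i, (C.kX ^ (T.m i + 1)) *ᵥ A i = 0) ∧
    (∀ i i', i ≠ i' → T.j i = T.j i' →
      A i ⬝ᵥ (C.Q.map Polynomial.C *ᵥ ((C.kX ^ (T.m i')) *ᵥ A i')) = 0) ∧
    (∀ i, 0 < ((-1) ^ (T.j i) *
      (A i ⬝ᵥ (C.Q.map Polynomial.C *ᵥ ((C.kX ^ (T.m i)) *ᵥ A i)))).leadingCoeff) ∧
    (Matrix.of fun r s => ((C.kX ^ ((e s).2 : ℕ)) *ᵥ A (e s).1) r).det ≠ 0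

/-- KFR: existence of a K-frame -/
def S_KFR : Prop :=
  ∀ (N : ℕ) (C : CD), C.Ok N → ∃ (T : Str N) (S : Matrix C.i T.J K) (S' : Matrix T.J C.i K)
    (ph : T.I → K), Frame N C T S S' ph

/-- KREL: the relations in a frame -/
def S_KREL : Prop :=
  ∀ (N : ℕ) (C : CD), C.Ok N → ∀ (T : Str N) (S : Matrix C.i T.J K) (S' : Matrix T.J C.i K)
    (ph : T.I → K), Frame N C T S S' ph →
    (∀ a, Psv (T.gam ph a)) ∧
    br (thK C T S S') (xK C T S S') + (xK C T S S').map dK = xK C T S S' ∧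
    S'.map dK = - thK C T S S' * S' ∧
    br (xK C T S S') (T.l K) = br (T.k K) (adj (T.gam ph) (xK C T S S')) ∧
    br (thK C T S S') (T.l K) = - adj (T.gam ph) (xK C T S S') ∧
    adj (T.gam ph) (thK C T S S') + thK C T S S' = br (xK C T S S') (T.l K) +
      Matrix.diagonal (fun a => (T.gam ph a)⁻¹ * dK (T.gam ph a))

/-- DPHI: first and second derivative of the Hodge norm of a constant vector -/
def S_DPHI : Prop :=
  ∀ (N : ℕ) (C : CD), C.Ok N → ∀ (T : Str N) (S : Matrix C.i T.J K) (S' : Matrix T.J C.i K)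
    (ph : T.I → K), Frame N C T S S' ph → ∀ v : C.i → ℝ,
    dK (nK C T S' ph v) = - hf (T.gam ph) (br (xK C T S S') (T.l K) *ᵥ crd C T S' v)
      (crd C T S' v) ∧
    dK (dK (nK C T S' ph v)) - dK (nK C T S' ph v) =
      hf (T.gam ph) (br (xK C T S S') (T.l K) *ᵥ crd C T S' v)
        (br (xK C T S S') (T.l K) *ᵥ crd C T S' v) +
      hf (T.gam ph) (adj (T.gam ph) (xK C T S S') *ᵥ crd C T S' v)
        (adj (T.gam ph) (xK C T S S') *ᵥ crd C T S' v) -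
      hf (T.gam ph) (xK C T S S' *ᵥ crd C T S' v) (xK C T S S' *ᵥ crd C T S' v)

/-- LEMA: Lemma A, and the bound for all vectors -/
def S_LEMA : Prop :=
  ∀ (N : ℕ) (C : CD), C.Ok N → ∀ (T : Str N) (S : Matrix C.i T.J K) (S' : Matrix T.J C.i K)
    (ph : T.I → K), Frame N C T S S' ph → ∀ v : C.i → ℝ,
    (C.Om *ᵥ v = 0 → Pol 0 (nK C T S' ph v)) ∧
    (C.Om *ᵥ (C.Om *ᵥ v) = 0 → Pol 2 (nK C T S' ph v))

/-- CSQ: Cauchy-Schwarz for the form -/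
def S_CSQ : Prop :=
  ∀ (N : ℕ) (C : CD), C.Ok N → ∀ (T : Str N) (S : Matrix C.i T.J K) (S' : Matrix T.J C.i K)
    (ph : T.I → K), Frame N C T S S' ph → ∀ v w : C.i → ℝ,
    Nng (nK C T S' ph v * nK C T S' ph w - cst ((v ⬝ᵥ (C.Q *ᵥ w)) * (v ⬝ᵥ (C.Q *ᵥ w))))

/-- LEMB: Lemma B -/
def S_LEMB : Prop :=
  ∀ (N : ℕ) (C : CD), C.Ok N → ∀ (T : Str N) (S : Matrix C.i T.J K) (S' : Matrix T.J C.i K)
    (ph : T.I → K), Frame N C T S S' ph → ∀ u : C.i → ℝ, C.Om *ᵥ (C.Om *ᵥ u) = 0 →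
    Pol (-1) (nK C T S' ph (C.Om *ᵥ u))

/-- (O3) for one vector `v` of degree `i`, `om v = 0`; `nrm` is the Hodge norm squared -/
def O3 (H : Type) (nrm : H → K) (v v' : H) (i : ℕ) (q : ℝ) : Prop :=
  ∃ (p : ℕ → K) (c c' : ℕ → ℝ), (∀ s, Nng (p s)) ∧ (∀ s, 0 < c s) ∧ (c' 0 = 0) ∧
    (∀ s, 1 ≤ s → 0 < c' s) ∧
    nrm v = ∑ s ∈ Finset.range (i + 1), cst (c s) * p s ∧
    cst q = ∑ s ∈ Finset.range (i + 1), (-1) ^ s * p s ∧
    nrm v' = ∑ s ∈ Finset.range (i + 1), cst (c' s) * p s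

/-- PRIM: (O3) in coordinates -/
def S_PRIM : Prop :=
  ∀ (N : ℕ) (C : CD), C.Ok N → ∀ (T : Str N) (S : Matrix C.i T.J K) (S' : Matrix T.J C.i K)
    (ph : T.I → K), Frame N C T S S' ph → ∀ i, 2 * i ≤ N → ∀ v : C.i → ℝ,
    (∀ r, v r ≠ 0 → C.dg r = i) → C.Om *ᵥ v = 0 →
    O3 (C.i → ℝ) (nK C T S' ph) v ((C.Et ^ (N - 2 * i + 1)) *ᵥ v) i
      ((-1) ^ i * (v ⬝ᵥ (C.Q *ᵥ ((C.Et ^ (N - 2 * i)) *ᵥ v))))

/-! ## output -/

/-- COORD: coordinates -/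
def S_COORD : Prop :=
  ∀ (H : Type) [AddCommGroup H] [Module ℝ H] [FiniteDimensional ℝ H] (N : ℕ)
    (G : ℕ → Submodule ℝ H) (Q : H →ₗ[ℝ] H →ₗ[ℝ] ℝ) (om et : H →ₗ[ℝ] H), Hyp N G Q om et →
    ∃ (C : CD) (e : H ≃ₗ[ℝ] (C.i → ℝ)), C.Ok N ∧ (∀ v, e (om v) = C.Om *ᵥ e v) ∧
      (∀ v, e (et v) = C.Et *ᵥ e v) ∧ (∀ v w, Q v w = e v ⬝ᵥ (C.Q *ᵥ e w)) ∧
      (∀ j v, v ∈ G j ↔ ∀ r, e v r ≠ 0 → C.dg r = j)

/-- OUT: the Hodge norm of constant vectors -/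
def S_OUT : Prop :=
  ∀ (H : Type) [AddCommGroup H] [Module ℝ H] [FiniteDimensional ℝ H] (N : ℕ)
    (G : ℕ → Submodule ℝ H) (Q : H →ₗ[ℝ] H →ₗ[ℝ] ℝ) (om et : H →ₗ[ℝ] H), Hyp N G Q om et →
    ∃ nrm : H → K, (∀ v, Nng (nrm v)) ∧
      (∀ v, om v = 0 → Pol 0 (nrm v)) ∧
      (∀ y, om (om y) = 0 → Pol (-1) (nrm (om y))) ∧
      (∀ i, 2 * i ≤ N → ∀ v ∈ G i, om v = 0 →
        O3 H nrm v ((et ^ (N - 2 * i + 1)) v) i ((-1) ^ i * Q v ((et ^ (N - 2 * i)) v))) ∧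
      (∀ v b, Nng (nrm v * nrm b - cst (Q v b * Q v b)))

end Pool.Agent.LFC
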