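import Pool.Agent.LFC.Stmts

/-!
Module ALG1 (MP_716236_co, part K): the identity `[x,l] = [k,x*]`.
-/

set_option autoImplicit false

namespace Pool.Agent.LFC
namespace ALG1

open Matrix

section Field

variable {R : Type} [Field R] {N : ℕ} {T : Str N}

theorem sigma_ext {a b : T.J} (h1 : a.1 = b.1) (h2 : (a.2 : ℕ) = (b.2 : ℕ)) : a = b := by
  obtain ⟨i, s⟩ := a
  obtain ⟨i', s'⟩ := b
  dsimp only at h1 h2
  subst h1
  have : s = s' := Fin.ext h2
  rw [this]

/-- entries of `x l` -/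
theorem mul_l (x : Matrix T.J T.J R) (xi : T.I → T.I → R)
    (hx : ∀ a b : T.J, x a b = if T.dg a = T.dg b + 1 then xi a.1 b.1 else 0) (a b : T.J) :
    (x * T.l R) a b = if T.dg a = T.dg b then
      (((b.2 : ℕ) * (T.m b.1 - (b.2 : ℕ) + 1) : ℕ) : R) * xi a.1 b.1 else 0 := by
  rw [Matrix.mul_apply]
  by_cases hs : (b.2 : ℕ) = 0
  · rw [Finset.sum_eq_zero]
    · simp [hs]
    · intro c _
      have h0 : T.l R c b = 0 := by
        simp only [Str.l, Matrix.of_apply]
        rw [if_neg]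
        rintro ⟨_, h⟩
        omega
      rw [h0, mul_zero]
  · have hb := b.2.isLt
    rw [Finset.sum_eq_single (⟨b.1, ⟨(b.2 : ℕ) - 1, by omega⟩⟩ : T.J)]
    · have h1 : T.l R (⟨b.1, ⟨(b.2 : ℕ) - 1, by omega⟩⟩ : T.J) b =
          (((b.2 : ℕ) * (T.m b.1 - (b.2 : ℕ) + 1) : ℕ) : R) := by
        simp only [Str.l, Matrix.of_apply]
        rw [if_pos]
        exact ⟨trivial, by omega⟩
      have h2 : T.dg (⟨b.1, ⟨(b.2 : ℕ) - 1, by omega⟩⟩ : T.J) + 1 = T.dg b := by
        show T.j b.1 + ((b.2 : ℕ) - 1) + 1 = T.j b.1 + (b.2 : ℕ)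
        omega
      rw [h1, hx, h2]
      split_ifs
      · ring
      · ring
    · intro c _ hc
      have h0 : T.l R c b = 0 := by
        simp only [Str.l, Matrix.of_apply]
        rw [if_neg]
        rintro ⟨h1, h2⟩
        apply hc
        exact sigma_ext h1 (by show (c.2 : ℕ) = (b.2 : ℕ) - 1; omega)
      rw [h0, mul_zero]
    · intro h
      exact absurd (Finset.mem_univ _) h

/-- entries of `l x` -/
theorem l_mul (x : Matrix T.J T.J R) (xi : T.I → T.I → R)
    (hx : ∀ a b : T.J, x a b = if T.dg a = T.dg b + 1 then xi a.1 b.1 else 0) (a b : T.J) :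
    (T.l R * x) a b = if T.dg a = T.dg b then
      ((((a.2 : ℕ) + 1) * (T.m a.1 - (a.2 : ℕ)) : ℕ) : R) * xi a.1 b.1 else 0 := by
  rw [Matrix.mul_apply]
  have ha := a.2.isLt
  by_cases hs : (a.2 : ℕ) = T.m a.1
  · rw [Finset.sum_eq_zero]
    · simp [hs]
    · intro c _
      have h0 : T.l R a c = 0 := by
        simp only [Str.l, Matrix.of_apply]
        rw [if_neg]
        rintro ⟨h1, h2⟩
        have hc := c.2.isLt
        have h3 : N - 2 * T.j c.1 = T.m a.1 := by rw [h1]; rfl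
        omega
      rw [h0, zero_mul]
  · have hm : N - 2 * T.j a.1 = T.m a.1 := rfl
    rw [Finset.sum_eq_single (⟨a.1, ⟨(a.2 : ℕ) + 1, by omega⟩⟩ : T.J)]
    · have h1 : T.l R a (⟨a.1, ⟨(a.2 : ℕ) + 1, by omega⟩⟩ : T.J) =
          ((((a.2 : ℕ) + 1) * (T.m a.1 - (a.2 : ℕ)) : ℕ) : R) := by
        simp only [Str.l, Matrix.of_apply]
        rw [if_pos ⟨trivial, trivial⟩]
        congr 2
        omega
      have h2 : T.dg (⟨a.1, ⟨(a.2 : ℕ) + 1, by omega⟩⟩ : T.J) = T.dg a + 1 := by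
        show T.j a.1 + ((a.2 : ℕ) + 1) = T.j a.1 + (a.2 : ℕ) + 1
        omega
      rw [h1, hx, h2]
      by_cases hd : T.dg a = T.dg b
      · rw [if_pos (by omega), if_pos hd]
      · rw [if_neg (by omega), if_neg hd, mul_zero]
    · intro c _ hc
      have h0 : T.l R a c = 0 := by
        simp only [Str.l, Matrix.of_apply]
        rw [if_neg]
        rintro ⟨h1, h2⟩
        apply hc
        exact sigma_ext h1.symm h2
      rw [h0, zero_mul]
    · intro h
      exact absurd (Finset.mem_univ _) h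

/-- the factor -/
def fac (R : Type) [Field R] (m m' s s' : ℕ) : R :=
  ((s * (m - s + 1) : ℕ) : R) - (((s' + 1) * (m' - s') : ℕ) : R)

theorem E_entry (x : Matrix T.J T.J R) (xi : T.I → T.I → R)
    (hx : ∀ a b : T.J, x a b = if T.dg a = T.dg b + 1 then xi a.1 b.1 else 0) (a b : T.J) :
    br x (T.l R) a b = if T.dg a = T.dg b then
      fac R (T.m b.1) (T.m a.1) b.2 a.2 * xi a.1 b.1 else 0 := by
  unfold br fac
  rw [Matrix.sub_apply, mul_l x xi hx, l_mul x xi hx]
  split_ifs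
  · ring
  · ring

/-- the symmetry of `xi` -/
theorem xi_symm (x : Matrix T.J T.J R) (xi : T.I → T.I → R) (ph : T.I → R)
    (hx : ∀ a b : T.J, x a b = if T.dg a = T.dg b + 1 then xi a.1 b.1 else 0)
    (hg : xᵀ * T.gram ph = T.gram ph * x) (i i' : T.I) (s s' : ℕ) (hs : s ≤ T.m i)
    (hs' : s' ≤ T.m i') (h : T.j i' + (T.m i' - s') = T.j i + s + 1) :
    ph i' * xi i' i = ph i * xi i i' := by
  have hmi : N - 2 * T.j i = T.m i := rfl
  have hmi' : N - 2 * T.j i' = T.m i' := rfl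
  have hji := T.hj i
  have hji' := T.hj i'
  have key := congrFun (congrFun hg (⟨i, ⟨s, by omega⟩⟩ : T.J)) (⟨i', ⟨s', by omega⟩⟩ : T.J)
  rw [Matrix.mul_apply, Matrix.mul_apply] at key
  rw [Finset.sum_eq_single (⟨i', ⟨T.m i' - s', by omega⟩⟩ : T.J),
    Finset.sum_eq_single (⟨i, ⟨T.m i - s, by omega⟩⟩ : T.J)] at key
  · rw [Matrix.transpose_apply, hx, hx] at key
    simp only [Str.gram, Matrix.of_apply] at key
    rw [if_pos (show T.dg (⟨i', ⟨T.m i' - s', by omega⟩⟩ : T.J) =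
        T.dg (⟨i, ⟨s, by omega⟩⟩ : T.J) + 1 from h),
      if_pos (show True ∧ T.m i' - s' + s' = T.m i' from ⟨trivial, by omega⟩),
      if_pos (show True ∧ s + (T.m i - s) = T.m i from ⟨trivial, by omega⟩),
      if_pos (show T.dg (⟨i, ⟨T.m i - s, by omega⟩⟩ : T.J) =
        T.dg (⟨i', ⟨s', by omega⟩⟩ : T.J) + 1 by
          show T.j i + (T.m i - s) = T.j i' + s' + 1
          omega)] at key
    rw [mul_comm, key]
  · intro c _ hc
    have h0 : T.gram ph (⟨i, ⟨s, by omega⟩⟩ : T.J) c = 0 := by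
      simp only [Str.gram, Matrix.of_apply]
      rw [if_neg]
      rintro ⟨h1, h2⟩
      apply hc
      subst h1
      exact sigma_ext rfl (by show (c.2 : ℕ) = T.m c.1 - s; omega)
    rw [h0, zero_mul]
  · intro h
    exact absurd (Finset.mem_univ _) h
  · intro c _ hc
    have h0 : T.gram ph c (⟨i', ⟨s', by omega⟩⟩ : T.J) = 0 := by
      simp only [Str.gram, Matrix.of_apply]
      rw [if_neg]
      rintro ⟨h1, h2⟩
      apply hc
      exact sigma_ext h1 (by show (c.2 : ℕ) = T.m i' - s'; omega)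
    rw [h0, mul_zero]
  · intro h
    exact absurd (Finset.mem_univ _) h

theorem adj_mul (ga : T.J → R) (hga : ∀ a, ga a ≠ 0) (A B : Matrix T.J T.J R) :
    adj ga (A * B) = adj ga B * adj ga A := by
  have h1 : Matrix.diagonal ga * Matrix.diagonal (fun a => (ga a)⁻¹) = 1 := by
    rw [Matrix.diagonal_mul_diagonal]
    rw [← Matrix.diagonal_one]
    congr 1
    funext a
    exact mul_inv_cancel₀ (hga a)
  unfold adj
  calc Matrix.diagonal (fun a => (ga a)⁻¹) * (A * B)ᵀ * Matrix.diagonal ga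
      = Matrix.diagonal (fun a => (ga a)⁻¹) * Bᵀ * (1 : Matrix T.J T.J R) * Aᵀ *
          Matrix.diagonal ga := by
        rw [Matrix.transpose_mul, mul_one]
        simp only [mul_assoc]
    _ = _ := by
        rw [← h1]
        simp only [mul_assoc]

theorem adj_sub (ga : T.J → R) (A B : Matrix T.J T.J R) :
    adj ga (A - B) = adj ga A - adj ga B := by
  unfold adj
  rw [Matrix.transpose_sub, mul_sub, sub_mul]

theorem adj_apply (ga : T.J → R) (A : Matrix T.J T.J R) (a b : T.J) :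
    adj ga A a b = (ga a)⁻¹ * A b a * ga b := by
  unfold adj
  rw [Matrix.mul_diagonal, Matrix.diagonal_mul, Matrix.transpose_apply]

end Field

section Char

variable {R : Type} [Field R] [CharZero R] {N : ℕ} {T : Str N}

theorem gam_ne (ph : T.I → R) (hph : ∀ i, ph i ≠ 0) (a : T.J) : T.gam ph a ≠ 0 := by
  unfold Str.gam
  apply div_ne_zero
  · apply mul_ne_zero
    · apply mul_ne_zero
      · exact pow_ne_zero _ (by norm_num)
      · exact hph _
    · exact_mod_cast Nat.factorial_ne_zero _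
  · exact_mod_cast Nat.factorial_ne_zero _

/-- the case `j' = j + 1` -/
theorem step_up (ph : T.I → R) (xi : T.I → T.I → R) (a b : T.J)
    (hd : T.dg a = T.dg b) (hj : T.j a.1 = T.j b.1 + 1)
    (hsym : ph a.1 * xi a.1 b.1 = ph b.1 * xi b.1 a.1) :
    T.gam ph a * (fac R (T.m b.1) (T.m a.1) b.2 a.2 * xi a.1 b.1) =
      T.gam ph b * (fac R (T.m a.1) (T.m b.1) a.2 b.2 * xi b.1 a.1) := by
  have hja := T.hj a.1
  have hjb := T.hj b.1
  have ha := a.2.isLt
  have hb := b.2.isLt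
  have hma : T.m a.1 = N - 2 * T.j a.1 := rfl
  have hmb : T.m b.1 = N - 2 * T.j b.1 := rfl
  have hd' : T.j a.1 + (a.2 : ℕ) = T.j b.1 + (b.2 : ℕ) := hd
  -- put s' = t, s = t + 1, m' - s' = r, m - s = r + 1
  obtain ⟨t, ht⟩ : ∃ t : ℕ, t = (a.2 : ℕ) := ⟨_, rfl⟩
  obtain ⟨r, hr⟩ : ∃ r : ℕ, r = T.m a.1 - (a.2 : ℕ) := ⟨_, rfl⟩
  have e1 : (b.2 : ℕ) = t + 1 := by omega
  have e2 : T.m a.1 = r + t := by omega
  have e3 : T.m b.1 = r + t + 2 := by omega
  have e4 : r + t - t = r := by omega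
  have e5 : r + t + 2 - (t + 1) = r + 1 := by omega
  unfold fac Str.gam
  rw [e1, ← ht, e2, e3, e4, e5, hj, Nat.factorial_succ t, Nat.factorial_succ r]
  push_cast
  have f1 : ((t.factorial : ℕ) : R) ≠ 0 := by exact_mod_cast Nat.factorial_ne_zero _
  have f2 : ((r.factorial : ℕ) : R) ≠ 0 := by exact_mod_cast Nat.factorial_ne_zero _
  have f3 : ((r : R) + 1) ≠ 0 := by exact_mod_cast Nat.succ_ne_zero r
  have g1 : (-1 : R) ^ (T.j b.1 + 1) = - (-1) ^ (T.j b.1) := by rw [pow_succ]; ring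
  rw [g1]
  field_simp
  linear_combination (-2 : R) * hsym

/-- `gam_a E_(a,b) = gam_b E_(b,a)` -/
theorem E_symm (x : Matrix T.J T.J R) (xi : T.I → T.I → R) (ph : T.I → R)
    (hx : ∀ a b : T.J, x a b = if T.dg a = T.dg b + 1 then xi a.1 b.1 else 0)
    (hxi : ∀ i' i, xi i' i ≠ 0 → T.j i' ≤ T.j i + 1 ∧ T.j i ≤ T.j i' + 1)
    (hg : xᵀ * T.gram ph = T.gram ph * x) (a b : T.J) :
    T.gam ph a * br x (T.l R) a b = T.gam ph b * br x (T.l R) b a := by
  rw [E_entry x xi hx, E_entry x xi hx]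
  by_cases hd : T.dg a = T.dg b
  · rw [if_pos hd, if_pos hd.symm]
    have hja := T.hj a.1
    have hjb := T.hj b.1
    have ha := a.2.isLt
    have hb := b.2.isLt
    have hma : T.m a.1 = N - 2 * T.j a.1 := rfl
    have hmb : T.m b.1 = N - 2 * T.j b.1 := rfl
    have hd' : T.j a.1 + (a.2 : ℕ) = T.j b.1 + (b.2 : ℕ) := hd
    by_cases hz : xi a.1 b.1 = 0 ∧ xi b.1 a.1 = 0
    · rw [hz.1, hz.2]
      ring
    · have hjj : T.j a.1 ≤ T.j b.1 + 1 ∧ T.j b.1 ≤ T.j a.1 + 1 := by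
        by_cases h1 : xi a.1 b.1 = 0
        · have h2 : xi b.1 a.1 ≠ 0 := fun h => hz ⟨h1, h⟩
          exact (hxi _ _ h2).symm
        · exact hxi _ _ h1
      rcases Nat.lt_trichotomy (T.j a.1) (T.j b.1) with hlt | heq | hgt
      · have hj : T.j b.1 = T.j a.1 + 1 := by omega
        have hsym := xi_symm x xi ph hx hg a.1 b.1 0 (T.m b.1) (by omega) le_rfl (by omega)
        exact (step_up ph xi b a hd.symm hj hsym).symm
      · have hs : (a.2 : ℕ) = (b.2 : ℕ) := by omega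
        have hm : T.m a.1 = T.m b.1 := by omega
        by_cases hm0 : T.m b.1 = 0
        · have e0 : (b.2 : ℕ) = 0 := by omega
          rw [hm, hs, hm0, e0]
          unfold fac
          simp
        · have hsym := xi_symm x xi ph hx hg b.1 a.1 0 (T.m a.1 - 1) (by omega) (by omega)
            (by omega)
          unfold Str.gam
          rw [hm, hs, heq]
          linear_combination ((-1 : R) ^ T.j b.1 * (((b.2 : ℕ).factorial : ℕ) : R) /
            (((T.m b.1 - (b.2 : ℕ)).factorial : ℕ) : R) *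
              fac R (T.m b.1) (T.m b.1) b.2 b.2) * hsym
      · have hj : T.j a.1 = T.j b.1 + 1 := by omega
        have hsym := xi_symm x xi ph hx hg b.1 a.1 0 (T.m a.1) (by omega) le_rfl (by omega)
        exact step_up ph xi a b hd hj hsym
  · rw [if_neg hd, if_neg (fun h => hd h.symm)]
    ring

end Char

end ALG1

theorem ALG1_thm (hGAM : S_GAM) (hSTC : S_STC) : S_ALG1 := by
  intro R _ _ N T ph x hph hdeg hcom hg
  obtain ⟨⟨xi, hx, hxi⟩, -, -⟩ : (∃ xi : T.I → T.I → R,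
      (∀ a b : T.J, x a b = if T.dg a = T.dg b + 1 then xi a.1 b.1 else 0) ∧
      (∀ i' i, xi i' i ≠ 0 → T.j i' ≤ T.j i + 1 ∧ T.j i ≤ T.j i' + 1)) ∧ True ∧ True :=
    ⟨(hSTC R N T x hcom).1 hdeg, trivial, trivial⟩
  obtain ⟨hk, hl, -⟩ := hGAM R N T ph hph
  have hne := ALG1.gam_ne ph hph
  have hE : adj (T.gam ph) (br x (T.l R)) = br x (T.l R) := by
    ext a b
    rw [ALG1.adj_apply]
    have h := ALG1.E_symm x xi ph hx hxi hg a b
    have ha := hne a
    calc (T.gam ph a)⁻¹ * br x (T.l R) b a * T.gam ph b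
        = (T.gam ph a)⁻¹ * (T.gam ph b * br x (T.l R) b a) := by ring
      _ = (T.gam ph a)⁻¹ * (T.gam ph a * br x (T.l R) a b) := by rw [h]
      _ = br x (T.l R) a b := by
          rw [← mul_assoc, inv_mul_cancel₀ ha, one_mul]
  calc br x (T.l R) = adj (T.gam ph) (br x (T.l R)) := hE.symm
    _ = br (T.k R) (adj (T.gam ph) x) := by
        unfold br
        rw [ALG1.adj_sub, ALG1.adj_mul _ hne, ALG1.adj_mul _ hne, hl]

end Pool.Agent.LFC
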