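import Pool.Agent.LFC.Stmts

/-!
ALG2: consequences of `[Th,k] = x` for matrices over a field with a derivation.
-/

set_option autoImplicit false

namespace Pool.Agent.LFC

open Matrix

namespace ALG2

/-! ### index set -/

theorem jext {N : ℕ} {T : Str N} (a b : T.J) (h1 : a.1 = b.1) (h2 : (a.2 : ℕ) = (b.2 : ℕ)) :
    a = b := by
  obtain ⟨i, s⟩ := a
  obtain ⟨i', s'⟩ := b
  dsimp only at h1
  subst h1
  have h3 : s = s' := Fin.ext h2
  rw [h3]

theorem le_m {N : ℕ} {T : Str N} (a : T.J) : (a.2 : ℕ) ≤ T.m a.1 :=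
  Nat.lt_succ_iff.mp a.2.isLt

section Entries

variable {R : Type} [Field R] {N : ℕ} (T : Str N)

theorem mul_k (A : Matrix T.J T.J R) (a b c : T.J) (h1 : c.1 = b.1)
    (h2 : (c.2 : ℕ) = (b.2 : ℕ) + 1) : (A * T.k R) a b = A a c := by
  rw [Matrix.mul_apply, Finset.sum_eq_single c]
  · have h3 : T.k R c b = 1 := by
      simp only [Str.k, Matrix.of_apply]
      rw [if_pos ⟨h1, h2⟩]
    rw [h3, mul_one]
  · intro d _ hd
    have h3 : T.k R d b = 0 := by
      simp only [Str.k, Matrix.of_apply]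
      rw [if_neg]
      rintro ⟨e1, e2⟩
      exact hd (jext d c (e1.trans h1.symm) (e2.trans h2.symm))
    rw [h3, mul_zero]
  · intro h
    exact absurd (Finset.mem_univ _) h

theorem k_mul (A : Matrix T.J T.J R) (a b c : T.J) (h1 : a.1 = c.1)
    (h2 : (a.2 : ℕ) = (c.2 : ℕ) + 1) : (T.k R * A) a b = A c b := by
  rw [Matrix.mul_apply, Finset.sum_eq_single c]
  · have h3 : T.k R a c = 1 := by
      simp only [Str.k, Matrix.of_apply]
      rw [if_pos ⟨h1, h2⟩]
    rw [h3, one_mul]
  · intro d _ hd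
    have h3 : T.k R a d = 0 := by
      simp only [Str.k, Matrix.of_apply]
      rw [if_neg]
      rintro ⟨e1, e2⟩
      exact hd (jext d c (e1.symm.trans h1) (by omega))
    rw [h3, zero_mul]
  · intro h
    exact absurd (Finset.mem_univ _) h

theorem l_mul (A : Matrix T.J T.J R) (a b c : T.J) (h1 : a.1 = c.1)
    (h2 : (c.2 : ℕ) = (a.2 : ℕ) + 1) :
    (T.l R * A) a b = (((c.2 : ℕ) * (T.m c.1 - (c.2 : ℕ) + 1) : ℕ) : R) * A c b := by
  rw [Matrix.mul_apply, Finset.sum_eq_single c]
  · have h3 : T.l R a c = (((c.2 : ℕ) * (T.m c.1 - (c.2 : ℕ) + 1) : ℕ) : R) := by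
      simp only [Str.l, Matrix.of_apply]
      rw [if_pos ⟨h1, h2⟩]
    rw [h3]
  · intro d _ hd
    have h3 : T.l R a d = 0 := by
      simp only [Str.l, Matrix.of_apply]
      rw [if_neg]
      rintro ⟨e1, e2⟩
      exact hd (jext d c (e1.symm.trans h1) (by omega))
    rw [h3, zero_mul]
  · intro h
    exact absurd (Finset.mem_univ _) h

theorem l_mul_top (A : Matrix T.J T.J R) (a b : T.J) (h : T.m a.1 ≤ (a.2 : ℕ)) :
    (T.l R * A) a b = 0 := by
  rw [Matrix.mul_apply]
  refine Finset.sum_eq_zero fun d _ => ?_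
  have h3 : T.l R a d = 0 := by
    simp only [Str.l, Matrix.of_apply]
    rw [if_neg]
    rintro ⟨e1, e2⟩
    have h4 := le_m d
    have h5 : T.m a.1 = T.m d.1 := congrArg T.m e1
    omega
  rw [h3, zero_mul]

theorem mul_l_bot (A : Matrix T.J T.J R) (a b : T.J) (h : (b.2 : ℕ) = 0) :
    (A * T.l R) a b = 0 := by
  rw [Matrix.mul_apply]
  refine Finset.sum_eq_zero fun d _ => ?_
  have h3 : T.l R d b = 0 := by
    simp only [Str.l, Matrix.of_apply]
    rw [if_neg]
    rintro ⟨e1, e2⟩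
    omega
  rw [h3, mul_zero]

theorem c_mul (A : Matrix T.J T.J R) (a b c : T.J) (h1 : a.1 = c.1)
    (h2 : (a.2 : ℕ) + (c.2 : ℕ) = T.m c.1) :
    (T.c R * A) a b = ((-1) ^ (T.j c.1) * (((c.2 : ℕ).factorial : ℕ) : R) /
      (((a.2 : ℕ).factorial : ℕ) : R)) * A c b := by
  rw [Matrix.mul_apply, Finset.sum_eq_single c]
  · have h3 : T.c R a c = ((-1) ^ (T.j c.1) * (((c.2 : ℕ).factorial : ℕ) : R) /
        (((a.2 : ℕ).factorial : ℕ) : R)) := by
      simp only [Str.c, Matrix.of_apply]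
      rw [if_pos ⟨h1, h2⟩]
    rw [h3]
  · intro d _ hd
    have h3 : T.c R a d = 0 := by
      simp only [Str.c, Matrix.of_apply]
      rw [if_neg]
      rintro ⟨e1, e2⟩
      refine hd (jext d c (e1.symm.trans h1) ?_)
      have h4 : T.m d.1 = T.m c.1 := congrArg T.m (e1.symm.trans h1)
      omega
    rw [h3, zero_mul]
  · intro h
    exact absurd (Finset.mem_univ _) h

theorem mul_c (A : Matrix T.J T.J R) (a b c : T.J) (h1 : c.1 = b.1)
    (h2 : (c.2 : ℕ) + (b.2 : ℕ) = T.m b.1) :
    (A * T.c R) a b = A a c * ((-1) ^ (T.j b.1) * (((b.2 : ℕ).factorial : ℕ) : R) /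
      (((c.2 : ℕ).factorial : ℕ) : R)) := by
  rw [Matrix.mul_apply, Finset.sum_eq_single c]
  · have h3 : T.c R c b = ((-1) ^ (T.j b.1) * (((b.2 : ℕ).factorial : ℕ) : R) /
        (((c.2 : ℕ).factorial : ℕ) : R)) := by
      simp only [Str.c, Matrix.of_apply]
      rw [if_pos ⟨h1, h2⟩]
    rw [h3]
  · intro d _ hd
    have h3 : T.c R d b = 0 := by
      simp only [Str.c, Matrix.of_apply]
      rw [if_neg]
      rintro ⟨e1, e2⟩
      exact hd (jext d c (e1.trans h1.symm) (by omega))
    rw [h3, mul_zero]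
  · intro h
    exact absurd (Finset.mem_univ _) h

/-! ### degrees -/

theorem mul_ne {A B : Matrix T.J T.J R} {a b : T.J} (h : (A * B) a b ≠ 0) :
    ∃ c, A a c ≠ 0 ∧ B c b ≠ 0 := by
  rw [Matrix.mul_apply] at h
  obtain ⟨c, _, hc⟩ := Finset.exists_ne_zero_of_sum_ne_zero h
  exact ⟨c, left_ne_zero_of_mul hc, right_ne_zero_of_mul hc⟩

theorem l_deg {a b : T.J} (h : T.l R a b ≠ 0) : T.dg b = T.dg a + 1 := by
  have h1 : a.1 = b.1 ∧ (b.2 : ℕ) = (a.2 : ℕ) + 1 := by
    by_contra hc
    exact h (by simp only [Str.l, Matrix.of_apply]; rw [if_neg hc])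
  have h2 : T.j a.1 = T.j b.1 := congrArg T.j h1.1
  have h3 := h1.2
  simp only [Str.dg]
  omega

theorem c_deg {a b : T.J} (h : T.c R a b ≠ 0) : T.dg a + T.dg b = N := by
  have h1 : a.1 = b.1 ∧ (a.2 : ℕ) + (b.2 : ℕ) = T.m b.1 := by
    by_contra hc
    exact h (by simp only [Str.c, Matrix.of_apply]; rw [if_neg hc])
  have h2 := T.hj b.1
  have h3 : T.j a.1 = T.j b.1 := congrArg T.j h1.1
  have h4 := h1.2
  simp only [Str.m] at h4
  simp only [Str.dg]
  omega

theorem h_comm0 {A : Matrix T.J T.J R} (hA : MDeg T.dg 0 A) : A * T.h R = T.h R * A := by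
  ext a b
  simp only [Str.h, Matrix.mul_diagonal, Matrix.diagonal_mul]
  by_cases h0 : A a b = 0
  · rw [h0, zero_mul, mul_zero]
  · rw [hA a b h0, Nat.add_zero, mul_comm]

theorem h_comm1 {A : Matrix T.J T.J R} (hA : MDeg T.dg 1 A) :
    T.h R * A = A * T.h R + (A + A) := by
  ext a b
  simp only [Str.h, Matrix.mul_diagonal, Matrix.diagonal_mul, Matrix.add_apply]
  by_cases h0 : A a b = 0
  · rw [h0, zero_mul, mul_zero, add_zero, add_zero]
  · rw [hA a b h0]
    push_cast
    ring

end Entries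

/-! ### ring identities -/

section Rng

variable {A : Type} [Ring A]

theorem br1 (k l Th x h : A) (h1 : k * l - l * k = h) (h2 : Th * k - k * Th = x)
    (h3 : Th * h = h * Th) :
    (Th * l - l * Th) * k - k * (Th * l - l * Th) = x * l - l * x := by
  subst h1 h2
  have h4 : (Th * l - l * Th) * k - k * (Th * l - l * Th) =
      ((Th * k - k * Th) * l - l * (Th * k - k * Th)) +
        ((k * l - l * k) * Th - Th * (k * l - l * k)) := by noncomm_ring
  rw [h4, h3, sub_self, add_zero]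

theorem br2 (k l x h : A) (h1 : k * l - l * k = h) (h2 : x * k - k * x = 0)
    (h3 : h * x = x * h + (x + x)) :
    (x * l - l * x) * k - k * (x * l - l * x) = x + x := by
  subst h1
  have h4 : (x * l - l * x) * k - k * (x * l - l * x) =
      ((k * l - l * k) * x - x * (k * l - l * k)) - (l * (x * k - k * x) -
        (x * k - k * x) * l) := by noncomm_ring
  rw [h4, h2, h3, mul_zero, zero_mul]
  noncomm_ring

theorem br3 (k l Th x c xs : A) (hc : c * c = 1) (hck : c * k = l * c) (hx : xs = c * x * c)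
    (h1 : Th * l - l * Th = -xs) :
    (c * Th * c) * k - k * (c * Th * c) = -x := by
  have h2 : k * c = c * l := by
    calc k * c = (c * c) * k * c := by rw [hc, one_mul]
      _ = c * (c * k) * c := by rw [mul_assoc c c k]
      _ = c * (l * c) * c := by rw [hck]
      _ = c * l * (c * c) := by noncomm_ring
      _ = c * l := by rw [hc, mul_one]
  calc (c * Th * c) * k - k * (c * Th * c) = c * Th * (c * k) - (k * c) * Th * c := by
        noncomm_ring
    _ = c * Th * (l * c) - (c * l) * Th * c := by rw [hck, h2]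
    _ = c * (Th * l - l * Th) * c := by noncomm_ring
    _ = c * (-xs) * c := by rw [h1]
    _ = -((c * c) * x * (c * c)) := by rw [hx]; noncomm_ring
    _ = -x := by rw [hc, one_mul, mul_one]

end Rng

/-! ### derivations -/

section Der

variable {R : Type} [Field R] {D : R → R}

theorem D_zero (ha : ∀ a b, D (a + b) = D a + D b) : D 0 = 0 := by
  have h := ha 0 0
  rw [add_zero] at h
  exact left_eq_add.mp h

theorem D_one (hm : ∀ a b, D (a * b) = D a * b + a * D b) : D 1 = 0 := by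
  have h := hm 1 1
  rw [mul_one, mul_one, one_mul] at h
  exact left_eq_add.mp h

theorem D_nat (ha : ∀ a b, D (a + b) = D a + D b) (hm : ∀ a b, D (a * b) = D a * b + a * D b)
    (n : ℕ) : D (n : R) = 0 := by
  induction n with
  | zero => rw [Nat.cast_zero]; exact D_zero ha
  | succ n ih => rw [Nat.cast_succ, ha, ih, D_one hm, add_zero]

theorem D_neg_one_pow (ha : ∀ a b, D (a + b) = D a + D b)
    (hm : ∀ a b, D (a * b) = D a * b + a * D b) (n : ℕ) : D ((-1) ^ n) = 0 := by
  have h1 : D (-1) = 0 := by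
    have h := ha (-1) 1
    rw [neg_add_cancel, D_zero ha, D_one hm, add_zero] at h
    exact h.symm
  induction n with
  | zero => rw [pow_zero]; exact D_one hm
  | succ n ih => rw [pow_succ, hm, ih, h1, zero_mul, mul_zero, add_zero]

theorem D_mul0 (hm : ∀ a b, D (a * b) = D a * b + a * D b) {a b : R} (h1 : D a = 0)
    (h2 : D b = 0) : D (a * b) = 0 := by
  rw [hm, h1, h2, zero_mul, mul_zero, add_zero]

theorem D_div0 (hm : ∀ a b, D (a * b) = D a * b + a * D b) {a b : R} (hb : b ≠ 0)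
    (h1 : D a = 0) (h2 : D b = 0) : D (a / b) = 0 := by
  have h3 := hm b (a / b)
  rw [mul_div_cancel₀ a hb, h1, h2, zero_mul, zero_add] at h3
  exact (mul_eq_zero.mp h3.symm).resolve_left hb

end Der

end ALG2

open ALG2 in
theorem ALG2_thm (hGAM : S_GAM) (hSTC : S_STC) (hALG1 : S_ALG1) : S_ALG2 := by
  intro R _ _ D hDa hDm N T ph x Th hph hxd hThd hxk hThk hxg hgD
  obtain ⟨g1, g2, g3, g4, g5, g6, g7⟩ := hGAM R N T ph hph
  have hE := hALG1 R N T ph x hph hxd hxk hxg
  have hga : ∀ a, T.gam ph a ≠ 0 := by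
    intro a
    simp only [Str.gam]
    refine div_ne_zero (mul_ne_zero (mul_ne_zero (pow_ne_zero _ (neg_ne_zero.mpr one_ne_zero))
      (hph _)) ?_) ?_
    · exact_mod_cast Nat.factorial_ne_zero _
    · exact_mod_cast Nat.factorial_ne_zero _
  set k := T.k R with hk
  set l := T.l R with hl
  set c := T.c R with hc
  set gr := T.gram ph with hgr
  set ga := T.gam ph with hgadef
  have hdi : Matrix.diagonal (fun a => (ga a)⁻¹) * Matrix.diagonal ga = 1 := by
    rw [Matrix.diagonal_mul_diagonal, ← Matrix.diagonal_one]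
    congr 1
    funext a
    exact inv_mul_cancel₀ (hga a)
  have hgrc : gr = Matrix.diagonal ga * c := by
    rw [← g3, Matrix.mul_assoc, g4, Matrix.mul_one]
  -- the adjoint of `x` is `c x c`
  have hxs : adj ga x = c * x * c := by
    have h1 : xᵀ * Matrix.diagonal ga = Matrix.diagonal ga * (c * x * c) := by
      calc xᵀ * Matrix.diagonal ga = xᵀ * (gr * c) := by rw [g3]
        _ = (xᵀ * gr) * c := by rw [Matrix.mul_assoc]
        _ = (gr * x) * c := by rw [hxg]
        _ = Matrix.diagonal ga * (c * x * c) := by rw [hgrc]; simp only [Matrix.mul_assoc]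
    rw [adj, Matrix.mul_assoc, h1, ← Matrix.mul_assoc, hdi, Matrix.one_mul]
  have hkl : k * l - l * k = T.h R := g7
  have hThk' : Th * k - k * Th = x := hThk
  have hxk' : x * k - k * x = 0 := hxk
  -- degree of the adjoint
  have hxsd : ∀ a b : T.J, adj ga x a b ≠ 0 → T.dg b = T.dg a + 1 := by
    intro a b h
    rw [adj, Matrix.mul_diagonal, Matrix.diagonal_mul, Matrix.transpose_apply] at h
    exact hxd b a (right_ne_zero_of_mul (left_ne_zero_of_mul h))
  -- part (a)
  have hY := br1 k l Th x (T.h R) hkl hThk' (h_comm0 T hThd)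
  have hE' : x * l - l * x = k * adj ga x - adj ga x * k := hE
  have hZ : br Th l + adj ga x = 0 := by
    refine (hSTC R N T (br Th l + adj ga x) ?_).2.2 ?_
    · have h1 : br (br Th l + adj ga x) k = ((Th * l - l * Th) * k - k * (Th * l - l * Th)) -
          (k * adj ga x - adj ga x * k) := by
        simp only [br]
        noncomm_ring
      rw [← hk, h1, hY, hE', sub_self]
    · intro a b h
      by_contra hd
      have e1 : (Th * l) a b = 0 := by
        by_contra h1
        obtain ⟨d, hd1, hd2⟩ := mul_ne T h1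
        have h3 := hThd a d hd1
        have h4 := l_deg T hd2
        exact hd (by omega)
      have e2 : (l * Th) a b = 0 := by
        by_contra h1
        obtain ⟨d, hd1, hd2⟩ := mul_ne T h1
        have h3 := hThd d b hd2
        have h4 := l_deg T hd1
        exact hd (by omega)
      have e3 : adj ga x a b = 0 := by
        by_contra h1
        exact hd (hxsd a b h1)
      refine h ?_
      rw [br, Matrix.add_apply, Matrix.sub_apply, e1, e2, e3, sub_self, add_zero]
  have hA : br Th l = - adj ga x := eq_neg_of_add_eq_zero_left hZ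
  refine ⟨hA, ?_⟩
  -- part (b)
  have hDc : ∀ a b, D (c a b) = 0 := by
    intro a b
    rw [hc]
    simp only [Str.c, Matrix.of_apply]
    split_ifs with h
    · exact D_div0 hDm (by exact_mod_cast Nat.factorial_ne_zero _)
        (D_mul0 hDm (D_neg_one_pow hDa hDm _) (D_nat hDa hDm _)) (D_nat hDa hDm _)
    · exact D_zero hDa
  have hgD' : gr.map D = Matrix.diagonal (fun a => D (ga a)) * c := by
    ext a b
    rw [Matrix.map_apply, hgrc, Matrix.diagonal_mul, Matrix.diagonal_mul, hDm, hDc a b,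
      mul_zero, add_zero]
  have hG : Matrix.diagonal (fun a => (ga a)⁻¹ * D (ga a)) = adj ga Th + c * Th * c := by
    have h1 : Matrix.diagonal (fun a => D (ga a)) =
        Thᵀ * Matrix.diagonal ga + Matrix.diagonal ga * (c * Th * c) := by
      calc Matrix.diagonal (fun a => D (ga a)) =
            (Matrix.diagonal (fun a => D (ga a)) * c) * c := by
              rw [Matrix.mul_assoc, g4, Matrix.mul_one]
        _ = (Thᵀ * gr + gr * Th) * c := by rw [← hgD', hgD]
        _ = Thᵀ * (gr * c) + (gr * Th) * c := by rw [Matrix.add_mul, Matrix.mul_assoc]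
        _ = Thᵀ * Matrix.diagonal ga + Matrix.diagonal ga * (c * Th * c) := by
              rw [g3, hgrc]; simp only [Matrix.mul_assoc]
    have h2 : Matrix.diagonal (fun a => (ga a)⁻¹ * D (ga a)) =
        Matrix.diagonal (fun a => (ga a)⁻¹) * Matrix.diagonal (fun a => D (ga a)) := by
      rw [Matrix.diagonal_mul_diagonal]
    rw [h2, h1, Matrix.mul_add, ← Matrix.mul_assoc, ← Matrix.mul_assoc, hdi, Matrix.one_mul, adj]
  -- the matrix to be shown zero
  have hEk := br2 k l x (T.h R) hkl hxk' (h_comm1 T hxd)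
  have hCk := br3 k l Th x c (adj ga x) g4 g5 hxs hA
  have hW : c * Th * c - Th + br x l = 0 := by
    have hWk : br (c * Th * c - Th + br x l) k = 0 := by
      have h1 : br (c * Th * c - Th + br x l) k =
          ((c * Th * c) * k - k * (c * Th * c)) - (Th * k - k * Th) +
          ((x * l - l * x) * k - k * (x * l - l * x)) := by
        simp only [br]
        noncomm_ring
      rw [h1, hCk, hThk', hEk]
      abel
    have hWd : MDeg T.dg 0 (c * Th * c - Th + br x l) := by
      intro a b h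
      by_contra hd
      rw [Nat.add_zero] at hd
      have e1 : (c * Th * c) a b = 0 := by
        by_contra h1
        obtain ⟨d, hd1, hd2⟩ := mul_ne T h1
        obtain ⟨e, he1, he2⟩ := mul_ne T hd1
        have h3 := c_deg T he1
        have h4 := hThd e d he2
        have h5 := c_deg T hd2
        exact hd (by omega)
      have e2 : Th a b = 0 := by
        by_contra h1
        exact hd (hThd a b h1)
      have e3 : (x * l) a b = 0 := by
        by_contra h1
        obtain ⟨d, hd1, hd2⟩ := mul_ne T h1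
        have h3 := hxd a d hd1
        have h4 := l_deg T hd2
        exact hd (by omega)
      have e4 : (l * x) a b = 0 := by
        by_contra h1
        obtain ⟨d, hd1, hd2⟩ := mul_ne T h1
        have h3 := hxd d b hd2
        have h4 := l_deg T hd1
        exact hd (by omega)
      refine h ?_
      rw [br, Matrix.add_apply, Matrix.sub_apply, Matrix.sub_apply, e1, e2, e3, e4, sub_self,
        add_zero]
    obtain ⟨ze, hze, hze0⟩ := (hSTC R N T _ hWk).2.1 hWd
    obtain ⟨xi, hxi, hxi0⟩ := (hSTC R N T x hxk).1 hxd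
    have hzz : ∀ i' i, ze i' i = 0 := by
      intro i' i
      by_contra hne
      have hj := hze0 i' i hne
      have hm : T.m i' = T.m i := by simp only [Str.m, hj]
      have hlt : ∀ s, s ≤ T.m i → s < N - 2 * T.j i + 1 := fun s hs => Nat.lt_succ_of_le hs
      have hlt' : ∀ s, s ≤ T.m i → s < N - 2 * T.j i' + 1 := fun s hs =>
        Nat.lt_succ_of_le (le_of_le_of_eq hs hm.symm)
      -- diagonal entries of Th
      have hT : ∀ s (hs : s ≤ T.m i), Th ⟨i', ⟨s, hlt' s hs⟩⟩ ⟨i, ⟨s, hlt s hs⟩⟩ =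
          Th ⟨i', ⟨0, hlt' 0 (Nat.zero_le _)⟩⟩ ⟨i, ⟨0, hlt 0 (Nat.zero_le _)⟩⟩ +
            (s : R) * xi i' i := by
        intro s
        induction s with
        | zero => intro hs; rw [Nat.cast_zero, zero_mul, add_zero]
        | succ s ih =>
          intro hs
          have hs' : s ≤ T.m i := by omega
          have h1 := congrFun (congrFun hThk' ⟨i', ⟨s + 1, hlt' _ hs⟩⟩) ⟨i, ⟨s, hlt s hs'⟩⟩
          rw [Matrix.sub_apply, hk, mul_k T Th ⟨i', ⟨s + 1, hlt' _ hs⟩⟩ ⟨i, ⟨s, hlt s hs'⟩⟩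
              ⟨i, ⟨s + 1, hlt _ hs⟩⟩ rfl rfl,
            k_mul T Th ⟨i', ⟨s + 1, hlt' _ hs⟩⟩ ⟨i, ⟨s, hlt s hs'⟩⟩
              ⟨i', ⟨s, hlt' s hs'⟩⟩ rfl rfl, hxi, if_pos, ih hs'] at h1
          · rw [sub_eq_iff_eq_add.mp h1]
            push_cast
            ring
          · simp only [Str.dg]
            omega
      have h0 := hze ⟨i', ⟨0, hlt' 0 (Nat.zero_le _)⟩⟩ ⟨i, ⟨0, hlt 0 (Nat.zero_le _)⟩⟩
      rw [if_pos (by simp only [Str.dg, hj])] at h0
      have hcc : (c * Th * c) ⟨i', ⟨0, hlt' 0 (Nat.zero_le _)⟩⟩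
          ⟨i, ⟨0, hlt 0 (Nat.zero_le _)⟩⟩ =
          Th ⟨i', ⟨T.m i, hlt' _ le_rfl⟩⟩ ⟨i, ⟨T.m i, hlt _ le_rfl⟩⟩ := by
        rw [hc, mul_c T _ ⟨i', ⟨0, hlt' 0 (Nat.zero_le _)⟩⟩ ⟨i, ⟨0, hlt 0 (Nat.zero_le _)⟩⟩
            ⟨i, ⟨T.m i, hlt _ le_rfl⟩⟩ rfl (Nat.add_zero _),
          c_mul T Th ⟨i', ⟨0, hlt' 0 (Nat.zero_le _)⟩⟩ ⟨i, ⟨T.m i, hlt _ le_rfl⟩⟩
            ⟨i', ⟨T.m i, hlt' _ le_rfl⟩⟩ rfl ((Nat.zero_add _).trans hm.symm)]
        have hf : ((((T.m i).factorial : ℕ)) : R) ≠ 0 := by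
          exact_mod_cast Nat.factorial_ne_zero _
        have hsq : ((-1 : R) ^ (T.j i)) * ((-1 : R) ^ (T.j i)) = 1 := by
          rw [← mul_pow, neg_one_mul, neg_neg, one_pow]
        simp only [Nat.factorial_zero, Nat.cast_one, div_one, mul_one, hj]
        field_simp
        rw [pow_two, hsq]
        ring
      have hE0 : (br x l) ⟨i', ⟨0, hlt' 0 (Nat.zero_le _)⟩⟩ ⟨i, ⟨0, hlt 0 (Nat.zero_le _)⟩⟩ =
          - ((T.m i : ℕ) : R) * xi i' i := by
        rw [br, Matrix.sub_apply, hl, mul_l_bot T x ⟨i', ⟨0, hlt' 0 (Nat.zero_le _)⟩⟩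
          ⟨i, ⟨0, hlt 0 (Nat.zero_le _)⟩⟩ rfl]
        rcases Nat.eq_zero_or_pos (T.m i) with hm0 | hm0
        · rw [l_mul_top T x ⟨i', ⟨0, hlt' 0 (Nat.zero_le _)⟩⟩
            ⟨i, ⟨0, hlt 0 (Nat.zero_le _)⟩⟩ (hm.trans hm0).le, hm0]
          simp
        · have h1 : 1 ≤ T.m i := hm0
          rw [l_mul T x ⟨i', ⟨0, hlt' 0 (Nat.zero_le _)⟩⟩ ⟨i, ⟨0, hlt 0 (Nat.zero_le _)⟩⟩
            ⟨i', ⟨1, hlt' 1 h1⟩⟩ rfl rfl, hxi, if_pos]
          · have h2 : (1 * (T.m i' - 1 + 1) : ℕ) = T.m i := by omega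
            have h3 : ((((⟨i', ⟨1, hlt' 1 h1⟩⟩ : T.J).2 : ℕ)) *
                (T.m (⟨i', ⟨1, hlt' 1 h1⟩⟩ : T.J).1 -
                  (((⟨i', ⟨1, hlt' 1 h1⟩⟩ : T.J).2 : ℕ)) + 1) : ℕ) = T.m i := h2
            rw [h3]
            ring
          · simp only [Str.dg]
            omega
      rw [Matrix.add_apply, Matrix.sub_apply, hcc, hE0, hT _ le_rfl] at h0
      refine hne ?_
      rw [← h0]
      ring
    ext a b
    rw [hze a b, hzz, ite_self, Matrix.zero_apply]
  have hW' : Th = c * Th * c + br x l := by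
    have h1 : c * Th * c + br x l - Th = 0 := by
      rw [← hW]
      abel
    exact (sub_eq_zero.mp h1).symm
  rw [hG]
  calc adj ga Th + Th = adj ga Th + (c * Th * c + br x l) := by rw [← hW']
    _ = br x l + (adj ga Th + c * Th * c) := by abel

end Pool.Agent.LFC
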