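import Pool.Agent.LFC.Stmts

/-!
COORD: homogeneous coordinates on a graded real vector space.
-/

set_option autoImplicit false

namespace Pool.Agent.LFC

open Matrix

namespace COORD

theorem ext_dot {i : Type} [Fintype i] [DecidableEq i] {M M' : Matrix i i ℝ}
    (h : ∀ x y : i → ℝ, x ⬝ᵥ (M *ᵥ y) = x ⬝ᵥ (M' *ᵥ y)) : M = M' := by
  ext a b
  have := h (Pi.single a 1) (Pi.single b 1)
  simpa using this

section

variable {H : Type} [AddCommGroup H] [Module ℝ H] {ι : Type} [Fintype ι] [DecidableEq ι]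
  (b : Module.Basis ι ℝ H)

theorem mulVec_repr (T : H →ₗ[ℝ] H) (v : H) :
    b.equivFun (T v) = LinearMap.toMatrix b b T *ᵥ b.equivFun v :=
  (LinearMap.toMatrix_mulVec_repr b b T v).symm

theorem form_repr (Q : H →ₗ[ℝ] H →ₗ[ℝ] ℝ) (v w : H) :
    Q v w = b.equivFun v ⬝ᵥ ((Matrix.of fun r s => Q (b r) (b s)) *ᵥ b.equivFun w) := by
  conv_lhs => rw [← b.sum_equivFun v, ← b.sum_equivFun w]
  simp only [map_sum, LinearMap.sum_apply, map_smul, LinearMap.smul_apply, smul_eq_mul,
    dotProduct, mulVec, Matrix.of_apply, Finset.mul_sum]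
  rw [Finset.sum_comm]
  refine Finset.sum_congr rfl fun x _ => Finset.sum_congr rfl fun y _ => ?_
  ring

theorem pow_repr (om et : H →ₗ[ℝ] H) (s : ℝ) (n : ℕ) (v : H) :
    b.equivFun (((s • om + et) ^ n) v) =
      ((s • LinearMap.toMatrix b b om + LinearMap.toMatrix b b et) ^ n) *ᵥ b.equivFun v := by
  induction n generalizing v with
  | zero => simp
  | succ n ih =>
    rw [pow_succ, Module.End.mul_apply, ih, pow_succ, ← Matrix.mulVec_mulVec]
    congr 1
    rw [LinearMap.add_apply, LinearMap.smul_apply, map_add, map_smul, mulVec_repr, mulVec_repr,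
      Matrix.add_mulVec, Matrix.smul_mulVec]

end

end COORD

open COORD in
theorem COORD_thm : S_COORD := by
  intro H _ _ _ N G Q om et hyp
  obtain ⟨hI, hN⟩ := hyp.gr
  classical
  let ι : Type := Σ j : ℕ, Fin (Module.finrank ℝ (G j))
  let b : Module.Basis ι ℝ H := hI.collectedBasis fun j => Module.finBasis ℝ (G j)
  let _ : Fintype ι := FiniteDimensional.fintypeBasisIndex b
  have hmemb : ∀ r : ι, b r ∈ G r.1 := fun r => hI.collectedBasis_mem _ r
  have hmem : ∀ j v, v ∈ G j ↔ ∀ r : ι, b.equivFun v r ≠ 0 → r.1 = j := by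
    intro j v
    constructor
    · intro hv r hr
      by_contra hne
      apply hr
      obtain ⟨i, a⟩ := r
      have h1 := hI.collectedBasis_repr_of_mem_ne (fun j => Module.finBasis ℝ (G j))
        (Ne.symm hne) hv (a := a)
      exact h1
    · intro h
      rw [← b.sum_equivFun v]
      refine Submodule.sum_mem _ fun r _ => ?_
      by_cases hr : b.equivFun v r = 0
      · rw [hr, zero_smul]
        exact zero_mem _
      · have := h r hr
        exact Submodule.smul_mem _ _ (this ▸ hmemb r)
  have hsingle : ∀ r : ι, b.equivFun (b r) = Pi.single r 1 := by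
    intro r
    ext s
    rw [Module.Basis.equivFun_self, Pi.single_apply]
    by_cases h : r = s
    · rw [if_pos h, if_pos h.symm]
    · rw [if_neg h, if_neg (Ne.symm h)]
  have hent : ∀ (T : H →ₗ[ℝ] H) (r s : ι), LinearMap.toMatrix b b T r s =
      b.equivFun (T (b s)) r := by
    intro T r s
    rw [LinearMap.toMatrix_apply]
    rfl
  let C : CD :=
    { i := ι
      fin := inferInstance
      dec := inferInstance
      dg := fun r => r.1
      Q := Matrix.of fun r s => Q (b r) (b s)
      Om := LinearMap.toMatrix b b om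
      Et := LinearMap.toMatrix b b et }
  have hom := mulVec_repr b om
  have het := mulVec_repr b et
  have hQ := form_repr b Q
  have hQC : ∀ x y : ι → ℝ, x ⬝ᵥ (C.Q *ᵥ y) = Q (b.equivFun.symm x) (b.equivFun.symm y) := by
    intro x y
    rw [hQ, LinearEquiv.apply_symm_apply, LinearEquiv.apply_symm_apply]
  have hself : ∀ T : H →ₗ[ℝ] H, SelfAdj Q T →
      (LinearMap.toMatrix b b T)ᵀ * C.Q = C.Q * LinearMap.toMatrix b b T := by
    intro T hT
    apply ext_dot
    intro x y
    have h1 : x ⬝ᵥ (((LinearMap.toMatrix b b T)ᵀ * C.Q) *ᵥ y) =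
        (LinearMap.toMatrix b b T *ᵥ x) ⬝ᵥ (C.Q *ᵥ y) := by
      rw [← Matrix.mulVec_mulVec, Matrix.dotProduct_mulVec, Matrix.vecMul_transpose]
    have h2 : ∀ z : ι → ℝ, b.equivFun.symm (LinearMap.toMatrix b b T *ᵥ z) =
        T (b.equivFun.symm z) := by
      intro z
      apply b.equivFun.injective
      rw [LinearEquiv.apply_symm_apply, mulVec_repr, LinearEquiv.apply_symm_apply]
    rw [h1, ← Matrix.mulVec_mulVec, hQC, hQC, h2, h2]
    exact hT _ _
  refine ⟨C, b.equivFun, ?_, hom, het, hQ, hmem⟩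
  refine ⟨?_, ?_, ?_, ?_, ?_, ?_, ?_, ?_, ?_, ?_⟩
  · intro r
    change r.1 ≤ N
    by_contra hcon
    have h1 := hN r.1 (by omega)
    have h2 : Module.finrank ℝ (G r.1) = 0 := by rw [h1]; simp
    exact Fin.elim0 (h2 ▸ r.2)
  · ext r s
    exact hyp.pa.1 _ _
  · have hinj : Function.Injective C.Q.mulVec := by
      intro x y hxy
      have h1 : ∀ w, Q (b.equivFun.symm (x - y)) w = 0 := by
        intro w
        rw [hyp.pa.1]
        have := hQC (b.equivFun w) (x - y)
        rw [LinearEquiv.symm_apply_apply] at this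
        rw [← this, Matrix.mulVec_sub]
        have hxy' : C.Q *ᵥ x = C.Q *ᵥ y := hxy
        rw [hxy', sub_self, dotProduct_zero]
      have h2 := hyp.pa.2.1 _ h1
      have h3 : x - y = 0 := by
        rw [← LinearEquiv.apply_symm_apply b.equivFun (x - y), h2, map_zero]
      exact sub_eq_zero.1 h3
    have hu : IsUnit C.Q := Matrix.mulVec_injective_iff_isUnit.1 hinj
    have hd : IsUnit C.Q.det := (Matrix.isUnit_iff_isUnit_det _).1 hu
    exact ⟨C.Q⁻¹, Matrix.mul_nonsing_inv _ hd, Matrix.nonsing_inv_mul _ hd⟩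
  · intro r s hrs
    by_contra hne
    exact hrs (hyp.pa.2.2 r.1 s.1 hne _ (hmemb r) _ (hmemb s))
  · intro r s hrs
    have h1 : om (b s) ∈ G (s.1 + 1) := hyp.omd s.1 _ (hmemb s)
    refine (hmem _ _).1 h1 r ?_
    rw [← hent]
    exact hrs
  · intro r s hrs
    have h1 : et (b s) ∈ G (s.1 + 1) := hyp.etd s.1 _ (hmemb s)
    refine (hmem _ _).1 h1 r ?_
    rw [← hent]
    exact hrs
  · change LinearMap.toMatrix b b om * LinearMap.toMatrix b b et =
      LinearMap.toMatrix b b et * LinearMap.toMatrix b b om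
    rw [← LinearMap.toMatrix_mul, ← LinearMap.toMatrix_mul]
    congr 1
    ext v
    exact hyp.cm v
  · exact hself om hyp.oms
  · exact hself et hyp.ets
  · obtain ⟨s0, hs0⟩ := hyp.hr
    refine ⟨s0, fun s hs j hj v hv h0 hne => ?_⟩
    have hvG : b.equivFun.symm v ∈ G j := by
      rw [hmem]
      intro r hr
      rw [LinearEquiv.apply_symm_apply] at hr
      exact hv r hr
    have hpow := fun n => pow_repr b om et s n (b.equivFun.symm v)
    simp only [LinearEquiv.apply_symm_apply] at hpow
    have h1 : ((s • om + et) ^ (N - 2 * j + 1)) (b.equivFun.symm v) = 0 := by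
      apply b.equivFun.injective
      rw [hpow, map_zero]
      exact h0
    have h2 : b.equivFun.symm v ≠ 0 := by
      intro h
      apply hne
      rw [← LinearEquiv.apply_symm_apply b.equivFun v, h, map_zero]
    have h3 := hs0 s hs j hj _ hvG h1 h2
    rw [hQ, hpow, LinearEquiv.apply_symm_apply] at h3
    exact h3

end Pool.Agent.LFC
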