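import Pool.Agent.LFC.Stmts

/-!
# CSQ: Cauchy-Schwarz for the form
-/

set_option autoImplicit false

namespace Pool.Agent.LFC

open Matrix

namespace CSQ

theorem cst_mul (a b : ℝ) : cst (a * b) = cst a * cst b := map_mul HahnSeries.C a b

theorem cst_sum {J : Type} (s : Finset J) (f : J → ℝ) : cst (∑ a ∈ s, f a) = ∑ a ∈ s, cst (f a) :=
  map_sum (HahnSeries.C : ℝ →+* K) f s

theorem charK : CharZero K :=
  charZero_of_injective_ringHom (f := (HahnSeries.C : ℝ →+* K)) HahnSeries.C_injective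

theorem hf_eq {J R : Type} [Fintype J] [DecidableEq J] [Field R] (ga v w : J → R) :
    hf ga v w = v ⬝ᵥ (Matrix.diagonal ga *ᵥ w) := by
  unfold hf dotProduct
  refine Finset.sum_congr rfl fun a _ => ?_
  rw [Matrix.mulVec_diagonal]
  ring

theorem sym {J R : Type} [Fintype J] [Field R] (M : Matrix J J R) (hM : Mᵀ = M) (v w : J → R) :
    v ⬝ᵥ (M *ᵥ w) = w ⬝ᵥ (M *ᵥ v) := by
  rw [Matrix.dotProduct_mulVec, dotProduct_comm, ← Matrix.mulVec_transpose, hM]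

theorem cst_form {i : Type} [Fintype i] (Q : Matrix i i ℝ) (v w : i → ℝ) :
    cst (v ⬝ᵥ (Q *ᵥ w)) = (fun r => cst (v r)) ⬝ᵥ (Q.map cst *ᵥ (fun r => cst (w r))) := by
  unfold dotProduct Matrix.mulVec dotProduct
  rw [cst_sum]
  refine Finset.sum_congr rfl fun a _ => ?_
  rw [cst_mul, cst_sum]
  congr 1
  refine Finset.sum_congr rfl fun b _ => ?_
  rw [cst_mul]
  rfl

theorem form_crd {N : ℕ} {C : CD} {T : Str N} {S : Matrix C.i T.J K} {S' : Matrix T.J C.i K}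
    {ph : T.I → K} (hF : Frame N C T S S' ph) (v w : C.i → ℝ) :
    cst (v ⬝ᵥ (C.Q *ᵥ w)) = crd C T S' v ⬝ᵥ (T.gram ph *ᵥ crd C T S' w) := by
  have h : ∀ u : C.i → ℝ, (fun r => cst (u r)) = S *ᵥ crd C T S' u := by
    intro u
    rw [crd, Matrix.mulVec_mulVec, hF.inv1, Matrix.one_mulVec]
  rw [cst_form, h v, h w, ← hF.gram, ← Matrix.mulVec_mulVec, ← Matrix.mulVec_mulVec,
    Matrix.dotProduct_mulVec _ Sᵀ, Matrix.vecMul_transpose]

end CSQ

open CSQ in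
/-- CSQ: Cauchy-Schwarz for the form. -/
theorem CSQ_thm (hGAM : S_GAM) (hORD : S_ORD) (hKREL : S_KREL) : S_CSQ := by
  intro N C hC T S S' ph hF v w
  have hph : ∀ i, ph i ≠ 0 := by
    intro i h
    have h1 := hF.pos i
    rw [h, mul_zero] at h1
    rw [Psv, HahnSeries.leadingCoeff_zero] at h1
    exact lt_irrefl _ h1
  have : CharZero K := charK
  obtain ⟨-, -, hgc, hcc, -, hgs, -⟩ := hGAM K N T ph hph
  have hga := (hKREL N C hC T S S' ph hF).1
  have hdc : Matrix.diagonal (T.gam ph) * T.c K = T.gram ph := by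
    rw [← hgc, Matrix.mul_assoc, hcc, Matrix.mul_one]
  have h1 : hf (T.gam ph) (crd C T S' v) (T.c K *ᵥ crd C T S' w) = cst (v ⬝ᵥ (C.Q *ᵥ w)) := by
    rw [hf_eq, Matrix.mulVec_mulVec, hdc, form_crd hF]
  have h2 : hf (T.gam ph) (T.c K *ᵥ crd C T S' w) (T.c K *ᵥ crd C T S' w) =
      hf (T.gam ph) (crd C T S' w) (crd C T S' w) := by
    rw [hf_eq, Matrix.mulVec_mulVec, hdc, sym _ hgs, Matrix.mulVec_mulVec, hgc, hf_eq]
  have h3 := (hORD.2.2.2.2.2.2.2.2.2.2 T.J (T.gam ph) (crd C T S' v)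
    (T.c K *ᵥ crd C T S' w) hga).2.2
  rw [h1, h2, ← cst_mul] at h3
  exact h3

end Pool.Agent.LFC
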