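import Pool.Agent.LFC.Stmts

/-!
Module DPHI: first and second derivative of the Hodge norm of a constant vector.
-/

set_option autoImplicit false

namespace Pool.Agent.LFC

open Matrix

namespace DPHI

section General

variable {J R : Type} [Fintype J] [DecidableEq J] [Field R] {ga : J → R}

theorem adj_entry (A : Matrix J J R) (a b : J) :
    adj ga A a b = (ga a)⁻¹ * A b a * ga b := by
  unfold adj
  rw [Matrix.mul_diagonal, Matrix.diagonal_mul, Matrix.transpose_apply]

theorem adj_adj (hga : ∀ a, ga a ≠ 0) (A : Matrix J J R) : adj ga (adj ga A) = A := by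
  ext a b
  rw [adj_entry, adj_entry]
  field_simp [hga a, hga b]

theorem adj_mul (hga : ∀ a, ga a ≠ 0) (A B : Matrix J J R) :
    adj ga (A * B) = adj ga B * adj ga A := by
  ext a b
  rw [adj_entry, Matrix.mul_apply, Matrix.mul_apply, Finset.mul_sum, Finset.sum_mul]
  apply Finset.sum_congr rfl
  intro c _
  rw [adj_entry, adj_entry]
  field_simp [hga a, hga b, hga c]

theorem adj_sub (A B : Matrix J J R) : adj ga (A - B) = adj ga A - adj ga B := by
  ext a b
  rw [Matrix.sub_apply, adj_entry, adj_entry, adj_entry, Matrix.sub_apply]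
  ring

theorem hf_comm (v w : J → R) : hf ga v w = hf ga w v := by
  unfold hf
  apply Finset.sum_congr rfl
  intro a _
  ring

theorem hf_add (v v' w : J → R) : hf ga (v + v') w = hf ga v w + hf ga v' w := by
  unfold hf
  rw [← Finset.sum_add_distrib]
  apply Finset.sum_congr rfl
  intro a _
  rw [Pi.add_apply]
  ring

theorem hf_sub (v v' w : J → R) : hf ga (v - v') w = hf ga v w - hf ga v' w := by
  unfold hf
  rw [← Finset.sum_sub_distrib]
  apply Finset.sum_congr rfl
  intro a _
  rw [Pi.sub_apply]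
  ring

theorem hf_neg (v w : J → R) : hf ga (-v) w = - hf ga v w := by
  unfold hf
  rw [← Finset.sum_neg_distrib]
  apply Finset.sum_congr rfl
  intro a _
  rw [Pi.neg_apply]
  ring

theorem hf_adj (hga : ∀ a, ga a ≠ 0) (A : Matrix J J R) (v w : J → R) :
    hf ga (A *ᵥ v) w = hf ga v (adj ga A *ᵥ w) := by
  unfold hf
  simp only [Matrix.mulVec, dotProduct, Finset.mul_sum, Finset.sum_mul]
  rw [Finset.sum_comm]
  apply Finset.sum_congr rfl
  intro a _
  apply Finset.sum_congr rfl
  intro b _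
  rw [adj_entry]
  field_simp [hga a]

theorem hf_adj' (hga : ∀ a, ga a ≠ 0) (A : Matrix J J R) (v w : J → R) :
    hf ga v (A *ᵥ w) = hf ga (adj ga A *ᵥ v) w := by
  rw [hf_comm, hf_adj hga, hf_comm]

end General

section Der

variable {J R : Type} [Fintype J] [DecidableEq J] [Field R] {ga : J → R} {D : R → R}

theorem D_zero (h1 : ∀ a b, D (a + b) = D a + D b) : D 0 = 0 := by
  have h := h1 0 0
  rw [add_zero] at h
  exact left_eq_add.mp h

theorem D_neg (h1 : ∀ a b, D (a + b) = D a + D b) (a : R) : D (-a) = - D a := by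
  have h := h1 a (-a)
  rw [add_neg_cancel, D_zero h1] at h
  exact eq_neg_of_add_eq_zero_right h.symm

theorem D_sub (h1 : ∀ a b, D (a + b) = D a + D b) (a b : R) : D (a - b) = D a - D b := by
  rw [sub_eq_add_neg, h1, D_neg h1, ← sub_eq_add_neg]

theorem D_sum (h1 : ∀ a b, D (a + b) = D a + D b) {I : Type} (s : Finset I) (f : I → R) :
    D (∑ i ∈ s, f i) = ∑ i ∈ s, D (f i) := by
  classical
  induction s using Finset.induction_on with
  | empty => rw [Finset.sum_empty, Finset.sum_empty, D_zero h1]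
  | insert a s ha ih => rw [Finset.sum_insert ha, Finset.sum_insert ha, h1, ih]

theorem D_mulVec (h1 : ∀ a b, D (a + b) = D a + D b)
    (h2 : ∀ a b, D (a * b) = D a * b + a * D b) {I : Type} [Fintype I] (A : Matrix J I R)
    (v : I → R) :
    (fun a => D ((A *ᵥ v) a)) = A.map D *ᵥ v + A *ᵥ (fun i => D (v i)) := by
  funext a
  simp only [Matrix.mulVec, dotProduct, Pi.add_apply, Matrix.map_apply]
  rw [D_sum h1, ← Finset.sum_add_distrib]
  apply Finset.sum_congr rfl
  intro b _
  rw [h2]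

theorem D_mul (h1 : ∀ a b, D (a + b) = D a + D b)
    (h2 : ∀ a b, D (a * b) = D a * b + a * D b) (A B : Matrix J J R) :
    (A * B).map D = A.map D * B + A * B.map D := by
  ext a b
  simp only [Matrix.map_apply, Matrix.mul_apply, Matrix.add_apply]
  rw [D_sum h1, ← Finset.sum_add_distrib]
  apply Finset.sum_congr rfl
  intro c _
  rw [h2]

theorem D_hf (h1 : ∀ a b, D (a + b) = D a + D b)
    (h2 : ∀ a b, D (a * b) = D a * b + a * D b) (hga : ∀ a, ga a ≠ 0) (v w : J → R) :
    D (hf ga v w) = hf ga (Matrix.diagonal (fun a => (ga a)⁻¹ * D (ga a)) *ᵥ v) w +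
      hf ga (fun a => D (v a)) w + hf ga v (fun a => D (w a)) := by
  unfold hf
  rw [D_sum h1, ← Finset.sum_add_distrib, ← Finset.sum_add_distrib]
  apply Finset.sum_congr rfl
  intro a _
  rw [h2, h2, Matrix.mulVec_diagonal]
  field_simp [hga a]

/-- the computation -/
theorem main (h1 : ∀ a b, D (a + b) = D a + D b)
    (h2 : ∀ a b, D (a * b) = D a * b + a * D b) (hga : ∀ a, ga a ≠ 0)
    (X Th k l : Matrix J J R) (hkl : adj ga k = l) (hl : l.map D = 0)
    (e1 : br Th X + X.map D = X) (e2 : br X l = br k (adj ga X)) (e3 : br Th l = - adj ga X)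
    (e4 : adj ga Th + Th = br X l + Matrix.diagonal (fun a => (ga a)⁻¹ * D (ga a)))
    (w : J → R) (hw : (fun a => D (w a)) = - (Th *ᵥ w)) :
    D (hf ga w w) = - hf ga (br X l *ᵥ w) w ∧
    D (D (hf ga w w)) - D (hf ga w w) = hf ga (br X l *ᵥ w) (br X l *ᵥ w) +
      hf ga (adj ga X *ᵥ w) (adj ga X *ᵥ w) - hf ga (X *ᵥ w) (X *ᵥ w) := by
  have e5 : Matrix.diagonal (fun a => (ga a)⁻¹ * D (ga a)) = adj ga Th + Th - br X l := by
    rw [e4]; abel
  have hE : adj ga (br X l) = br X l := by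
    have h3 : adj ga (br k (adj ga X)) = br X l := by
      unfold br
      rw [adj_sub, adj_mul hga, adj_mul hga, adj_adj hga, hkl]
    rw [← e2] at h3
    exact h3
  have hDE : (br X l).map D + br Th (br X l) =
      br X l - X * adj ga X + adj ga X * X := by
    have h4 : (br X l).map D = br (X.map D) l := by
      have h5 : (br X l).map D = (X * l).map D - (l * X).map D := by
        ext a b
        unfold br
        simp only [Matrix.map_apply, Matrix.sub_apply]
        exact D_sub h1 _ _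
      rw [h5, D_mul h1 h2, D_mul h1 h2, hl, mul_zero, zero_mul]
      unfold br
      rw [add_zero, zero_add]
    have h6 : X.map D = X - br Th X := by
      rw [eq_sub_iff_add_eq, add_comm]; exact e1
    have h7 : br Th (br X l) = br (br Th X) l + br X (br Th l) := by
      unfold br
      noncomm_ring
    rw [h4, h6, h7, e3]
    unfold br
    noncomm_ring
  have hD1 : D (hf ga w w) = - hf ga (br X l *ᵥ w) w := by
    rw [D_hf h1 h2 hga, hw, e5, hf_comm w (-(Th *ᵥ w)), hf_neg, Matrix.sub_mulVec,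
      Matrix.add_mulVec, hf_sub, hf_add]
    have h8 : hf ga (adj ga Th *ᵥ w) w = hf ga (Th *ᵥ w) w := by
      rw [hf_adj hga, adj_adj hga, hf_comm]
    rw [h8]
    ring
  have hDEw : (fun a => D ((br X l *ᵥ w) a)) =
      (br X l).map D *ᵥ w - (br X l * Th) *ᵥ w := by
    rw [D_mulVec h1 h2, hw, Matrix.mulVec_neg, Matrix.mulVec_mulVec, sub_eq_add_neg]
  have hD2 : D (hf ga (br X l *ᵥ w) w) =
      hf ga (br X l *ᵥ w) w - hf ga (X *ᵥ (adj ga X *ᵥ w)) w + hf ga (adj ga X *ᵥ (X *ᵥ w)) w
        - hf ga (br X l *ᵥ (br X l *ᵥ w)) w := by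
    rw [D_hf h1 h2 hga, hw, hDEw, hf_comm (br X l *ᵥ w) (-(Th *ᵥ w)), hf_neg,
      hf_adj hga Th, hf_comm w (adj ga Th *ᵥ (br X l *ᵥ w)), e5]
    rw [Matrix.mulVec_mulVec, Matrix.mulVec_mulVec, Matrix.mulVec_mulVec, Matrix.mulVec_mulVec,
      Matrix.mulVec_mulVec]
    rw [← hf_add, ← sub_eq_add_neg, ← hf_sub, ← hf_sub, ← hf_add, ← hf_sub]
    rw [← Matrix.sub_mulVec, ← Matrix.add_mulVec, ← Matrix.sub_mulVec, ← Matrix.sub_mulVec,
      ← Matrix.add_mulVec, ← Matrix.sub_mulVec]
    have h9 : (adj ga Th + Th - br X l) * br X l + ((br X l).map D - br X l * Th)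
        - adj ga Th * br X l = br X l - X * adj ga X + adj ga X * X - br X l * br X l := by
      rw [← hDE]
      have h10 : br Th (br X l) = Th * br X l - br X l * Th := rfl
      rw [h10]
      noncomm_ring
    rw [h9]
  refine ⟨hD1, ?_⟩
  rw [hD1, D_neg h1, hD2]
  have h11 : hf ga (X *ᵥ (adj ga X *ᵥ w)) w = hf ga (adj ga X *ᵥ w) (adj ga X *ᵥ w) :=
    hf_adj hga _ _ _
  have h12 : hf ga (adj ga X *ᵥ (X *ᵥ w)) w = hf ga (X *ᵥ w) (X *ᵥ w) := by
    rw [hf_adj hga, adj_adj hga]
  have h13 : hf ga (br X l *ᵥ (br X l *ᵥ w)) w = hf ga (br X l *ᵥ w) (br X l *ᵥ w) := by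
    rw [hf_adj hga, hE]
  rw [h11, h12, h13]
  ring

end Der

theorem ne_of_Psv {f : K} (h : Psv f) : f ≠ 0 := by
  intro h0
  unfold Psv at h
  rw [h0, HahnSeries.leadingCoeff_zero] at h
  exact lt_irrefl _ h

end DPHI

open DPHI in
theorem DPHI_thm (hGAM : S_GAM) (hSER : S_SER) (hKREL : S_KREL) : S_DPHI := by
  intro N C hC T S S' ph hF v
  obtain ⟨h1, h2, h3, -, -, -⟩ := hSER
  obtain ⟨k1, k2, k3, k4, k5, k6⟩ := hKREL N C hC T S S' ph hF
  have hph : ∀ i, ph i ≠ 0 := fun i h0 => by
    have h := ne_of_Psv (hF.pos i)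
    rw [h0, mul_zero] at h
    exact h rfl
  have hga : ∀ a, T.gam ph a ≠ 0 := fun a => ne_of_Psv (k1 a)
  haveI : CharZero K := charZero_of_injective_ringHom (f := (HahnSeries.C : ℝ →+* K))
    HahnSeries.C_injective
  obtain ⟨g1, -⟩ := hGAM K N T ph hph
  have hn : ∀ n : ℕ, dK ((n : ℕ) : K) = 0 := by
    intro n
    have h := h3 (n : ℝ)
    unfold cst at h
    rw [map_natCast] at h
    exact h
  have hl : (T.l K).map dK = 0 := by
    apply Matrix.ext
    intro a b
    rw [Matrix.map_apply, Matrix.zero_apply]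
    unfold Str.l
    rw [Matrix.of_apply]
    split_ifs
    · exact hn _
    · exact D_zero h1
  have hw : (fun a => dK (crd C T S' v a)) = - (thK C T S S' *ᵥ crd C T S' v) := by
    unfold crd
    rw [D_mulVec h1 h2, k3]
    have h0 : (fun i => dK (cst (v i))) = 0 := by
      funext i
      exact h3 _
    rw [h0, Matrix.mulVec_zero, add_zero, Matrix.neg_mul, Matrix.neg_mulVec, Matrix.mulVec_mulVec]
  exact DPHI.main h1 h2 hga (xK C T S S') (thK C T S S') (T.k K) (T.l K) g1 hl k2 k4 k5 k6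
    (crd C T S' v) hw

end Pool.Agent.LFC
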