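import Pool.Agent.LFC.Stmts

/-!
# GAM: elementary identities for the constant matrices
-/

set_option autoImplicit false

namespace Pool.Agent.LFC

open Matrix

namespace GAM

variable {R : Type} [Field R] {N : ℕ} (T : Str N)

/-- the position in the string -/
def v (a : T.J) : ℕ := (a.2 : ℕ)

theorem le_m (a : T.J) : v T a ≤ T.m a.1 := Nat.lt_succ_iff.1 a.2.2

/-- the reversed index -/
def rev (a : T.J) : T.J := ⟨a.1, ⟨T.m a.1 - v T a, Nat.lt_succ_iff.2 (Nat.sub_le _ _)⟩⟩

theorem rev_fst (a : T.J) : (rev T a).1 = a.1 := rfl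

theorem rev_snd (a : T.J) : v T (rev T a) = T.m a.1 - v T a := rfl

theorem ext_iff (a b : T.J) : a = b ↔ a.1 = b.1 ∧ v T a = v T b := by
  constructor
  · rintro rfl
    exact ⟨rfl, rfl⟩
  · obtain ⟨i, s⟩ := a
    obtain ⟨i', s'⟩ := b
    rintro ⟨h1, h2⟩
    obtain rfl : i = i' := h1
    have h3 : s = s' := Fin.ext h2
    rw [h3]

theorem cond_iff (a b : T.J) : (a.1 = b.1 ∧ v T a + v T b = T.m b.1) ↔ a = rev T b := by
  have hb := le_m T b
  rw [ext_iff T a (rev T b), rev_snd, rev_fst]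
  constructor
  · rintro ⟨h1, h2⟩
    exact ⟨h1, by omega⟩
  · rintro ⟨h1, h2⟩
    exact ⟨h1, by omega⟩

theorem rev_rev (a : T.J) : rev T (rev T a) = a := by
  rw [ext_iff]
  refine ⟨rfl, ?_⟩
  have ha := le_m T a
  rw [rev_snd, rev_snd, rev_fst]
  omega

/-- the value of the entries of `c` -/
def cv (R : Type) [Field R] (b : T.J) : R :=
  (-1) ^ (T.j b.1) * (((v T b).factorial : ℕ) : R) /
    (((T.m b.1 - v T b).factorial : ℕ) : R)

theorem gam_def (ph : T.I → R) (a : T.J) : T.gam ph a =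
    (-1) ^ (T.j a.1) * ph a.1 * (((v T a).factorial : ℕ) : R) /
      (((T.m a.1 - v T a).factorial : ℕ) : R) := rfl

theorem c_apply (a b : T.J) : T.c R a b = if a = rev T b then cv T R b else 0 := by
  have h0 : T.c R a b = if a.1 = b.1 ∧ v T a + v T b = T.m b.1
    then (-1) ^ (T.j b.1) * (((v T b).factorial : ℕ) : R) / (((v T a).factorial : ℕ) : R)
    else 0 := rfl
  rw [h0]
  by_cases h : a = rev T b
  · rw [if_pos h, if_pos ((cond_iff T a b).2 h), cv, h, rev_snd]
  · rw [if_neg h, if_neg (fun h' => h ((cond_iff T a b).1 h'))]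

theorem gram_apply (ph : T.I → R) (a b : T.J) :
    T.gram ph a b = if a = rev T b then ph b.1 else 0 := by
  have h0 : T.gram ph a b = if a.1 = b.1 ∧ v T a + v T b = T.m b.1
    then ph a.1 else 0 := rfl
  rw [h0]
  by_cases h : a = rev T b
  · rw [if_pos h, if_pos ((cond_iff T a b).2 h), h, rev_fst]
  · rw [if_neg h, if_neg (fun h' => h ((cond_iff T a b).1 h'))]

theorem k_apply (a b : T.J) :
    T.k R a b = if a.1 = b.1 ∧ v T a = v T b + 1 then 1 else 0 := rfl

theorem l_apply (a b : T.J) :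
    T.l R a b = if a.1 = b.1 ∧ v T b = v T a + 1
      then ((v T b * (T.m b.1 - v T b + 1) : ℕ) : R) else 0 := rfl

theorem mul_c (M : Matrix T.J T.J R) (a b : T.J) :
    (M * T.c R) a b = M a (rev T b) * cv T R b := by
  rw [Matrix.mul_apply, Finset.sum_eq_single (rev T b)]
  · rw [c_apply, if_pos rfl]
  · intro x _ hx
    rw [c_apply, if_neg hx, mul_zero]
  · intro h
    exact absurd (Finset.mem_univ _) h

theorem c_mul (M : Matrix T.J T.J R) (a b : T.J) :
    (T.c R * M) a b = cv T R (rev T a) * M (rev T a) b := by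
  rw [Matrix.mul_apply, Finset.sum_eq_single (rev T a)]
  · rw [c_apply, if_pos (rev_rev T a).symm]
  · intro x _ hx
    rw [c_apply, if_neg, zero_mul]
    intro h
    apply hx
    rw [h, rev_rev]
  · intro h
    exact absurd (Finset.mem_univ _) h

theorem fac_ne [CharZero R] (n : ℕ) : ((n.factorial : ℕ) : R) ≠ 0 :=
  Nat.cast_ne_zero.2 (Nat.factorial_ne_zero n)

theorem gam_ne [CharZero R] {ph : T.I → R} (hph : ∀ i, ph i ≠ 0) (a : T.J) :
    T.gam ph a ≠ 0 := by
  rw [gam_def]
  refine div_ne_zero (mul_ne_zero (mul_ne_zero ?_ (hph _)) (fac_ne _)) (fac_ne _)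
  exact pow_ne_zero _ (neg_ne_zero.2 one_ne_zero)

theorem gam_succ [CharZero R] {ph : T.I → R} {a b : T.J}
    (h1 : a.1 = b.1) (h2 : v T b = v T a + 1) :
    T.gam ph b = ((v T b * (T.m b.1 - v T b + 1) : ℕ) : R) * T.gam ph a := by
  have hb := le_m T b
  have h3 : T.m a.1 - v T a = T.m b.1 - v T b + 1 := by
    rw [h1]
    omega
  rw [gam_def, gam_def, h3, h1, h2, Nat.factorial_succ, Nat.factorial_succ]
  have h4 := fac_ne (R := R) (T.m b.1 - (v T a + 1))
  have h5 : ((T.m b.1 - (v T a + 1) + 1 : ℕ) : R) ≠ 0 := Nat.cast_ne_zero.2 (Nat.succ_ne_zero _)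
  push_cast at h5 ⊢
  field_simp

theorem adj_apply (ga : T.J → R) (A : Matrix T.J T.J R) (a b : T.J) :
    adj ga A a b = (ga a)⁻¹ * A b a * ga b := by
  rw [adj, Matrix.mul_diagonal, Matrix.diagonal_mul, Matrix.transpose_apply]

theorem adj_k [CharZero R] {ph : T.I → R} (hph : ∀ i, ph i ≠ 0) :
    adj (T.gam ph) (T.k R) = T.l R := by
  ext a b
  rw [adj_apply, k_apply, l_apply]
  by_cases h : a.1 = b.1 ∧ v T b = v T a + 1
  · rw [if_pos h, if_pos ⟨h.1.symm, h.2⟩, gam_succ T h.1 h.2]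
    have := gam_ne T hph a
    field_simp
  · rw [if_neg h, if_neg (fun h' => h ⟨h'.1.symm, h'.2⟩), mul_zero, zero_mul]

theorem adj_l [CharZero R] {ph : T.I → R} (hph : ∀ i, ph i ≠ 0) :
    adj (T.gam ph) (T.l R) = T.k R := by
  ext a b
  rw [adj_apply, k_apply, l_apply]
  by_cases h : a.1 = b.1 ∧ v T a = v T b + 1
  · rw [if_pos h, if_pos ⟨h.1.symm, h.2⟩]
    have h1 := gam_succ T (ph := ph) h.1.symm h.2
    have h2 := gam_ne T hph a
    rw [mul_assoc, ← h1]
    exact inv_mul_cancel₀ h2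
  · rw [if_neg h, if_neg (fun h' => h ⟨h'.1.symm, h'.2⟩), mul_zero, zero_mul]

theorem kl [CharZero R] : br (T.k R) (T.l R) = T.h R := by
  have h1 : ∀ a b : T.J, (T.k R * T.l R) a b =
      if a = b then ((v T a * (T.m a.1 - v T a + 1) : ℕ) : R) else 0 := by
    intro a b
    rw [Matrix.mul_apply]
    by_cases ha : v T a = 0
    · rw [Finset.sum_eq_zero]
      · rw [ha, zero_mul, Nat.cast_zero, ite_self]
      · intro x _
        rw [k_apply, if_neg, zero_mul]
        rintro ⟨_, h2⟩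
        omega
    · have hlt : v T a - 1 < N - 2 * T.j a.1 + 1 := lt_of_le_of_lt (Nat.sub_le _ _) a.2.2
      have hv : v T (⟨a.1, ⟨v T a - 1, hlt⟩⟩ : T.J) = v T a - 1 := rfl
      rw [Finset.sum_eq_single (⟨a.1, ⟨v T a - 1, hlt⟩⟩ : T.J)]
      · rw [k_apply, if_pos ⟨rfl, by rw [hv]; omega⟩, one_mul, l_apply, hv]
        by_cases hab : a = b
        · subst hab
          rw [if_pos rfl, if_pos ⟨rfl, by omega⟩]
        · rw [if_neg hab, if_neg]
          rintro ⟨h2, h3⟩
          apply hab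
          rw [ext_iff]
          exact ⟨h2, by omega⟩
      · intro x _ hx
        rw [k_apply, if_neg, zero_mul]
        rintro ⟨h2, h3⟩
        apply hx
        rw [ext_iff, hv]
        exact ⟨h2.symm, by omega⟩
      · intro h
        exact absurd (Finset.mem_univ _) h
  have h2 : ∀ a b : T.J, (T.l R * T.k R) a b =
      if a = b then (((v T b + 1) * (T.m b.1 - v T b) : ℕ) : R) else 0 := by
    intro a b
    have hb := le_m T b
    rw [Matrix.mul_apply]
    by_cases hb' : v T b = T.m b.1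
    · rw [Finset.sum_eq_zero]
      · rw [hb', Nat.sub_self, mul_zero, Nat.cast_zero, ite_self]
      · intro x _
        rw [k_apply, if_neg, mul_zero]
        rintro ⟨h3, h4⟩
        have hx := le_m T x
        rw [h3] at hx
        omega
    · have hlt : v T b + 1 < N - 2 * T.j b.1 + 1 := by
        have h3 : T.m b.1 = N - 2 * T.j b.1 := rfl
        omega
      have hv : v T (⟨b.1, ⟨v T b + 1, hlt⟩⟩ : T.J) = v T b + 1 := rfl
      rw [Finset.sum_eq_single (⟨b.1, ⟨v T b + 1, hlt⟩⟩ : T.J)]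
      · rw [k_apply, if_pos ⟨rfl, hv⟩, mul_one, l_apply, hv]
        by_cases hab : a = b
        · subst hab
          have h5 : T.m a.1 - (v T a + 1) + 1 = T.m a.1 - v T a := by omega
          rw [if_pos rfl, if_pos ⟨rfl, rfl⟩, h5]
        · rw [if_neg hab, if_neg]
          rintro ⟨h3, h4⟩
          apply hab
          rw [ext_iff]
          exact ⟨h3, by omega⟩
      · intro x _ hx
        rw [k_apply, if_neg, mul_zero]
        rintro ⟨h3, h4⟩
        apply hx
        rw [ext_iff, hv]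
        exact ⟨h3, h4⟩
      · intro h
        exact absurd (Finset.mem_univ _) h
  ext a b
  rw [br, Matrix.sub_apply, h1, h2, Str.h, Matrix.diagonal_apply]
  by_cases hab : a = b
  · subst hab
    rw [if_pos rfl, if_pos rfl, if_pos rfl]
    have ha := le_m T a
    have h3 : T.m a.1 = N - 2 * T.j a.1 := rfl
    have h4 := T.hj a.1
    obtain ⟨r, hr⟩ := Nat.exists_eq_add_of_le ha
    have h6 : T.m a.1 - v T a = r := by omega
    have h5 : v T a + r + 2 * T.j a.1 = N := by omega
    have h7 : ((v T a + r + 2 * T.j a.1 : ℕ) : R) = (N : R) := by rw [h5]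
    have h8 : T.dg a = T.j a.1 + v T a := rfl
    rw [h6, h8, ← h7]
    push_cast
    ring
  · rw [if_neg hab, if_neg hab, if_neg hab, sub_zero]

end GAM

theorem GAM_thm : S_GAM := by
  intro R _ _ N T ph hph
  refine ⟨GAM.adj_k T hph, GAM.adj_l T hph, ?_, ?_, ?_, ?_, GAM.kl T⟩
  · ext a b
    rw [GAM.mul_c, GAM.gram_apply, GAM.rev_rev, Matrix.diagonal_apply]
    by_cases hab : a = b
    · subst hab
      rw [if_pos rfl, if_pos rfl, GAM.rev_fst, GAM.cv, GAM.gam_def]
      ring
    · rw [if_neg hab, if_neg hab, zero_mul]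
  · ext a b
    rw [GAM.mul_c, GAM.c_apply, GAM.rev_rev, Matrix.one_apply]
    by_cases hab : a = b
    · subst hab
      rw [if_pos rfl, if_pos rfl, GAM.cv, GAM.cv, GAM.rev_snd, GAM.rev_fst]
      have ha := GAM.le_m T a
      have h1 : T.m a.1 - (T.m a.1 - GAM.v T a) = GAM.v T a := by omega
      rw [h1]
      have h2 := GAM.fac_ne (R := R) (T.m a.1 - GAM.v T a)
      have h3 := GAM.fac_ne (R := R) (GAM.v T a)
      have h4 : ((-1 : R) ^ (T.j a.1)) * ((-1 : R) ^ (T.j a.1)) = 1 := by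
        rw [← mul_pow]
        simp
      field_simp
      rw [sq, h4]
    · rw [if_neg hab, if_neg hab, zero_mul]
  · ext a b
    rw [GAM.mul_c, GAM.c_mul, GAM.k_apply, GAM.l_apply, GAM.rev_snd, GAM.rev_snd, GAM.rev_fst,
      GAM.rev_fst]
    have ha := GAM.le_m T a
    have hb := GAM.le_m T b
    by_cases hab : a.1 = b.1 ∧ T.m a.1 - GAM.v T a = GAM.v T b + 1
    · have h1 : a.1 = b.1 ∧ T.m b.1 - GAM.v T b = GAM.v T a + 1 := by
        refine ⟨hab.1, ?_⟩
        have := hab.2
        rw [hab.1] at this ha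
        omega
      rw [if_pos hab, if_pos h1, GAM.cv, GAM.cv, GAM.rev_snd, GAM.rev_fst]
      have h2 : T.m a.1 - (T.m a.1 - GAM.v T a) = GAM.v T a := by omega
      have h3 : T.m b.1 - (GAM.v T a + 1) = GAM.v T b := by
        have := h1.2
        omega
      rw [h2, hab.2, h1.2, Nat.factorial_succ, Nat.factorial_succ, hab.1, h3]
      have h5 := GAM.fac_ne (R := R) (GAM.v T a)
      have h6 : ((GAM.v T a + 1 : ℕ) : R) ≠ 0 := Nat.cast_ne_zero.2 (Nat.succ_ne_zero _)
      push_cast at h6 ⊢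
      field_simp
    · rw [if_neg hab, if_neg, mul_zero, zero_mul]
      rintro ⟨h1, h2⟩
      apply hab
      refine ⟨h1, ?_⟩
      rw [h1] at ha ⊢
      omega
  · ext a b
    rw [Matrix.transpose_apply, GAM.gram_apply, GAM.gram_apply]
    by_cases hab : a = GAM.rev T b
    · have h1 : b = GAM.rev T a := by rw [hab, GAM.rev_rev]
      rw [if_pos h1, if_pos hab, hab, GAM.rev_fst]
    · rw [if_neg hab, if_neg]
      intro h1
      apply hab
      rw [h1, GAM.rev_rev]

end Pool.Agent.LFC
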