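import Pool.Agent.LFC.Stmts

/-!
Module KFR of the core frame (MP_716236_co, part K): existence of a K-frame.
-/

set_option autoImplicit false

namespace Pool.Agent.LFC

open Matrix

namespace KFR

/-- the ring homomorphism `X ↦ s` -/
noncomputable def io : Polynomial ℝ →+* K :=
  Polynomial.eval₂RingHom (HahnSeries.C : ℝ →+* K) sK

theorem io_C (a : ℝ) : io (Polynomial.C a) = cst a := Polynomial.eval₂_C _ _

theorem io_X : io Polynomial.X = sK := Polynomial.eval₂_X _ _

theorem sK_pow (n : ℕ) : sK ^ n = HahnSeries.single (-(n : ℤ)) (1 : ℝ) := by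
  have h : n • (-1 : ℤ) = -(n : ℤ) := by
    rw [smul_neg, nsmul_eq_mul, mul_one]
  rw [sK, HahnSeries.single_pow, one_pow, h]

theorem io_mono (n : ℕ) (a : ℝ) :
    io (Polynomial.monomial n a) = HahnSeries.single (-(n : ℤ)) a := by
  have h : io (Polynomial.monomial n a) = HahnSeries.C a * sK ^ n := Polynomial.eval₂_monomial _ _
  rw [h, sK_pow, HahnSeries.C_apply, HahnSeries.single_mul_single, zero_add, mul_one]

theorem io_coeff (p : Polynomial ℝ) (n : ℤ) :
    (io p).coeff n = if n ≤ 0 then p.coeff (-n).toNat else 0 := by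
  induction p using Polynomial.induction_on' with
  | add p q hp hq =>
    rw [map_add, HahnSeries.coeff_add, hp, hq, Polynomial.coeff_add]
    split_ifs with h
    · rfl
    · rw [add_zero]
  | monomial k a =>
    rw [io_mono, HahnSeries.coeff_single, Polynomial.coeff_monomial]
    by_cases h : n = -(k : ℤ)
    · rw [if_pos h, if_pos (by omega), if_pos (by omega)]
    · rw [if_neg h]
      split_ifs with h1 h2
      · exact absurd h2 (by omega)
      · rfl
      · rfl

theorem io_lead (p : Polynomial ℝ) : (io p).leadingCoeff = p.leadingCoeff := by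
  by_cases hp : p = 0
  · rw [hp, map_zero, HahnSeries.leadingCoeff_zero, Polynomial.leadingCoeff_zero]
  have h0 : (io p).coeff (-(p.natDegree : ℤ)) = p.leadingCoeff := by
    rw [io_coeff, if_pos (by omega), neg_neg, Int.toNat_natCast]
    rfl
  have h3 : p.leadingCoeff ≠ 0 := mt Polynomial.leadingCoeff_eq_zero.1 hp
  have h1 : io p ≠ 0 := fun h => by
    rw [h, HahnSeries.coeff_zero] at h0
    exact h3 h0.symm
  have h2 : (io p).order = -(p.natDegree : ℤ) := by
    refine le_antisymm (HahnSeries.order_le_of_coeff_ne_zero (by rw [h0]; exact h3)) ?_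
    rw [HahnSeries.le_order_iff_forall h1]
    intro j hj
    rw [io_coeff]
    split_ifs with h
    · exact Polynomial.coeff_eq_zero_of_natDegree_lt (by omega)
    · rfl
  rw [HahnSeries.leadingCoeff_eq, h2, h0]

theorem io_ne {p : Polynomial ℝ} (h : p ≠ 0) : io p ≠ 0 := fun h' => by
  have h1 := io_lead p
  rw [h', HahnSeries.leadingCoeff_zero] at h1
  exact h (Polynomial.leadingCoeff_eq_zero.1 h1.symm)

theorem kX_map (C : CD) : C.kX.map io = sK • C.Om.map cst + C.Et.map cst := by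
  ext1 r s
  simp only [CD.kX, Matrix.map_apply, Matrix.add_apply, Matrix.smul_apply, smul_eq_mul, map_add,
    map_mul, io_X, io_C]

section

variable {N : ℕ} {C : CD}

theorem kX_deg (h : C.Ok N) (r s : C.i) (hr : C.kX r s ≠ 0) : C.dg r = C.dg s + 1 := by
  by_contra hne
  have h1 : C.Om r s = 0 := by
    by_contra h'
    exact hne (h.omd r s h')
  have h2 : C.Et r s = 0 := by
    by_contra h'
    exact hne (h.etd r s h')
  refine hr ?_
  simp only [CD.kX, Matrix.map_apply, Matrix.add_apply, Matrix.smul_apply, smul_eq_mul, h1, h2,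
    map_zero, mul_zero, add_zero]

theorem pow_deg (h : C.Ok N) (v : C.i → Polynomial ℝ) (j : ℕ) (hv : ∀ r, v r ≠ 0 → C.dg r = j)
    (t : ℕ) : ∀ r, ((C.kX ^ t) *ᵥ v) r ≠ 0 → C.dg r = j + t := by
  induction t with
  | zero =>
    intro r hr
    rw [pow_zero, Matrix.one_mulVec] at hr
    exact hv r hr
  | succ t ih =>
    intro r hr
    rw [pow_succ', ← Matrix.mulVec_mulVec] at hr
    obtain ⟨s, -, hs⟩ := Finset.exists_ne_zero_of_sum_ne_zero hr
    have h1 := kX_deg h r s (left_ne_zero_of_mul hs)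
    have h2 := ih s (right_ne_zero_of_mul hs)
    omega

/-- the form on polynomial vectors -/
noncomputable def B (C : CD) (v w : C.i → Polynomial ℝ) : Polynomial ℝ :=
  v ⬝ᵥ (C.Q.map Polynomial.C *ᵥ w)

theorem B_zero_right (v : C.i → Polynomial ℝ) : B C v 0 = 0 := by
  rw [B, Matrix.mulVec_zero, dotProduct_zero]

theorem B_zero_left (w : C.i → Polynomial ℝ) : B C 0 w = 0 := by
  rw [B, zero_dotProduct]

theorem B_deg (h : C.Ok N) {v w : C.i → Polynomial ℝ} {j j' : ℕ}
    (hv : ∀ r, v r ≠ 0 → C.dg r = j) (hw : ∀ r, w r ≠ 0 → C.dg r = j') (hne : j + j' ≠ N) :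
    B C v w = 0 := by
  by_contra h0
  obtain ⟨r, -, hr⟩ := Finset.exists_ne_zero_of_sum_ne_zero h0
  obtain ⟨s, -, hs⟩ := Finset.exists_ne_zero_of_sum_ne_zero (right_ne_zero_of_mul hr)
  have h1 := hv r (left_ne_zero_of_mul hr)
  have h2 := hw s (right_ne_zero_of_mul hs)
  have h3 : C.Q r s ≠ 0 := fun h' => left_ne_zero_of_mul hs (by
    change Polynomial.C (C.Q r s) = 0
    rw [h', map_zero])
  have h4 := h.qd r s h3
  omega

theorem kX_adj (h : C.Ok N) :
    (C.kX)ᵀ * C.Q.map Polynomial.C = C.Q.map Polynomial.C * C.kX := by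
  have h1 : (C.Om.map (Polynomial.C : ℝ →+* Polynomial ℝ))ᵀ * C.Q.map (Polynomial.C : ℝ →+* _) =
      C.Q.map (Polynomial.C : ℝ →+* Polynomial ℝ) * C.Om.map (Polynomial.C : ℝ →+* _) := by
    rw [← Matrix.transpose_map, ← Matrix.map_mul, h.oms, Matrix.map_mul]
  have h2 : (C.Et.map (Polynomial.C : ℝ →+* Polynomial ℝ))ᵀ * C.Q.map (Polynomial.C : ℝ →+* _) =
      C.Q.map (Polynomial.C : ℝ →+* Polynomial ℝ) * C.Et.map (Polynomial.C : ℝ →+* _) := by
    rw [← Matrix.transpose_map, ← Matrix.map_mul, h.ets, Matrix.map_mul]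
  rw [CD.kX, Matrix.transpose_add, Matrix.transpose_smul, Matrix.add_mul, Matrix.smul_mul, h1, h2,
    Matrix.mul_add, Matrix.mul_smul]

theorem pow_adj (h : C.Ok N) (t : ℕ) :
    (C.kX ^ t)ᵀ * C.Q.map Polynomial.C = C.Q.map Polynomial.C * C.kX ^ t := by
  induction t with
  | zero => rw [pow_zero, Matrix.transpose_one, Matrix.one_mul, Matrix.mul_one]
  | succ t ih =>
    rw [pow_succ', Matrix.transpose_mul, Matrix.mul_assoc, kX_adj h, ← Matrix.mul_assoc, ih,
      Matrix.mul_assoc, ← pow_succ, ← pow_succ']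

theorem B_adj (h : C.Ok N) (t : ℕ) (v w : C.i → Polynomial ℝ) :
    B C ((C.kX ^ t) *ᵥ v) w = B C v ((C.kX ^ t) *ᵥ w) := by
  rw [B, B, Matrix.mulVec_mulVec, ← pow_adj h, ← Matrix.mulVec_mulVec, Matrix.dotProduct_mulVec v,
    Matrix.vecMul_transpose]

theorem pow_add_mulVec (s t : ℕ) (v : C.i → Polynomial ℝ) :
    (C.kX ^ s) *ᵥ ((C.kX ^ t) *ᵥ v) = (C.kX ^ (s + t)) *ᵥ v := by
  rw [Matrix.mulVec_mulVec, pow_add]

/-- powers beyond the length of the string vanish -/
theorem pow_big {v : C.i → Polynomial ℝ} {m t : ℕ} (hv : (C.kX ^ (m + 1)) *ᵥ v = 0) (ht : m < t) :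
    (C.kX ^ t) *ᵥ v = 0 := by
  obtain ⟨k, rfl⟩ := Nat.exists_eq_add_of_lt ht
  have e : m + k + 1 = k + (m + 1) := by omega
  rw [e, ← pow_add_mulVec, hv, Matrix.mulVec_zero]

/-- the values of the form on the string basis -/
theorem B_val (h : C.Ok N) (T : Str N) (A : T.I → C.i → Polynomial ℝ)
    (h1 : ∀ i r, A i r ≠ 0 → C.dg r = T.j i) (h2 : ∀ i, (C.kX ^ (T.m i + 1)) *ᵥ A i = 0)
    (h3 : ∀ i i', i ≠ i' → T.j i = T.j i' → B C (A i) ((C.kX ^ (T.m i')) *ᵥ A i') = 0)
    (i i' : T.I) (s s' : ℕ) :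
    B C ((C.kX ^ s) *ᵥ A i) ((C.kX ^ s') *ᵥ A i') =
      if i = i' ∧ s + s' = T.m i' then B C (A i) ((C.kX ^ (T.m i)) *ᵥ A i) else 0 := by
  have e1 : B C ((C.kX ^ s) *ᵥ A i) ((C.kX ^ s') *ᵥ A i') =
      B C (A i) ((C.kX ^ (s + s')) *ᵥ A i') := by
    rw [B_adj h, pow_add_mulVec]
  have e2 : B C ((C.kX ^ s) *ᵥ A i) ((C.kX ^ s') *ᵥ A i') =
      B C ((C.kX ^ (s + s')) *ᵥ A i) (A i') := by
    rw [← B_adj h, pow_add_mulVec, add_comm]
  split_ifs with hc
  · obtain ⟨rfl, hs⟩ := hc
    rw [e1, hs]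
  · by_cases hN : (T.j i + s) + (T.j i' + s') = N
    · have hj := T.hj i
      have hj' := T.hj i'
      rcases lt_trichotomy (T.j i) (T.j i') with hlt | heq | hgt
      · rw [e1, pow_big (h2 i') (by rw [Str.m]; omega), B_zero_right]
      · have hs : s + s' = T.m i' := by
          rw [Str.m]
          omega
        have hii : i ≠ i' := fun hii => hc ⟨hii, hs⟩
        rw [e1, hs, h3 i i' hii heq]
      · rw [e2, pow_big (h2 i) (by rw [Str.m]; omega), B_zero_left]
    · exact B_deg h (pow_deg h _ _ (h1 i) s) (pow_deg h _ _ (h1 i') s') hN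

end

end KFR

open KFR in
/-- KFR: existence of a K-frame -/
theorem KFR_thm (hPOLY : S_POLY) : S_KFR := by
  intro N C hC
  obtain ⟨T, A, e, h1, h2, h3, h4, h5⟩ := hPOLY N C hC
  -- the polynomial matrix of the string basis
  set S0 : Matrix C.i T.J (Polynomial ℝ) :=
    Matrix.of fun r b => ((C.kX ^ (b.2 : ℕ)) *ᵥ A b.1) r with hS0
  set M0 : Matrix C.i C.i (Polynomial ℝ) :=
    Matrix.of fun r s => ((C.kX ^ ((e s).2 : ℕ)) *ᵥ A (e s).1) r with hM0
  have hdet : IsUnit (M0.map io).det := by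
    rw [← RingHom.mapMatrix_apply, ← RingHom.map_det]
    exact isUnit_iff_ne_zero.2 (io_ne h5)
  have hS : S0.map io = (M0.map io).submatrix id e.symm := by
    ext1 r b
    change io (S0 r b) = io (S0 r (e (e.symm b)))
    rw [Equiv.apply_symm_apply]
  set S : Matrix C.i T.J K := S0.map io with hSdef
  set S' : Matrix T.J C.i K := ((M0.map io)⁻¹).submatrix e.symm id with hS'
  have inv1 : S * S' = 1 := by
    rw [hS, hS', Matrix.submatrix_mul_equiv, Matrix.mul_nonsing_inv _ hdet, Matrix.submatrix_id_id]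
  have inv2 : S' * S = 1 := by
    rw [hS, hS', ← Matrix.submatrix_mul _ _ _ _ _ Function.bijective_id,
      Matrix.nonsing_inv_mul _ hdet, Matrix.submatrix_one_equiv]
  have deg : ∀ r b, S r b ≠ 0 → C.dg r = T.dg b := by
    intro r b hb
    refine pow_deg hC (A b.1) (T.j b.1) (h1 b.1) (b.2 : ℕ) r fun h0 => hb ?_
    have h0' : S0 r b = 0 := h0
    rw [hSdef, Matrix.map_apply, h0', map_zero]
  have hcast : ∀ a b : ℕ, (a : K) = (b : K) → a = b := by
    intro a b hab
    have h : cst (a : ℝ) = cst (b : ℝ) := by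
      rw [cst, cst, map_natCast, map_natCast]
      exact hab
    exact Nat.cast_injective (HahnSeries.C_injective h)
  have deg' : ∀ b r, S' b r ≠ 0 → C.dg r = T.dg b := by
    intro b r hb
    have d1 : Matrix.diagonal (fun r => (C.dg r : K)) * S =
        S * Matrix.diagonal (fun b => (T.dg b : K)) := by
      ext1 r b
      rw [Matrix.diagonal_mul, Matrix.mul_diagonal]
      by_cases h0 : S r b = 0
      · rw [h0, mul_zero, zero_mul]
      · rw [deg r b h0, mul_comm]
    have d2 : S' * Matrix.diagonal (fun r => (C.dg r : K)) =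
        Matrix.diagonal (fun b => (T.dg b : K)) * S' := by
      calc S' * Matrix.diagonal (fun r => (C.dg r : K))
          = S' * (Matrix.diagonal (fun r => (C.dg r : K)) * S) * S' := by
            rw [Matrix.mul_assoc, Matrix.mul_assoc, inv1, Matrix.mul_one]
        _ = Matrix.diagonal (fun b => (T.dg b : K)) * S' := by
            rw [d1, ← Matrix.mul_assoc S', inv2, Matrix.one_mul]
    have d3 := congrFun (congrFun d2 b) r
    rw [Matrix.diagonal_mul, Matrix.mul_diagonal, mul_comm] at d3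
    exact hcast _ _ (mul_right_cancel₀ hb d3)
  have hQ : C.Q.map cst = (C.Q.map Polynomial.C).map io := by
    ext1 r s
    simp only [Matrix.map_apply, io_C]
  refine ⟨T, S, S', fun i => io (B C (A i) ((C.kX ^ (T.m i)) *ᵥ A i)), inv1, inv2, deg, deg',
    ?_, ?_, ?_⟩
  · -- kap
    rw [← kX_map, hSdef, ← Matrix.map_mul]
    ext1 r b
    obtain ⟨i, s⟩ := b
    have e1 : (C.kX * S0) r ⟨i, s⟩ = ((C.kX ^ ((s : ℕ) + 1)) *ᵥ A i) r := by
      rw [pow_succ', ← Matrix.mulVec_mulVec]
      rfl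
    rw [Matrix.map_apply, e1, Matrix.mul_apply]
    by_cases hs : (s : ℕ) = T.m i
    · rw [hs, h2 i, Pi.zero_apply, map_zero]
      refine (Finset.sum_eq_zero fun a _ => ?_).symm
      have hk : T.k K a ⟨i, s⟩ = 0 := by
        rw [Str.k, Matrix.of_apply, if_neg]
        rintro ⟨ha, hb⟩
        obtain ⟨i', s'⟩ := a
        change i' = i at ha
        subst ha
        have := s'.2
        change (s' : ℕ) = (s : ℕ) + 1 at hb
        rw [Str.m] at hs
        omega
      rw [hk, mul_zero]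
    · have hlt : (s : ℕ) + 1 < N - 2 * T.j i + 1 := by
        have := s.2
        rw [Str.m] at hs
        omega
      rw [Finset.sum_eq_single (⟨i, ⟨(s : ℕ) + 1, hlt⟩⟩ : T.J)]
      · have hk : T.k K ⟨i, ⟨(s : ℕ) + 1, hlt⟩⟩ ⟨i, s⟩ = 1 := by
          rw [Str.k, Matrix.of_apply, if_pos ⟨rfl, rfl⟩]
        rw [hk, mul_one]
        rfl
      · intro a _ ha
        have hk : T.k K a ⟨i, s⟩ = 0 := by
          rw [Str.k, Matrix.of_apply, if_neg]
          rintro ⟨ha', hb⟩
          obtain ⟨i', s'⟩ := a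
          change i' = i at ha'
          subst ha'
          change (s' : ℕ) = (s : ℕ) + 1 at hb
          refine ha ?_
          congr 1
          exact Fin.ext hb
        rw [hk, mul_zero]
      · intro h
        exact absurd (Finset.mem_univ _) h
  · -- gram
    rw [hQ, hSdef, ← Matrix.transpose_map, ← Matrix.map_mul, ← Matrix.map_mul]
    ext1 a b
    have e1 : (S0ᵀ * C.Q.map Polynomial.C * S0) a b =
        B C ((C.kX ^ (a.2 : ℕ)) *ᵥ A a.1) ((C.kX ^ (b.2 : ℕ)) *ᵥ A b.1) := by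
      rw [Matrix.mul_assoc]
      rfl
    rw [Matrix.map_apply, e1, B_val hC T A h1 h2 h3]
    rw [Str.gram, Matrix.of_apply]
    split_ifs with hc
    · rfl
    · rw [map_zero]
  · -- pos
    intro i
    have e1 : ((-1 : K)) ^ (T.j i) * io (B C (A i) ((C.kX ^ (T.m i)) *ᵥ A i)) =
        io ((-1) ^ (T.j i) * B C (A i) ((C.kX ^ (T.m i)) *ᵥ A i)) := by
      rw [map_mul, map_pow, map_neg, map_one]
    rw [Psv, e1, io_lead]
    exact h4 i

end Pool.Agent.LFC
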