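import Pool.Agent.LFC.Stmts

/-!
KREL: the relations in a frame (MP_716236_co, part K; proof: PAPER.md).
-/

set_option autoImplicit false

namespace Pool.Agent.LFC

open Matrix

namespace KREL

section Calc

variable (hadd : ∀ f g : K, dK (f + g) = dK f + dK g)
  (hmul : ∀ f g : K, dK (f * g) = dK f * g + f * dK g)

include hadd in
theorem dK_zero : dK 0 = 0 := by
  have h := hadd 0 0
  rw [add_zero] at h
  exact left_eq_add.1 h

include hadd in
theorem dK_sum {ι : Type} (s : Finset ι) (f : ι → K) :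
    dK (∑ i ∈ s, f i) = ∑ i ∈ s, dK (f i) :=
  map_sum (AddMonoidHom.mk' dK hadd) f s

include hadd hmul in
theorem map_mul {m n p : Type} [Fintype n] (A : Matrix m n K) (B : Matrix n p K) :
    (A * B).map dK = A.map dK * B + A * B.map dK := by
  refine Matrix.ext fun i j => ?_
  rw [Matrix.map_apply, Matrix.mul_apply, dK_sum hadd, Matrix.add_apply, Matrix.mul_apply,
    Matrix.mul_apply, ← Finset.sum_add_distrib]
  exact Finset.sum_congr rfl fun k _ => hmul _ _

include hadd in
theorem map_add {m n : Type} (A B : Matrix m n K) :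
    (A + B).map dK = A.map dK + B.map dK := by
  exact Matrix.ext fun i j => hadd _ _

theorem map_cst {m n : Type} (h : ∀ a : ℝ, dK (cst a) = 0) (A : Matrix m n ℝ) :
    (A.map cst).map dK = 0 := by
  exact Matrix.ext fun i j => h _

include hmul in
theorem map_smul {m n : Type} (h : ∀ a : ℝ, dK (cst a) = 0) (hs : dK sK = sK)
    (A : Matrix m n ℝ) : (sK • A.map cst).map dK = sK • A.map cst := by
  refine Matrix.ext fun i j => ?_
  change dK (sK * cst (A i j)) = sK * cst (A i j)
  rw [hmul, hs, h, mul_zero, add_zero]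

end Calc

theorem cst_mul {l m n : Type} [Fintype m] (A : Matrix l m ℝ) (B : Matrix m n ℝ) :
    (A * B).map cst = A.map cst * B.map cst :=
  Matrix.map_mul (f := (HahnSeries.C : ℝ →+* K))

theorem smulMul {l m n : Type} [Fintype m] (A : Matrix l m K) (B : Matrix m n K) :
    (sK • A) * B = sK • (A * B) := by
  refine Matrix.ext fun i j => ?_
  change ∑ k, (sK * A i k) * B k j = sK * ∑ k, A i k * B k j
  rw [Finset.mul_sum]
  exact Finset.sum_congr rfl fun k _ => mul_assoc _ _ _

theorem mulSmul {l m n : Type} [Fintype m] (A : Matrix l m K) (B : Matrix m n K) :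
    A * (sK • B) = sK • (A * B) := by
  refine Matrix.ext fun i j => ?_
  change ∑ k, A i k * (sK * B k j) = sK * ∑ k, A i k * B k j
  rw [Finset.mul_sum]
  exact Finset.sum_congr rfl fun k _ => mul_left_comm _ _ _

theorem cst_natCast (n : ℕ) : ((n : ℕ) : K) = cst (n : ℝ) :=
  (map_natCast (HahnSeries.C : ℝ →+* K) n).symm

theorem cst_div (a b : ℝ) : cst a / cst b = cst (a / b) :=
  (map_div₀ (HahnSeries.C : ℝ →+* K) a b).symm

theorem mdeg {m n p : Type} [Fintype n] {R : Type} [CommRing R] {d1 : m → ℕ} {d2 : n → ℕ}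
    {d3 : p → ℕ} {a b : ℕ} {A : Matrix m n R} {B : Matrix n p R}
    (hA : ∀ i j, A i j ≠ 0 → d1 i = d2 j + a) (hB : ∀ i j, B i j ≠ 0 → d2 i = d3 j + b) :
    ∀ i j, (A * B) i j ≠ 0 → d1 i = d3 j + (a + b) := by
  intro i j h
  rw [Matrix.mul_apply] at h
  obtain ⟨k, -, hk⟩ := Finset.exists_ne_zero_of_sum_ne_zero h
  have h1 := hA i k (left_ne_zero_of_mul hk)
  have h2 := hB k j (right_ne_zero_of_mul hk)
  omega

end KREL

open KREL in
theorem KREL_thm (hALG1 : S_ALG1) (hALG2 : S_ALG2) (hSER : S_SER) (hORD : S_ORD) : S_KREL := by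
  intro N C hC T S S' ph hF
  obtain ⟨hadd, hmul, hcst, hs, -, -⟩ := hSER
  obtain ⟨-, -, hPmul, -, hNng, -, hPcst, -⟩ := hORD
  have hd0 : dK 0 = 0 := dK_zero hadd
  obtain ⟨O, hO⟩ : ∃ O, O = sK • C.Om.map cst := ⟨_, rfl⟩
  obtain ⟨E, hE⟩ : ∃ E, E = C.Et.map cst := ⟨_, rfl⟩
  obtain ⟨Qc, hQ⟩ : ∃ Qc, Qc = C.Q.map cst := ⟨_, rfl⟩
  have hOd : O.map dK = O := by
    rw [hO, KREL.map_smul hmul hcst hs]
  have hEd : E.map dK = 0 := by
    rw [hE, KREL.map_cst hcst]
  have hQd : Qc.map dK = 0 := by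
    rw [hQ, KREL.map_cst hcst]
  have hOE0 : O * E = E * O := by
    rw [hO, hE, smulMul, mulSmul, ← cst_mul, ← cst_mul, hC.cm]
  have hoQ : Oᵀ * Qc = Qc * O := by
    have h : C.Omᵀ.map cst * C.Q.map cst = C.Q.map cst * C.Om.map cst := by
      rw [← cst_mul, ← cst_mul, hC.oms]
    have h2 : (sK • C.Om.map cst)ᵀ = sK • C.Omᵀ.map cst := rfl
    rw [hO, hQ, h2, smulMul, mulSmul, h]
  have hOdeg : ∀ r s, O r s ≠ 0 → C.dg r = C.dg s + 1 := by
    intro r s h
    refine hC.omd r s fun h0 => h ?_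
    rw [hO]
    change sK * cst (C.Om r s) = 0
    rw [h0]
    have : cst 0 = 0 := _root_.map_zero (HahnSeries.C : ℝ →+* K)
    rw [this, mul_zero]
  have hk : (O + E) * S = S * T.k K := by
    rw [hO, hE]
    exact hF.kap
  have hgr : Sᵀ * Qc * S = T.gram ph := by
    rw [hQ]
    exact hF.gram
  obtain ⟨X, hX'⟩ : ∃ X, X = xK C T S S' := ⟨_, rfl⟩
  obtain ⟨Th, hTh'⟩ : ∃ Th, Th = thK C T S S' := ⟨_, rfl⟩
  have hX : X = S' * O * S := by rw [hX', hO]; rfl
  have hTh : Th = S' * S.map dK := by rw [hTh']; rfl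
  rw [← hX', ← hTh']
  clear hX' hTh' hO hE hQ
  -- constants
  have hkd : (T.k K).map dK = 0 := by
    refine Matrix.ext fun a b => ?_
    change dK (if a.1 = b.1 ∧ (a.2 : ℕ) = (b.2 : ℕ) + 1 then 1 else 0) = 0
    split_ifs
    · have h1 := hcst 1
      have h2 : cst 1 = 1 := _root_.map_one (HahnSeries.C : ℝ →+* K)
      rw [h2] at h1
      exact h1
    · exact hd0
  have h1d : ((1 : Matrix T.J T.J K)).map dK = 0 := by
    have h := KREL.map_mul hadd hmul (1 : Matrix T.J T.J K) (1 : Matrix T.J T.J K)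
    rw [Matrix.one_mul, Matrix.one_mul, Matrix.mul_one] at h
    exact left_eq_add.1 h
  -- the operator
  have hSk : S' * (O + E) = T.k K * S' := by
    have h1 : S' * (O + E) = S' * (O + E) * (S * S') := by
      rw [hF.inv1, Matrix.mul_one]
    have h2 : S' * (O + E) * (S * S') = S' * ((O + E) * S) * S' := by
      simp only [Matrix.mul_assoc]
    have h3 : S' * (S * T.k K) * S' = (S' * S) * (T.k K * S') := by
      simp only [Matrix.mul_assoc]
    rw [h1, h2, hk, h3, hF.inv2, Matrix.one_mul]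
  have hdS : S.map dK = S * Th := by
    rw [hTh, ← Matrix.mul_assoc, hF.inv1, Matrix.one_mul]
  have hThk : br Th (T.k K) = X := by
    have h : ((O + E) * S).map dK = (S * T.k K).map dK := by rw [hk]
    rw [KREL.map_mul hadd hmul, KREL.map_mul hadd hmul, KREL.map_add hadd, hOd, hEd, add_zero,
      hkd, Matrix.mul_zero, add_zero] at h
    have h2 : S' * (O * S + (O + E) * S.map dK) = S' * (S.map dK * T.k K) := by rw [h]
    rw [Matrix.mul_add, ← Matrix.mul_assoc, ← Matrix.mul_assoc, ← Matrix.mul_assoc, hSk,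
      Matrix.mul_assoc (T.k K), ← hTh, ← hX] at h2
    rw [br, ← h2]
    abel
  have hdS' : S'.map dK = - Th * S' := by
    have h : (S' * S).map dK = (1 : Matrix T.J T.J K).map dK := by rw [hF.inv2]
    rw [KREL.map_mul hadd hmul, h1d, ← hTh] at h
    have h2 : S'.map dK * S = - Th := eq_neg_of_add_eq_zero_left h
    rw [← h2, Matrix.mul_assoc, hF.inv1, Matrix.mul_one]
  have hdX : br Th X + X.map dK = X := by
    have h : X.map dK = - (Th * X) + X + X * Th := by
      have h1 : X.map dK = (S' * O * S).map dK := by rw [← hX]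
      rw [h1, KREL.map_mul hadd hmul, KREL.map_mul hadd hmul, hOd, hdS', hdS,
        Matrix.add_mul, hX]
      simp only [Matrix.mul_assoc, Matrix.neg_mul]
    rw [h, br]
    abel
  have hOE : O * (O + E) = (O + E) * O := by
    rw [Matrix.mul_add, Matrix.add_mul, hOE0]
  have hXk : br X (T.k K) = 0 := by
    have h1 : X * T.k K = S' * (O * (O + E)) * S := by
      rw [hX, Matrix.mul_assoc, ← hk]
      simp only [Matrix.mul_assoc]
    have h2 : T.k K * X = S' * ((O + E) * O) * S := by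
      rw [hX, ← Matrix.mul_assoc, ← Matrix.mul_assoc, ← hSk]
      simp only [Matrix.mul_assoc]
    rw [br, h1, h2, hOE, sub_self]
  -- degrees
  have hXdeg : MDeg T.dg 1 X := by
    have h := mdeg (mdeg (d1 := T.dg) (d2 := C.dg) (a := 0) (A := S')
      (fun b r h => (hF.deg' b r h).symm) hOdeg) (d3 := T.dg) (b := 0) (B := S)
      (fun r b h => hF.deg r b h)
    intro a b hab
    rw [hX] at hab
    have := h a b hab
    omega
  have hThdeg : MDeg T.dg 0 Th := by
    have h := mdeg (d1 := T.dg) (d2 := C.dg) (d3 := T.dg) (a := 0) (b := 0) (A := S')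
      (B := S.map dK) (fun b r h => (hF.deg' b r h).symm) (fun r b h => hF.deg r b fun h0 => h (by
        rw [Matrix.map_apply, h0, hd0]))
    intro a b hab
    rw [hTh] at hab
    have := h a b hab
    omega
  -- the form
  have hS1 : S'ᵀ * Sᵀ = 1 := by
    rw [← Matrix.transpose_mul, hF.inv1, Matrix.transpose_one]
  have hXg : Xᵀ * T.gram ph = T.gram ph * X := by
    rw [← hgr, hX, Matrix.transpose_mul, Matrix.transpose_mul]
    have e1 : Sᵀ * (Oᵀ * S'ᵀ) * (Sᵀ * Qc * S) = Sᵀ * (Oᵀ * ((S'ᵀ * Sᵀ) * Qc)) * S := by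
      simp only [Matrix.mul_assoc]
    have e2 : Sᵀ * Qc * S * (S' * O * S) = Sᵀ * (Qc * ((S * S') * O)) * S := by
      simp only [Matrix.mul_assoc]
    rw [e1, e2, hS1, hF.inv1, Matrix.one_mul, Matrix.one_mul, hoQ]
  have hgd : (T.gram ph).map dK = Thᵀ * T.gram ph + T.gram ph * Th := by
    rw [← hgr, KREL.map_mul hadd hmul, KREL.map_mul hadd hmul, hQd,
      Matrix.mul_zero, add_zero]
    have h3 : Sᵀ.map dK = Thᵀ * Sᵀ := by
      rw [← Matrix.transpose_mul, ← hdS]
      rfl
    rw [h3, hdS]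
    simp only [Matrix.mul_assoc]
  have hph : ∀ i, ph i ≠ 0 := by
    intro i h0
    have h1 := hF.pos i
    rw [h0, mul_zero] at h1
    unfold Psv at h1
    rw [HahnSeries.leadingCoeff_zero] at h1
    exact lt_irrefl 0 h1
  have hc0 : CharZero K :=
    charZero_of_injective_ringHom (f := (HahnSeries.C : ℝ →+* K)) HahnSeries.C_injective
  have h2 := hALG2 K dK hadd hmul N T ph X Th hph hXdeg hThdeg hXk hThk hXg hgd
  refine ⟨?_, hdX, hdS', hALG1 K N T ph X hph hXdeg hXk hXg, h2.1, h2.2⟩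
  intro a
  have e : T.gam ph a = (-1) ^ (T.j a.1) * ph a.1 * cst (((((a.2 : ℕ).factorial : ℕ) : ℝ)) /
      ((((T.m a.1 - (a.2 : ℕ)).factorial : ℕ) : ℝ))) := by
    rw [← cst_div, ← cst_natCast, ← cst_natCast, Str.gam, mul_div_assoc]
  rw [e]
  refine hPmul _ _ (hF.pos a.1) ((hPcst _).1.1 ?_)
  exact div_pos (by exact_mod_cast Nat.factorial_pos _) (by exact_mod_cast Nat.factorial_pos _)

end Pool.Agent.LFC
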