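import Pool.Agent.LFC.Stmts

set_option autoImplicit false
set_option linter.unusedSectionVars false

namespace Pool.Agent.LFC

namespace LBT

open Module

variable {F : Type} [Field F] {H : Type} [AddCommGroup H] [Module F H]
  {N : ℕ} {G : ℕ → Submodule F H} {Q : H →ₗ[F] H →ₗ[F] F} {ka : H →ₗ[F] H}

theorem shift (hd : Deg1 G ka) (n j : ℕ) {v : H} (hv : v ∈ G j) : (ka ^ n) v ∈ G (j + n) := by
  induction n with
  | zero => simpa using hv
  | succ n ih =>
    rw [pow_succ', Module.End.mul_apply]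
    exact hd _ _ ih

theorem kill (hg : Graded N G) (hd : Deg1 G ka) {n j : ℕ} (h : N < j + n) {v : H}
    (hv : v ∈ G j) : (ka ^ n) v = 0 := by
  have h1 := shift hd n j hv
  rw [hg.2 _ h] at h1
  exact (Submodule.mem_bot F).1 h1

theorem selfadj (hs : SelfAdj Q ka) (n : ℕ) (v w : H) :
    Q ((ka ^ n) v) w = Q v ((ka ^ n) w) := by
  induction n generalizing v w with
  | zero => simp
  | succ n ih =>
    rw [pow_succ', Module.End.mul_apply, hs, ih, ← Module.End.mul_apply, ← pow_succ,
      ← pow_succ']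

/-- primitive vectors -/
def P (N : ℕ) (G : ℕ → Submodule F H) (ka : H →ₗ[F] H) (j : ℕ) : Submodule F H :=
  G j ⊓ LinearMap.ker (ka ^ (N - 2 * j + 1))

theorem mem_P {j : ℕ} {v : H} : v ∈ P N G ka j ↔ v ∈ G j ∧ (ka ^ (N - 2 * j + 1)) v = 0 := by
  simp [P]

theorem P_zero (hg : Graded N G) (hd : Deg1 G ka) {x : H} (hx : x ∈ G 0) :
    x ∈ P N G ka 0 := by
  rw [mem_P]
  exact ⟨hx, kill hg hd (by omega) hx⟩

variable [FiniteDimensional F H]

theorem decomp (hLSU : S_LSU) (hg : Graded N G) (hp : Paired N G Q) (hd : Deg1 G ka)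
    (hs : SelfAdj Q ka) (hl : HL N G ka) {j : ℕ} (hj : 2 * (j + 1) ≤ N) {x : H}
    (hx : x ∈ G (j + 1)) : ∃ y ∈ G j, x - ka y ∈ P N G ka (j + 1) := by
  have h1 : (ka ^ (N - 2 * (j + 1) + 1)) x ∈ G (N - j) := by
    have := shift hd (N - 2 * (j + 1) + 1) (j + 1) hx
    have e : j + 1 + (N - 2 * (j + 1) + 1) = N - j := by omega
    rwa [e] at this
  obtain ⟨y, hy, hy2⟩ := hLSU F H N G Q ka hg hp hd hs hl j (by omega) _ h1
  refine ⟨y, hy, ?_⟩
  rw [mem_P]
  refine ⟨Submodule.sub_mem _ hx (hd _ _ hy), ?_⟩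
  rw [map_sub, ← hy2, ← Module.End.mul_apply, ← pow_succ]
  have e : N - 2 * (j + 1) + 1 + 1 = N - 2 * j := by omega
  rw [e, sub_self]

theorem nondeg (hLSU : S_LSU) (hg : Graded N G) (hp : Paired N G Q) (hd : Deg1 G ka)
    (hs : SelfAdj Q ka) (hl : HL N G ka) {j : ℕ} (hj : 2 * j ≤ N) {a : H}
    (ha : a ∈ P N G ka j) (h : ∀ b ∈ P N G ka j, Q a ((ka ^ (N - 2 * j)) b) = 0) : a = 0 := by
  rw [mem_P] at ha
  have h1 : ∀ x : H, Q ((ka ^ (N - 2 * j)) a) x = 0 := by
    intro x
    have hx : x ∈ ⨆ i, G i := by rw [hg.1.submodule_iSup_eq_top]; trivial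
    refine Submodule.iSup_induction G (motive := fun x => Q ((ka ^ (N - 2 * j)) a) x = 0) hx
      ?_ ?_ ?_
    · intro i x hx
      by_cases hij : i = j
      · subst hij
        rcases i with _ | i
        · rw [selfadj hs]
          exact h x (P_zero hg hd hx)
        · obtain ⟨y, hy, hxy⟩ := decomp hLSU hg hp hd hs hl hj hx
          have e : x = (x - ka y) + ka y := by abel
          rw [e, map_add, selfadj hs, h _ hxy, zero_add, ← hs, ← Module.End.mul_apply,
            ← pow_succ', ha.2]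
          simp
      · have h2 := shift hd (N - 2 * j) j ha.1
        exact hp.2.2 _ _ (by omega) _ h2 _ hx
    · simp
    · intro x y hx hy
      rw [map_add, hx, hy, add_zero]
  have h2 := hp.2.1 _ h1
  exact hl j hj a ha.1 h2

/-- the form on the primitive vectors -/
noncomputable def B (N : ℕ) (G : ℕ → Submodule F H) (Q : H →ₗ[F] H →ₗ[F] F)
    (ka : H →ₗ[F] H) (j : ℕ) : LinearMap.BilinForm F (P N G ka j) :=
  (Q.compl₂ (ka ^ (N - 2 * j))).domRestrict₁₂ (P N G ka j) (P N G ka j)

theorem B_apply {j : ℕ} (x y : P N G ka j) :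
    B N G Q ka j x y = Q (x : H) ((ka ^ (N - 2 * j)) (y : H)) := rfl

theorem B_symm (hp : Paired N G Q) (hs : SelfAdj Q ka) (j : ℕ) :
    LinearMap.IsSymm (B N G Q ka j) := by
  constructor
  intro x y
  rw [RingHom.id_apply, B_apply, B_apply, hp.1, selfadj hs]

theorem exists_basis [CharZero F] (hLSU : S_LSU) (hg : Graded N G) (hp : Paired N G Q)
    (hd : Deg1 G ka) (hs : SelfAdj Q ka) (hl : HL N G ka) {j : ℕ} (hj : 2 * j ≤ N) :
    ∃ v : Basis (Fin (finrank F (P N G ka j))) F (P N G ka j),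
      (∀ s t, s ≠ t → Q (v s : H) ((ka ^ (N - 2 * j)) (v t : H)) = 0) ∧
      ∀ s, Q (v s : H) ((ka ^ (N - 2 * j)) (v s : H)) ≠ 0 := by
  have : Invertible (2 : F) := invertibleOfNonzero two_ne_zero
  obtain ⟨v, hv⟩ := LinearMap.BilinForm.exists_orthogonal_basis
    (B_symm (N := N) (G := G) hp hs j)
  have h1 : ∀ s t, s ≠ t → Q (v s : H) ((ka ^ (N - 2 * j)) (v t : H)) = 0 := by
    intro s t hst
    exact hv hst
  refine ⟨v, h1, ?_⟩
  intro s hs0
  have h2 : B N G Q ka j (v s) = 0 := by
    refine v.ext (fun t => ?_)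
    rw [B_apply]
    by_cases hst : s = t
    · subst hst; simpa using hs0
    · simpa using h1 s t hst
  have h3 : (v s : H) = 0 := by
    refine nondeg hLSU hg hp hd hs hl hj (v s).2 (fun b hb => ?_)
    have := congrArg (fun f => f ⟨b, hb⟩) h2
    simpa [B_apply] using this
  exact v.ne_zero s (Subtype.ext h3)

end LBT

open Module LBT in
theorem LBT_thm (hLSU : S_LSU) : S_LBT := by
  intro F _ _ H _ _ _ N G Q ka hg hp hd hs hl
  have hj2 : ∀ j : Fin (N / 2 + 1), 2 * (j : ℕ) ≤ N := fun j => by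
    have := j.2
    omega
  choose v hv1 hv2 using fun j : Fin (N / 2 + 1) =>
    exists_basis hLSU hg hp hd hs hl (hj2 j)
  let T : Str N :=
    { I := Σ j : Fin (N / 2 + 1), Fin (finrank F (P N G ka j))
      fin := inferInstance
      dec := inferInstance
      j := fun i => (i.1 : ℕ)
      hj := fun i => hj2 i.1 }
  let a : T.I → H := fun i => ((v i.1 i.2 : P N G ka i.1) : H)
  have ha : ∀ i, a i ∈ G (T.j i) := fun i => (mem_P.1 (v i.1 i.2).2).1
  have hk : ∀ i, (ka ^ (T.m i + 1)) (a i) = 0 := fun i => (mem_P.1 (v i.1 i.2).2).2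
  have ho : ∀ i i', i ≠ i' → T.j i = T.j i' → Q (a i) ((ka ^ (T.m i')) (a i')) = 0 := by
    rintro ⟨j, s⟩ ⟨j', s'⟩ hne hjj
    have hjj' : j = j' := Fin.ext hjj
    subst hjj'
    exact hv1 j s s' (fun h => hne (by rw [h]))
  have hph : ∀ i, Q (a i) ((ka ^ (T.m i)) (a i)) ≠ 0 := fun i => hv2 i.1 i.2
  have hkill : ∀ i n, T.m i < n → (ka ^ n) (a i) = 0 := by
    intro i n hn
    obtain ⟨k, rfl⟩ := Nat.exists_eq_add_of_lt hn
    have e : T.m i + k + 1 = k + (T.m i + 1) := by ring
    rw [e, pow_add, Module.End.mul_apply, hk, map_zero]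
  have hm : ∀ i, T.m i = N - 2 * T.j i := fun i => rfl
  refine ⟨T, a, ha, hk, ho, ?_, ?_⟩
  · -- linear independence
    have hpair : ∀ (i i' : T.I) (s s' : ℕ), ¬ (i = i' ∧ s + s' = T.m i) →
        Q ((ka ^ s) (a i)) ((ka ^ s') (a i')) = 0 := by
      intro i i' s s' hne
      rw [selfadj hs, ← Module.End.mul_apply, ← pow_add]
      by_cases hdeg : T.j i + (T.j i' + (s + s')) = N
      · have h2 := T.hj i
        have h3 := T.hj i'
        rcases lt_trichotomy (T.j i) (T.j i') with h | h | h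
        · rw [hkill i' (s + s') (by rw [hm]; omega), map_zero]
        · have h4 : s + s' = T.m i' := by rw [hm]; omega
          rw [h4]
          refine ho i i' (fun hii => hne ⟨hii, ?_⟩) h
          rw [h4, hm, hm, h]
        · rw [← selfadj hs, hkill i (s + s') (by rw [hm]; omega)]
          simp
      · have h1 := shift hd (s + s') (T.j i') (ha i')
        exact hp.2.2 _ _ hdeg _ (ha i) _ h1
    rw [Fintype.linearIndependent_iff]
    rintro g hsum ⟨i, s⟩
    have hs' : T.m i - (s : ℕ) < T.m i + 1 := by omega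
    have h1 := congrArg (fun x => Q x ((ka ^ (T.m i - (s : ℕ))) (a i))) hsum
    simp only [map_sum, map_smul, LinearMap.sum_apply, LinearMap.smul_apply, map_zero,
      LinearMap.zero_apply] at h1
    rw [Finset.sum_eq_single (⟨i, s⟩ : T.J)] at h1
    · have h2 : Q ((ka ^ (s : ℕ)) (a i)) ((ka ^ (T.m i - (s : ℕ))) (a i)) ≠ 0 := by
        rw [selfadj hs, ← Module.End.mul_apply, ← pow_add]
        have hs2 : (s : ℕ) ≤ T.m i := by have := s.2; rw [hm]; omega
        have e : (s : ℕ) + (T.m i - (s : ℕ)) = T.m i := by omega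
        rw [e]
        exact hph i
      simpa [h2] using h1
    · rintro ⟨i', s''⟩ _ hne
      rw [hpair i' i s'' (T.m i - (s : ℕ)), smul_zero]
      rintro ⟨rfl, h3⟩
      apply hne
      have hs2 : (s : ℕ) ≤ T.m i' := by have := s.2; rw [hm]; omega
      have : (s'' : ℕ) = (s : ℕ) := by omega
      exact Sigma.ext rfl (heq_of_eq (Fin.ext this))
    · intro h; exact absurd (Finset.mem_univ _) h
  · -- spanning
    set S := Submodule.span F (Set.range (fun b : T.J => (ka ^ (b.2 : ℕ)) (a b.1))) with hS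
    have hst : ∀ x ∈ S, ka x ∈ S := by
      intro x hx
      refine Submodule.span_induction ?_ ?_ ?_ ?_ hx
      · rintro _ ⟨⟨i, s⟩, rfl⟩
        simp only
        rw [← Module.End.mul_apply, ← pow_succ']
        by_cases h : (s : ℕ) + 1 < N - 2 * T.j i + 1
        · exact Submodule.subset_span ⟨⟨i, ⟨(s : ℕ) + 1, h⟩⟩, rfl⟩
        · rw [hkill i ((s : ℕ) + 1) (by rw [hm]; omega)]
          exact Submodule.zero_mem _
      · rw [map_zero]; exact Submodule.zero_mem _
      · intro x y _ _ hx hy; rw [map_add]; exact Submodule.add_mem _ hx hy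
      · intro c x _ hx; rw [map_smul]; exact Submodule.smul_mem _ _ hx
    have hstn : ∀ n, ∀ x ∈ S, (ka ^ n) x ∈ S := by
      intro n
      induction n with
      | zero => intro x hx; simpa using hx
      | succ n ih =>
        intro x hx
        rw [pow_succ', Module.End.mul_apply]
        exact hst _ (ih x hx)
    have hP : ∀ j : Fin (N / 2 + 1), P N G ka j ≤ S := by
      intro j x hx
      have h1 : (⟨x, hx⟩ : P N G ka j) ∈ Submodule.span F (Set.range (v j)) := by
        rw [(v j).span_eq]; trivial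
      have h2 : ∀ y ∈ Submodule.span F (Set.range (v j)), ((y : P N G ka j) : H) ∈ S := by
        intro y hy
        refine Submodule.span_induction ?_ ?_ ?_ ?_ hy
        · rintro _ ⟨s, rfl⟩
          exact Submodule.subset_span ⟨(⟨⟨j, s⟩, ⟨0, Nat.succ_pos _⟩⟩ : T.J), by simp [a]⟩
        · exact Submodule.zero_mem _
        · intro x y _ _ hx hy; exact Submodule.add_mem _ hx hy
        · intro c x _ hx; exact Submodule.smul_mem _ _ hx
      exact h2 _ h1
    have hlow : ∀ j, 2 * j ≤ N → G j ≤ S := by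
      intro j
      induction j with
      | zero =>
        intro _ x hx
        exact hP ⟨0, by omega⟩ (P_zero hg hd hx)
      | succ j ih =>
        intro hj x hx
        obtain ⟨y, hy, hxy⟩ := decomp hLSU hg hp hd hs hl hj hx
        have e : x = (x - ka y) + ka y := by abel
        rw [e]
        exact Submodule.add_mem _ (hP ⟨j + 1, by omega⟩ hxy) (hst _ (ih (by omega) hy))
    have hall : ∀ j, G j ≤ S := by
      intro j
      by_cases h1 : 2 * j ≤ N
      · exact hlow j h1
      · by_cases h2 : j ≤ N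
        · intro y hy
          have e1 : N - (N - j) = j := by omega
          obtain ⟨x, hx, hxy⟩ := hLSU F H N G Q ka hg hp hd hs hl (N - j) (by omega) y
            (by rwa [e1])
          rw [← hxy]
          exact hstn _ _ (hlow (N - j) (by omega) hx)
        · rw [hg.2 j (by omega)]
          exact bot_le
    rw [eq_top_iff, ← hg.1.submodule_iSup_eq_top]
    exact iSup_le hall

end Pool.Agent.LFC
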