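import Pool.Agent.LFC.Stmts

/-!
LEAD: leading term arguments for Laurent series (PAPER.md, LEAD).
-/

set_option autoImplicit false

namespace Pool.Agent.LFC

namespace LEAD

theorem coeff_dK (f : K) (n : ℤ) : (dK f).coeff n = -(n : ℝ) * f.coeff n := rfl

theorem coeff_ddK (f : K) (n : ℤ) :
    (dK (dK f) - dK f).coeff n = ((n : ℝ) ^ 2 + n) * f.coeff n := by
  rw [HahnSeries.coeff_sub, coeff_dK, coeff_dK]
  ring

theorem pol_dK {m : ℤ} {f : K} (h : Pol m f) : Pol m (dK f) := by
  intro n hn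
  rw [coeff_dK, h n hn, mul_zero]

theorem pol_ddK {m : ℤ} {f : K} (h : Pol m f) : Pol m (dK (dK f) - dK f) := by
  intro n hn
  rw [coeff_ddK, h n hn, mul_zero]

theorem pol_mono {m m' : ℤ} {f : K} (hm : m ≤ m') (h : Pol m f) : Pol m' f := by
  intro n hn
  exact h n (by omega)

/-- The order of a Laurent series which has a pole of order larger than `m`. -/
theorem exists_low {m : ℤ} {f : K} (h : ¬ Pol m f) :
    ∃ n : ℤ, n < -m ∧ f.coeff n ≠ 0 ∧ Pol (-n) f := by
  unfold Pol at h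
  push Not at h
  obtain ⟨k, hk, hk0⟩ := h
  have hle : f.order ≤ k := HahnSeries.order_le_of_coeff_ne_zero hk0
  have hf : f ≠ 0 := by
    intro h0
    rw [h0] at hk0
    exact hk0 rfl
  refine ⟨f.order, by omega, ?_, ?_⟩
  · rw [← HahnSeries.leadingCoeff_eq]
    exact HahnSeries.leadingCoeff_ne_zero.2 hf
  · intro i hi
    exact HahnSeries.coeff_eq_zero_of_lt_order (by omega)

/-- The leading coefficient of the expression in the leading term arguments. -/
theorem key (hSER : S_SER) {phi rho : K} {n : ℤ} (hphi : Pol (-n) phi) (hrho : Pol (-n) rho)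
    (hr : rho.coeff n = 0) :
    Pol (-n + -n) ((dK (dK phi) - dK phi + rho) * phi - dK phi * dK phi) ∧
    ((dK (dK phi) - dK phi + rho) * phi - dK phi * dK phi).coeff (-(-n + -n)) =
      n * phi.coeff n ^ 2 := by
  have hmul := hSER.2.2.2.2.2
  have h1 : Pol (-n) (dK (dK phi) - dK phi + rho) := by
    intro i hi
    rw [HahnSeries.coeff_add, pol_ddK hphi i hi, hrho i hi, add_zero]
  have h2 := hmul (-n) (-n) _ _ h1 hphi
  have h3 := hmul (-n) (-n) _ _ (pol_dK hphi) (pol_dK hphi)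
  constructor
  · intro i hi
    rw [HahnSeries.coeff_sub, h2.1 i hi, h3.1 i hi, sub_zero]
  · rw [HahnSeries.coeff_sub, h2.2, h3.2, neg_neg, HahnSeries.coeff_add, coeff_ddK, coeff_dK, hr]
    ring

theorem contra (hSER : S_SER) (hORD : S_ORD) {phi rho : K} {n : ℤ} (hphi : Pol (-n) phi)
    (hrho : Pol (-n) rho) (hr : rho.coeff n = 0) (hn : n < 0) (hc : phi.coeff n ≠ 0)
    (h : Nng ((dK (dK phi) - dK phi + rho) * phi - dK phi * dK phi)) : False := by
  obtain ⟨k1, k2⟩ := key hSER hphi hrho hr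
  have h1 := hORD.2.2.2.2.2.2.2.2.1 _ _ h k1
  rw [k2] at h1
  have h2 : (0 : ℝ) < phi.coeff n ^ 2 := by positivity
  have h3 : (n : ℝ) < 0 := by exact_mod_cast hn
  nlinarith

end LEAD

/-- LEAD: the two leading term arguments. -/
theorem LEAD_thm (hSER : S_SER) (hORD : S_ORD) : S_LEAD := by
  refine ⟨fun phi _ h => ?_, fun phi psi _ hpsi h => ?_, fun phi hphi n hn => ?_⟩
  · by_contra hc
    obtain ⟨n, hn, h1, h2⟩ := LEAD.exists_low hc
    refine LEAD.contra hSER hORD (rho := 0) h2 (fun i _ => rfl) rfl (by omega) h1 ?_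
    rwa [add_zero]
  · by_contra hc
    obtain ⟨n, hn, h1, h2⟩ := LEAD.exists_low hc
    have hs : Pol 1 sK := by
      intro i hi
      exact HahnSeries.coeff_single_of_ne (by omega)
    have hmul := hSER.2.2.2.2.2
    have h3 : Pol (1 + 1 + 0) (sK * sK * psi) := (hmul _ _ _ _ (hmul 1 1 _ _ hs hs).1 hpsi).1
    refine LEAD.contra hSER hORD h2 (LEAD.pol_mono (by omega) h3) (h3 n (by omega)) (by omega)
      h1 h
  · rw [LEAD.coeff_ddK]
    rcases lt_or_eq_of_le (show n ≤ 0 by omega) with h0 | h0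
    · rw [hphi n (by omega), mul_zero]
    · rw [h0]
      simp

end Pool.Agent.LFC
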