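import Pool.Agent.LFC.Stmts

/-!
LEMA: growth of the Hodge norm of constant vectors (PAPER.md, LEMA).
-/

set_option autoImplicit false

namespace Pool.Agent.LFC

open Matrix

namespace LEMA

theorem cst_sum {i : Type} [Fintype i] (f : i → ℝ) : cst (∑ r, f r) = ∑ r, cst (f r) :=
  map_sum (HahnSeries.C : ℝ →+* K) f Finset.univ

theorem cst_mul (a b : ℝ) : cst (a * b) = cst a * cst b :=
  map_mul (HahnSeries.C : ℝ →+* K) a b

theorem cst_mulVec {i : Type} [Fintype i] (M : Matrix i i ℝ) (v : i → ℝ) :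
    (M.map cst) *ᵥ (fun r => cst (v r)) = fun r => cst ((M *ᵥ v) r) := by
  funext r
  simp only [Matrix.mulVec, dotProduct, Matrix.map_apply]
  rw [cst_sum]
  exact Finset.sum_congr rfl fun s _ => (cst_mul _ _).symm

theorem x_crd {N : ℕ} {C : CD} {T : Str N} {S : Matrix C.i T.J K} {S' : Matrix T.J C.i K}
    {ph : T.I → K} (hF : Frame N C T S S' ph) (v : C.i → ℝ) :
    xK C T S S' *ᵥ crd C T S' v = sK • crd C T S' (C.Om *ᵥ v) := by
  unfold xK crd
  rw [← Matrix.mulVec_mulVec, Matrix.mulVec_mulVec _ S S', hF.inv1, Matrix.one_mulVec,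
    ← Matrix.mulVec_mulVec, Matrix.smul_mulVec, cst_mulVec, Matrix.mulVec_smul]

theorem hf_smul {J : Type} [Fintype J] (ga : J → K) (a : K) (v : J → K) :
    hf ga (a • v) (a • v) = a * a * hf ga v v := by
  unfold hf
  rw [Finset.mul_sum]
  refine Finset.sum_congr rfl fun b _ => ?_
  rw [Pi.smul_apply, smul_eq_mul]
  ring

theorem crd_zero {N : ℕ} (C : CD) (T : Str N) (S' : Matrix T.J C.i K) :
    crd C T S' (0 : C.i → ℝ) = 0 := by
  unfold crd
  have h : (fun r => cst ((0 : C.i → ℝ) r)) = (0 : C.i → K) := by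
    funext r
    exact map_zero (HahnSeries.C : ℝ →+* K)
  rw [h, Matrix.mulVec_zero]

theorem hf_zero {J : Type} [Fintype J] (ga : J → K) : hf ga (0 : J → K) 0 = 0 := by
  unfold hf
  exact Finset.sum_eq_zero fun b _ => by rw [Pi.zero_apply, mul_zero]

end LEMA

open LEMA in
theorem LEMA_thm (hORD : S_ORD) (hLEAD : S_LEAD) (hKREL : S_KREL)
    (hDPHI : S_DPHI) : S_LEMA := by
  intro N C hC T S S' ph hF
  obtain ⟨hgam, -⟩ := hKREL N C hC T S S' ph hF
  obtain ⟨hadd, -, -, -, -, -, -, -, -, -, hcs⟩ := hORD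
  have h1 : ∀ v : C.i → ℝ, C.Om *ᵥ v = 0 → Pol 0 (nK C T S' ph v) := by
    intro v hv
    obtain ⟨hd1, hd2⟩ := hDPHI N C hC T S S' ph hF v
    rw [x_crd hF v, hv, crd_zero, smul_zero, hf_zero, sub_zero] at hd2
    have hw : nK C T S' ph v = hf (T.gam ph) (crd C T S' v) (crd C T S' v) := rfl
    set w := crd C T S' v with hwd
    set e := br (xK C T S S') (T.l K) *ᵥ w with he
    set x := adj (T.gam ph) (xK C T S S') *ᵥ w with hx
    refine hLEAD.1 _ ?_ ?_
    · rw [hw]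
      exact (hcs T.J (T.gam ph) w w hgam).1
    · rw [hd2, hd1, hw]
      have e1 : (hf (T.gam ph) e e + hf (T.gam ph) x x) * hf (T.gam ph) w w -
          -hf (T.gam ph) e w * -hf (T.gam ph) e w =
          (hf (T.gam ph) e e * hf (T.gam ph) w w - hf (T.gam ph) e w * hf (T.gam ph) e w) +
            hf (T.gam ph) x x * hf (T.gam ph) w w := by ring
      rw [e1]
      exact (hadd _ _ (hcs T.J (T.gam ph) e w hgam).2.2
        (hadd _ _ (hcs T.J (T.gam ph) x x hgam).1 (hcs T.J (T.gam ph) w w hgam).1).2).1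
  intro v
  refine ⟨h1 v, fun hv => ?_⟩
  obtain ⟨hd1, hd2⟩ := hDPHI N C hC T S S' ph hF v
  rw [x_crd hF v, hf_smul] at hd2
  have hw : nK C T S' ph v = hf (T.gam ph) (crd C T S' v) (crd C T S' v) := rfl
  have hpsi : nK C T S' ph (C.Om *ᵥ v) =
    hf (T.gam ph) (crd C T S' (C.Om *ᵥ v)) (crd C T S' (C.Om *ᵥ v)) := rfl
  set w := crd C T S' v with hwd
  set e := br (xK C T S S') (T.l K) *ᵥ w with he
  set x := adj (T.gam ph) (xK C T S S') *ᵥ w with hx
  refine hLEAD.2.1 _ (nK C T S' ph (C.Om *ᵥ v)) ?_ (h1 _ hv) ?_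
  · rw [hw]
    exact (hcs T.J (T.gam ph) w w hgam).1
  · rw [hd2, hd1, hpsi, hw, sub_add_cancel]
    have e1 : (hf (T.gam ph) e e + hf (T.gam ph) x x) * hf (T.gam ph) w w -
        -hf (T.gam ph) e w * -hf (T.gam ph) e w =
        (hf (T.gam ph) e e * hf (T.gam ph) w w - hf (T.gam ph) e w * hf (T.gam ph) e w) +
          hf (T.gam ph) x x * hf (T.gam ph) w w := by ring
    rw [e1]
    exact (hadd _ _ (hcs T.J (T.gam ph) e w hgam).2.2
      (hadd _ _ (hcs T.J (T.gam ph) x x hgam).1 (hcs T.J (T.gam ph) w w hgam).1).2).1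

end Pool.Agent.LFC
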