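import Pool.Agent.LFC.Stmts

set_option autoImplicit false

namespace Pool.Agent.LFC

namespace LSU

variable {F : Type} [Field F] {H : Type} [AddCommGroup H] [Module F H]

lemma pow_mem {G : ℕ → Submodule F H} {T : H →ₗ[F] H} (h : Deg1 G T) (n j : ℕ) (v : H)
    (hv : v ∈ G j) : (T ^ n) v ∈ G (j + n) := by
  induction n with
  | zero => simpa using hv
  | succ n ih =>
    rw [pow_succ', Module.End.mul_apply]
    exact h (j + n) _ ih

lemma pow_adj {Q : H →ₗ[F] H →ₗ[F] F} {T : H →ₗ[F] H} (h : SelfAdj Q T) (n : ℕ) (v w : H) :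
    Q ((T ^ n) v) w = Q v ((T ^ n) w) := by
  induction n generalizing v w with
  | zero => simp
  | succ n ih =>
    rw [pow_succ, Module.End.mul_apply, ih, h, ← Module.End.mul_apply, ← pow_succ', ← pow_succ]

lemma comp {N : ℕ} {G : ℕ → Submodule F H} {Q : H →ₗ[F] H →ₗ[F] F} (hG : Graded N G)
    (hP : Paired N G Q) (j : ℕ) (hj : 2 * j ≤ N) (v : H) :
    ∃ v' ∈ G j, ∀ z ∈ G (N - j), Q v z = Q v' z := by
  have hv : v ∈ ⨆ i, G i := by rw [hG.1.submodule_iSup_eq_top]; trivial
  refine Submodule.iSup_induction G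
    (motive := fun v => ∃ v' ∈ G j, ∀ z ∈ G (N - j), Q v z = Q v' z) hv ?_ ?_ ?_
  · intro i x hx
    by_cases hij : i = j
    · subst hij
      exact ⟨x, hx, fun z _ => rfl⟩
    · refine ⟨0, Submodule.zero_mem _, fun z hz => ?_⟩
      rw [hP.2.2 i (N - j) (by omega) x hx z hz]
      simp
  · exact ⟨0, Submodule.zero_mem _, fun z _ => rfl⟩
  · rintro x y ⟨x', hx', hx⟩ ⟨y', hy', hy⟩
    refine ⟨x' + y', Submodule.add_mem _ hx' hy', fun z hz => ?_⟩
    rw [map_add, map_add, LinearMap.add_apply, LinearMap.add_apply, hx z hz, hy z hz]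

end LSU

theorem LSU_thm : S_LSU := by
  intro F _ H _ _ _ N G Q ka hG hP hD hS hHL j hj y hy
  by_contra hcon
  have hyU : y ∉ (G j).map (ka ^ (N - 2 * j)) := by
    rintro ⟨x, hx, hxy⟩
    exact hcon ⟨x, hx, hxy⟩
  obtain ⟨f, hfy, hfU⟩ := Submodule.exists_le_ker_of_notMem hyU
  have hinj : Function.Injective Q := by
    rw [injective_iff_map_eq_zero]
    intro v hv
    exact hP.2.1 v (fun w => by rw [hv]; rfl)
  have hsurj : Function.Surjective Q := by
    have h := LinearMap.injective_iff_surjective_of_finrank_eq_finrank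
      (f := (Q : H →ₗ[F] Module.Dual F H)) (Subspace.dual_finrank_eq).symm
    exact h.1 hinj
  obtain ⟨v, hv⟩ := hsurj f
  obtain ⟨v', hv', hvv⟩ := LSU.comp hG hP j hj v
  have h0 : (ka ^ (N - 2 * j)) v' = 0 := by
    apply hP.2.1
    intro w
    have hw : w ∈ ⨆ i, G i := by rw [hG.1.submodule_iSup_eq_top]; trivial
    refine Submodule.iSup_induction G
      (motive := fun w => Q ((ka ^ (N - 2 * j)) v') w = 0) hw ?_ ?_ ?_
    · intro i x hx
      by_cases hij : i = j
      · subst hij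
        rw [LSU.pow_adj hS]
        have hm : (ka ^ (N - 2 * i)) x ∈ G (N - i) := by
          have := LSU.pow_mem hD (N - 2 * i) i x hx
          rwa [show i + (N - 2 * i) = N - i by omega] at this
        rw [← hvv _ hm, hv]
        have : (ka ^ (N - 2 * i)) x ∈ (G i).map (ka ^ (N - 2 * i)) := ⟨x, hx, rfl⟩
        exact LinearMap.mem_ker.1 (hfU this)
      · have hm := LSU.pow_mem hD (N - 2 * j) j v' hv'
        exact hP.2.2 _ i (by omega) _ hm x hx
    · simp
    · intro a b ha hb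
      rw [map_add, ha, hb, add_zero]
  have h1 : v' = 0 := hHL j hj v' hv' h0
  apply hfy
  rw [← hv, hvv y hy, h1]
  simp

end Pool.Agent.LFC
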