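import Pool.Agent.LFC.Stmts

set_option autoImplicit false

namespace Pool.Agent.LFC

namespace ORD

/-- The identification with the ordered field. -/
noncomputable def tl : K →+* Lex K where
  toFun := toLex
  map_one' := rfl
  map_zero' := rfl
  map_add' _ _ := rfl
  map_mul' _ _ := rfl

theorem nng_iff (f : K) : Nng f ↔ 0 ≤ tl f :=
  HahnSeries.leadingCoeff_nonneg_iff (x := toLex f)

theorem psv_iff (f : K) : Psv f ↔ 0 < tl f :=
  HahnSeries.leadingCoeff_pos_iff (x := toLex f)

theorem tl_inj {f : K} (h : tl f = 0) : f = 0 := h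

theorem lead {f : K} {n : ℤ} (h : ∀ k < n, f.coeff k = 0) (hn : f.coeff n ≠ 0) :
    f.leadingCoeff = f.coeff n := by
  have h0 : f ≠ 0 := by
    rintro rfl
    exact hn (HahnSeries.coeff_zero)
  have h1 : f.order ≤ n := HahnSeries.order_le_of_coeff_ne_zero hn
  have h2 : n ≤ f.order := by
    by_contra hc
    have h3 := h f.order (by omega)
    exact HahnSeries.coeff_order_eq_zero.not.2 h0 h3
  have h3 : f.order = n := le_antisymm h1 h2
  rw [← h3, HahnSeries.leadingCoeff_eq]

theorem part8 (m : ℤ) (f g : K) (hf : Nng f) (hg : Nng (g - f)) (hm : Pol m g) : Pol m f := by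
  intro n hn
  by_contra hne
  have h0 : f ≠ 0 := by
    rintro rfl
    exact hne (HahnSeries.coeff_zero)
  have h1 : f.order ≤ n := HahnSeries.order_le_of_coeff_ne_zero hne
  have h2 : f.coeff f.order ≠ 0 := HahnSeries.coeff_order_eq_zero.not.2 h0
  have h3 : ∀ k < f.order, f.coeff k = 0 := fun k hk => HahnSeries.coeff_eq_zero_of_lt_order hk
  have h4 : f.leadingCoeff = f.coeff f.order := lead h3 h2
  have h5 : (g - f).coeff f.order = - f.coeff f.order := by
    rw [HahnSeries.coeff_sub, hm _ (by omega), zero_sub]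
  have h6 : (g - f).leadingCoeff = (g - f).coeff f.order := by
    apply lead
    · intro k hk
      rw [HahnSeries.coeff_sub, hm _ (by omega), h3 k hk, sub_zero]
    · rw [h5]
      exact neg_ne_zero.2 h2
  have h7 : 0 ≤ f.leadingCoeff := hf
  have h8 : 0 ≤ (g - f).leadingCoeff := hg
  rw [h4] at h7
  rw [h6, h5] at h8
  exact h2 (by linarith)

theorem part9 (m : ℤ) (f : K) (hf : Nng f) (hm : Pol m f) : 0 ≤ f.coeff (-m) := by
  by_cases h0 : f.coeff (-m) = 0
  · rw [h0]
  · rw [← lead hm h0]
    exact hf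

theorem part10 (m : ℤ) (f : K) (hm : Pol (2 * m) (f * f)) : Pol m f := by
  intro n hn
  by_contra hne
  have h0 : f ≠ 0 := by
    rintro rfl
    exact hne (HahnSeries.coeff_zero)
  have h1 : f.order ≤ n := HahnSeries.order_le_of_coeff_ne_zero hne
  have h2 : f.coeff f.order ≠ 0 := HahnSeries.coeff_order_eq_zero.not.2 h0
  have h3 := hm (f.order + f.order) (by omega)
  rw [HahnSeries.coeff_mul_order_add_order, HahnSeries.leadingCoeff_eq] at h3
  exact h2 (mul_self_eq_zero.1 h3)

theorem part11 (J : Type) [Fintype J] (ga v w : J → K) (h : ∀ a, Psv (ga a)) :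
    Nng (hf ga v v) ∧ (hf ga v v = 0 → v = 0) ∧
    Nng (hf ga v v * hf ga w w - hf ga v w * hf ga v w) := by
  have h1 : ∀ v w : J → K, tl (hf ga v w) = ∑ a, tl (ga a) * tl (v a) * tl (w a) := by
    intro v w
    rw [hf, map_sum]
    exact Finset.sum_congr rfl fun a _ => by rw [map_mul, map_mul]
  have h2 : ∀ a, 0 < tl (ga a) := fun a => (psv_iff _).1 (h a)
  have h3 : ∀ (v : J → K) (a : J), 0 ≤ tl (ga a) * tl (v a) * tl (v a) := by
    intro v a
    rw [mul_assoc]
    exact mul_nonneg (h2 a).le (mul_self_nonneg _)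
  refine ⟨?_, ?_, ?_⟩
  · rw [nng_iff, h1]
    exact Finset.sum_nonneg fun a _ => h3 v a
  · intro h0
    have h4 := congrArg tl h0
    rw [h1, map_zero, Finset.sum_eq_zero_iff_of_nonneg fun a _ => h3 v a] at h4
    funext a
    have h5 := h4 a (Finset.mem_univ a)
    rw [mul_assoc] at h5
    rcases mul_eq_zero.1 h5 with h6 | h6
    · exact absurd h6 (h2 a).ne'
    · exact tl_inj (mul_self_eq_zero.1 h6)
  · rw [nng_iff, map_sub, map_mul, map_mul, h1, h1, h1, sub_nonneg, ← pow_two]
    apply Finset.sum_sq_le_sum_mul_sum_of_sq_le_mul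
    · exact fun a _ => h3 v a
    · exact fun a _ => h3 w a
    · intro a _
      exact le_of_eq (by ring)

end ORD

open ORD in
theorem ORD_thm : S_ORD := by
  refine ⟨?_, ?_, ?_, ?_, ?_, ?_, ?_, part8, part9, part10, fun J _ ga v w h =>
    part11 J ga v w h⟩
  · intro f g hf hg
    rw [nng_iff] at hf hg
    rw [nng_iff, nng_iff, map_add, map_mul]
    exact ⟨add_nonneg hf hg, mul_nonneg hf hg⟩
  · intro f g hf hg
    rw [psv_iff] at hf ⊢
    rw [nng_iff] at hg
    rw [map_add]
    exact add_pos_of_pos_of_nonneg hf hg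
  · intro f g hf hg
    rw [psv_iff] at hf hg ⊢
    rw [map_mul]
    exact mul_pos hf hg
  · intro f
    rw [nng_iff, map_mul]
    exact mul_self_nonneg _
  · intro f
    rw [nng_iff, psv_iff, le_iff_eq_or_lt]
    constructor
    · rintro (h | h)
      · exact Or.inl (tl_inj h.symm)
      · exact Or.inr h
    · rintro (rfl | h)
      · exact Or.inl (map_zero tl).symm
      · exact Or.inr h
  · intro f hf hf'
    rw [nng_iff] at hf hf'
    rw [map_neg] at hf'
    exact tl_inj (le_antisymm (neg_nonneg.1 hf') hf)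
  · intro a
    have h1 : (cst a).leadingCoeff = a := by
      rw [cst, HahnSeries.C_apply, HahnSeries.leadingCoeff_of_single]
    rw [Psv, Nng, h1]
    exact ⟨Iff.rfl, Iff.rfl⟩

end Pool.Agent.LFC
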