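import Pool.Agent.LFC.Stmts

/-!
PHL: the coordinate space over the rational functions is graded, paired, hard Lefschetz.
-/

set_option autoImplicit false

namespace Pool.Agent.LFC

open Matrix

namespace PHL

section General

variable {F : Type} [Field F] (C : CD)

theorem mem_cG {j : ℕ} {v : C.i → F} : v ∈ cG F C j ↔ ∀ r, v r ≠ 0 → C.dg r = j := Iff.rfl

/-- vectors without component of degree `i` -/
def off (F : Type) [Field F] (C : CD) (i : ℕ) : Submodule F (C.i → F) where
  carrier := {v | ∀ r, v r ≠ 0 → C.dg r ≠ i}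
  add_mem' := by
    intro a b ha hb r hr
    by_cases h : a r = 0
    · exact hb r (fun h' => hr (by rw [Pi.add_apply, h, h', add_zero]))
    · exact ha r h
  zero_mem' := fun r hr => absurd rfl hr
  smul_mem' := by
    intro c a ha r hr
    exact ha r (fun h' => hr (by rw [Pi.smul_apply, h', smul_zero]))

theorem graded {N : ℕ} (hle : ∀ r, C.dg r ≤ N) : Graded N (cG F C) := by
  classical
  refine ⟨?_, ?_⟩
  · rw [DirectSum.isInternal_submodule_iff_iSupIndep_and_iSup_eq_top]
    refine ⟨?_, ?_⟩
    · intro i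
      rw [Submodule.disjoint_def]
      intro v hv hv'
      have h1 : (⨆ j, ⨆ (_ : j ≠ i), cG F C j) ≤ off F C i := by
        refine iSup_le fun j => iSup_le fun hj => ?_
        intro w hw r hr
        rw [hw r hr]
        exact hj
      have h2 := h1 hv'
      funext r
      by_contra hr
      exact h2 r hr (hv r hr)
    · rw [eq_top_iff]
      intro v _
      have h : v = ∑ r, Pi.single r (v r) := by
        funext s
        rw [Finset.sum_apply]
        simp [Pi.single_apply]
      rw [h]
      refine Submodule.sum_mem _ fun r _ => ?_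
      refine Submodule.mem_iSup_of_mem (C.dg r) ?_
      intro s hs
      by_cases hsr : s = r
      · rw [hsr]
      · exact absurd (Pi.single_eq_of_ne hsr _) hs
  · intro j hj
    rw [eq_bot_iff]
    intro v hv
    rw [Submodule.mem_bot]
    funext r
    by_contra hr
    have h1 := hv r hr
    have h2 := hle r
    omega

theorem cQ_apply (M : Matrix C.i C.i F) (v w : C.i → F) : cQ F C M v w = v ⬝ᵥ (M *ᵥ w) := rfl

theorem paired {N : ℕ} {M : Matrix C.i C.i F} (hs : Mᵀ = M)
    (hi : ∃ M' : Matrix C.i C.i F, M * M' = 1) (hd : ∀ r s, M r s ≠ 0 → C.dg r + C.dg s = N) :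
    Paired N (cG F C) (cQ F C M) := by
  refine ⟨?_, ?_, ?_⟩
  · intro v w
    rw [cQ_apply, cQ_apply, Matrix.dotProduct_mulVec, ← Matrix.mulVec_transpose, hs,
      dotProduct_comm]
  · intro v hv
    obtain ⟨M', hM'⟩ := hi
    refine dotProduct_eq_zero v fun u => ?_
    have h := hv (M' *ᵥ u)
    rw [cQ_apply, Matrix.mulVec_mulVec, hM', Matrix.one_mulVec] at h
    exact h
  · intro i j hij v hv w hw
    rw [cQ_apply]
    refine Finset.sum_eq_zero fun r _ => ?_
    by_cases hvr : v r = 0
    · rw [hvr, zero_mul]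
    · have h0 : (M *ᵥ w) r = 0 := by
        refine Finset.sum_eq_zero fun s _ => ?_
        by_cases hws : w s = 0
        · rw [hws, mul_zero]
        · by_cases hM : M r s = 0
          · change M r s * w s = 0
            rw [hM, zero_mul]
          · have h1 := hd r s hM
            rw [hv r hvr, hw s hws] at h1
            exact absurd h1 hij
      rw [h0, mul_zero]

theorem deg1 {M : Matrix C.i C.i F} (hd : MDeg C.dg 1 M) : Deg1 (cG F C) M.mulVecLin := by
  intro j v hv r hr
  rw [Matrix.mulVecLin_apply] at hr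
  have h : ∃ s, M r s * v s ≠ 0 := by
    by_contra hc
    push Not at hc
    exact hr (Finset.sum_eq_zero fun s _ => hc s)
  obtain ⟨s, hs⟩ := h
  have h1 := hd r s (left_ne_zero_of_mul hs)
  rw [hv s (right_ne_zero_of_mul hs)] at h1
  exact h1

theorem selfAdj {Q M : Matrix C.i C.i F} (h : Mᵀ * Q = Q * M) :
    SelfAdj (cQ F C Q) M.mulVecLin := by
  intro v w
  rw [cQ_apply, cQ_apply, Matrix.mulVecLin_apply, Matrix.mulVecLin_apply, Matrix.mulVec_mulVec,
    ← h, ← Matrix.mulVec_mulVec, Matrix.dotProduct_mulVec v, Matrix.vecMul_transpose]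

theorem pow_mulVecLin (M : Matrix C.i C.i F) (n : ℕ) (v : C.i → F) :
    (M.mulVecLin ^ n) v = (M ^ n) *ᵥ v := by
  induction n with
  | zero => rw [pow_zero, pow_zero, Module.End.one_apply, Matrix.one_mulVec]
  | succ n ih =>
    rw [pow_succ', Module.End.mul_apply, ih, Matrix.mulVecLin_apply, Matrix.mulVec_mulVec,
      ← pow_succ']

end General

/-- powers of matrices, vectors and ring homomorphisms -/
theorem map_pow_mulVec {ι R S : Type} [Fintype ι] [DecidableEq ι] [CommRing R] [CommRing S]
    (f : R →+* S) (M : Matrix ι ι R) (n : ℕ) (v : ι → R) (r : ι) :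
    f (((M ^ n) *ᵥ v) r) = (((M.map f) ^ n) *ᵥ (f ∘ v)) r := by
  have h : (M ^ n).map f = (M.map f) ^ n := map_pow f.mapMatrix M n
  rw [← h]
  exact RingHom.map_mulVec f _ _ _

theorem kX_apply (C : CD) (r s : C.i) :
    C.kX r s = Polynomial.X * Polynomial.C (C.Om r s) + Polynomial.C (C.Et r s) := rfl

theorem kX_map_eval (C : CD) (s : ℝ) :
    C.kX.map (Polynomial.evalRingHom s) = s • C.Om + C.Et := by
  ext r t
  rw [Matrix.map_apply, kX_apply, map_add, map_mul, Polynomial.coe_evalRingHom,
    Polynomial.eval_X, Polynomial.eval_C, Polynomial.eval_C]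
  rfl

/-- `kXᵀ Q = Q kX` -/
theorem kX_adj {N : ℕ} {C : CD} (hC : C.Ok N) :
    (C.kX)ᵀ * C.Q.map Polynomial.C = C.Q.map Polynomial.C * C.kX := by
  have h1 : (C.Om.map Polynomial.C)ᵀ * C.Q.map Polynomial.C =
      C.Q.map Polynomial.C * C.Om.map Polynomial.C := by
    have h := congrArg (fun A : Matrix C.i C.i ℝ => A.map (Polynomial.C : ℝ →+* Polynomial ℝ))
      hC.oms
    simp only [Matrix.map_mul] at h
    exact h
  have h2 : (C.Et.map Polynomial.C)ᵀ * C.Q.map Polynomial.C =
      C.Q.map Polynomial.C * C.Et.map Polynomial.C := by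
    have h := congrArg (fun A : Matrix C.i C.i ℝ => A.map (Polynomial.C : ℝ →+* Polynomial ℝ))
      hC.ets
    simp only [Matrix.map_mul] at h
    exact h
  rw [CD.kX, Matrix.transpose_add, Matrix.transpose_smul, Matrix.add_mul, Matrix.smul_mul, h1, h2,
    Matrix.mul_add, Matrix.mul_smul]

theorem hl {N : ℕ} {C : CD} (hC : C.Ok N) : HL N (cG FX C) C.kF := by
  intro j hj a ha h0
  by_contra hne
  have h1 : ∃ r0, a r0 ≠ 0 := by
    by_contra hc
    push Not at hc
    exact hne (funext hc)
  obtain ⟨r0, hr0⟩ := h1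
  rw [CD.kF, pow_mulVecLin] at h0
  obtain ⟨b, hb⟩ := IsLocalization.exist_integer_multiples_of_finite
    (nonZeroDivisors (Polynomial ℝ)) a
  choose p hp using hb
  have hinj : Function.Injective (algebraMap (Polynomial ℝ) FX) :=
    IsFractionRing.injective (Polynomial ℝ) FX
  have hb0 : algebraMap (Polynomial ℝ) FX (b : Polynomial ℝ) ≠ 0 := by
    intro h
    have h' : (b : Polynomial ℝ) = 0 := hinj (by rw [h, map_zero])
    exact nonZeroDivisors.ne_zero b.2 h'
  have hpa : ∀ r, algebraMap (Polynomial ℝ) FX (p r) =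
      algebraMap (Polynomial ℝ) FX (b : Polynomial ℝ) * a r := fun r => by
    rw [hp r, Algebra.smul_def]
  have hk : (C.kX ^ (N - 2 * j)) *ᵥ p = 0 := by
    funext r
    apply hinj
    rw [map_pow_mulVec]
    have h2 : (algebraMap (Polynomial ℝ) FX ∘ p) =
        algebraMap (Polynomial ℝ) FX (b : Polynomial ℝ) • a := by
      funext s
      rw [Function.comp_apply, hpa, Pi.smul_apply, smul_eq_mul]
    rw [h2, Matrix.mulVec_smul, h0, smul_zero, Pi.zero_apply, Pi.zero_apply, map_zero]
  have hp0 : p r0 ≠ 0 := by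
    intro h
    have h2 := hpa r0
    rw [h, map_zero] at h2
    exact (mul_ne_zero hb0 hr0) h2.symm
  obtain ⟨s0, hs0⟩ := hC.hr
  obtain ⟨s, hs, hsr⟩ : ∃ s, s0 < s ∧ (p r0).eval s ≠ 0 := by
    have hf := Polynomial.finite_setOfPred_isRoot hp0
    obtain ⟨s, hs1, hs2⟩ := (Set.Ioi_infinite s0).exists_notMem_finite hf
    exact ⟨s, hs1, hs2⟩
  let v : C.i → ℝ := fun r => (p r).eval s
  have hv : ((s • C.Om + C.Et) ^ (N - 2 * j)) *ᵥ v = 0 := by
    funext r
    have h2 := map_pow_mulVec (Polynomial.evalRingHom s) C.kX (N - 2 * j) p r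
    rw [hk, kX_map_eval, Pi.zero_apply, map_zero] at h2
    exact h2.symm
  have hpos := hs0 s hs j hj v ?_ ?_ ?_
  · rw [hv, Matrix.mulVec_zero, dotProduct_zero, mul_zero] at hpos
    exact lt_irrefl _ hpos
  · intro r hr
    apply ha r
    intro h
    have h2 := hpa r
    rw [h, mul_zero] at h2
    have h3 : p r = 0 := hinj (by rw [h2, map_zero])
    apply hr
    change (p r).eval s = 0
    rw [h3, Polynomial.eval_zero]
  · rw [pow_succ', ← Matrix.mulVec_mulVec, hv, Matrix.mulVec_zero]
  · intro h
    exact hsr (congrFun h r0)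

end PHL

open PHL in
theorem PHL_thm : S_PHL := by
  intro N C hC
  let f : ℝ →+* FX := (algebraMap (Polynomial ℝ) FX).comp Polynomial.C
  have hQ : (C.Q.map (fun a => algebraMap (Polynomial ℝ) FX (Polynomial.C a))) = C.Q.map f := rfl
  refine ⟨graded C hC.le, ?_, ?_, ?_, hl hC⟩
  · refine paired C ?_ ?_ ?_
    · rw [← Matrix.transpose_map, hC.qs]
    · obtain ⟨Q', hQ', -⟩ := hC.qi
      refine ⟨Q'.map f, ?_⟩
      rw [hQ, ← Matrix.map_mul, hQ']
      exact Matrix.map_one f (map_zero f) (map_one f)
    · intro r s h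
      refine hC.qd r s fun h0 => h ?_
      rw [Matrix.map_apply, h0]
      simp
  · refine deg1 C ?_
    intro r s h
    rw [Matrix.map_apply, kX_apply] at h
    by_cases h1 : C.Om r s = 0
    · by_cases h2 : C.Et r s = 0
      · exfalso
        apply h
        rw [h1, h2]
        simp
      · exact hC.etd r s h2
    · exact hC.omd r s h1
  · refine selfAdj C ?_
    have h := congrArg (fun A : Matrix C.i C.i (Polynomial ℝ) =>
      A.map (algebraMap (Polynomial ℝ) FX)) (kX_adj hC)
    simp only [Matrix.map_mul] at h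
    have h2 : (C.Q.map (fun a => algebraMap (Polynomial ℝ) FX (Polynomial.C a))) =
        (C.Q.map Polynomial.C).map (algebraMap (Polynomial ℝ) FX) := rfl
    rw [h2]
    exact h

end Pool.Agent.LFC
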