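import Pool.Agent.LFC.Stmts

/-!
POLY: string basis with polynomial coefficients, positivity of the leading coefficients
(MP_716236_co, part K).
-/

set_option autoImplicit false

namespace Pool.Agent.LFC

open Matrix

namespace POLY

theorem map_pow_mulVec {I R S : Type} [Fintype I] [DecidableEq I] [CommRing R] [CommRing S]
    (f : R →+* S) (M : Matrix I I R) (p : I → R) (n : ℕ) :
    (f ∘ ((M ^ n) *ᵥ p)) = ((M.map f) ^ n) *ᵥ (f ∘ p) := by
  funext r
  rw [Function.comp_apply, RingHom.map_mulVec]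
  have h : (M ^ n).map f = (M.map f) ^ n := map_pow f.mapMatrix M n
  rw [h]

theorem mulVecLin_pow {I F : Type} [Fintype I] [DecidableEq I] [Field F] (M : Matrix I I F)
    (n : ℕ) (v : I → F) : (M.mulVecLin ^ n) v = (M ^ n) *ᵥ v := by
  induction n with
  | zero => rw [pow_zero, pow_zero, Module.End.one_apply, one_mulVec]
  | succ n ih =>
    rw [pow_succ', Module.End.mul_apply, ih, mulVecLin_apply, mulVec_mulVec, ← pow_succ']

/-- evaluation of the operator -/
theorem kX_eval (C : CD) (s : ℝ) : C.kX.map (Polynomial.evalRingHom s) = s • C.Om + C.Et := by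
  ext r t
  simp only [CD.kX, map_apply, Matrix.add_apply, Matrix.smul_apply, smul_eq_mul,
    Polynomial.coe_evalRingHom, Polynomial.eval_add, Polynomial.eval_mul, Polynomial.eval_X,
    Polynomial.eval_C]

theorem Q_eval (C : CD) (s : ℝ) :
    (C.Q.map Polynomial.C).map (Polynomial.evalRingHom s) = C.Q := by
  ext r t
  simp

/-- a polynomial which is positive for large real numbers has a positive leading coefficient -/
theorem lead_pos (g : Polynomial ℝ) (h : ∀ᶠ s : ℝ in Filter.atTop, 0 < g.eval s) :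
    0 < g.leadingCoeff := by
  by_contra hn
  push Not at hn
  rcases lt_or_ge 0 g.degree with hd | hd
  · have h1 := Polynomial.tendsto_atBot_of_leadingCoeff_nonpos g hd hn
    have h2 : ∀ᶠ s : ℝ in Filter.atTop, g.eval s < 0 := h1.eventually_lt_atBot 0
    obtain ⟨s, h3, h4⟩ := (h.and h2).exists
    exact absurd h3 (not_lt.2 h4.le)
  · obtain ⟨s, hs⟩ := h.exists
    rw [Polynomial.eq_C_of_degree_le_zero hd, Polynomial.eval_C] at hs
    rw [Polynomial.eq_C_of_degree_le_zero hd, Polynomial.leadingCoeff_C] at hn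
    exact absurd hs (not_lt.2 hn)

/-- positivity of the leading coefficient of the form at a primitive polynomial vector -/
theorem pos_thm {N : ℕ} {C : CD} (hC : C.Ok N) {j : ℕ} (hj : 2 * j ≤ N)
    (p : C.i → Polynomial ℝ) (h1 : ∀ r, p r ≠ 0 → C.dg r = j)
    (h2 : (C.kX ^ (N - 2 * j + 1)) *ᵥ p = 0) (h3 : ∃ r, p r ≠ 0) :
    0 < ((-1) ^ j * (p ⬝ᵥ (C.Q.map Polynomial.C *ᵥ ((C.kX ^ (N - 2 * j)) *ᵥ p)))).leadingCoeff := by
  obtain ⟨s0, hs0⟩ := hC.hr
  obtain ⟨r, hr⟩ := h3
  refine lead_pos _ ?_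
  filter_upwards [Filter.eventually_gt_atTop s0, Polynomial.eventually_atTop_not_isRoot (p r) hr] with
    s hs hs'
  have e : (Polynomial.evalRingHom s) ((-1) ^ j * (p ⬝ᵥ (C.Q.map Polynomial.C *ᵥ
      ((C.kX ^ (N - 2 * j)) *ᵥ p)))) = (-1 : ℝ) ^ j * ((Polynomial.evalRingHom s ∘ p) ⬝ᵥ
      (C.Q *ᵥ (((s • C.Om + C.Et) ^ (N - 2 * j)) *ᵥ (Polynomial.evalRingHom s ∘ p)))) := by
    rw [map_mul, map_pow, map_neg, map_one, RingHom.map_dotProduct]
    congr 2
    funext t
    rw [Function.comp_apply, RingHom.map_mulVec, Q_eval, map_pow_mulVec, kX_eval]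
  have h4 := hs0 s hs j hj (Polynomial.evalRingHom s ∘ p) ?_ ?_ ?_
  · rw [← Polynomial.coe_evalRingHom, e]
    exact h4
  · intro t ht
    refine h1 t fun h0 => ht ?_
    rw [Function.comp_apply, h0, map_zero]
  · rw [← kX_eval, ← map_pow_mulVec, h2]
    funext t
    rw [Function.comp_apply, Pi.zero_apply, map_zero, Pi.zero_apply]
  · intro h0
    exact hs' (congrFun h0 r)

end POLY

/-- POLY -/
theorem POLY_thm (hLBT : S_LBT) (hPHL : S_PHL) : S_POLY := by
  intro N C hC
  obtain ⟨g1, g2, g3, g4, g5⟩ := hPHL N C hC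
  have : CharZero FX := charZero_of_injective_algebraMap (algebraMap ℝ FX).injective
  obtain ⟨T, a, h1, h2, h3, h4, h5⟩ := hLBT FX (C.i → FX) N (cG FX C) C.QF C.kF g1 g2 g3 g4 g5
  have hinj : Function.Injective (algebraMap (Polynomial ℝ) FX) :=
    IsFractionRing.injective (Polynomial ℝ) FX
  obtain ⟨b, hb⟩ := IsLocalization.exist_integer_multiples_of_finite
    (nonZeroDivisors (Polynomial ℝ)) (fun x : T.I × C.i => a x.1 x.2)
  choose A' hA' using hb
  have hb0 : algebraMap (Polynomial ℝ) FX b ≠ 0 := by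
    intro h
    rw [← map_zero (algebraMap (Polynomial ℝ) FX)] at h
    exact nonZeroDivisors.ne_zero b.2 (hinj h)
  have hA : ∀ i, (algebraMap (Polynomial ℝ) FX ∘ fun r => A' (i, r)) =
      algebraMap (Polynomial ℝ) FX b • a i := by
    intro i
    funext r
    rw [Function.comp_apply, hA' (i, r), Pi.smul_apply, Algebra.smul_def, smul_eq_mul]
  have hk : ∀ (i : T.I) (n : ℕ), (algebraMap (Polynomial ℝ) FX ∘
      ((C.kX ^ n) *ᵥ fun r => A' (i, r))) =
      algebraMap (Polynomial ℝ) FX b • (C.kF ^ n) (a i) := by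
    intro i n
    rw [POLY.map_pow_mulVec, hA, CD.kF, POLY.mulVecLin_pow, mulVec_smul]
  refine ⟨T, fun i r => A' (i, r), (Pi.basisFun FX C.i).indexEquiv
    (Module.Basis.mk h4 h5.ge), ?_, ?_, ?_, ?_, ?_⟩
  · intro i r hr
    refine h1 i r fun h0 => hr (hinj ?_)
    have h6 := congrFun (hA i) r
    rw [Function.comp_apply, Pi.smul_apply, h0, smul_zero] at h6
    rw [h6, map_zero]
  · intro i
    funext r
    refine hinj ?_
    have h6 := congrFun (hk i (T.m i + 1)) r
    rw [Function.comp_apply, h2, smul_zero] at h6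
    rw [h6, Pi.zero_apply, Pi.zero_apply, map_zero]
  · intro i i' hi hj
    refine hinj ?_
    rw [RingHom.map_dotProduct, hA, map_zero]
    have h6 : (algebraMap (Polynomial ℝ) FX ∘ (C.Q.map Polynomial.C *ᵥ
        ((C.kX ^ (T.m i')) *ᵥ fun r => A' (i', r)))) =
        (C.Q.map (fun a => algebraMap (Polynomial ℝ) FX (Polynomial.C a))) *ᵥ
          (algebraMap (Polynomial ℝ) FX b • (C.kF ^ (T.m i')) (a i')) := by
      funext r
      rw [Function.comp_apply, RingHom.map_mulVec, hk]
      rfl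
    rw [h6]
    have h7 : C.QF (a i) ((C.kF ^ (T.m i')) (a i')) = 0 := h3 i i' hi hj
    have h8 : C.QF (algebraMap (Polynomial ℝ) FX b • a i)
        (algebraMap (Polynomial ℝ) FX b • (C.kF ^ (T.m i')) (a i')) = 0 := by
      rw [map_smul, map_smul, LinearMap.smul_apply, h7, smul_zero, smul_zero]
    exact h8
  · intro i
    refine POLY.pos_thm hC (T.hj i) (fun r => A' (i, r)) ?_ ?_ ?_
    · intro r hr
      refine h1 i r fun h0 => hr (hinj ?_)
      have h6 := congrFun (hA i) r
      rw [Function.comp_apply, Pi.smul_apply, h0, smul_zero] at h6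
      rw [h6, map_zero]
    · funext r
      refine hinj ?_
      have h6 := congrFun (hk i (T.m i + 1)) r
      rw [Function.comp_apply, h2, smul_zero] at h6
      rw [Pi.zero_apply, map_zero]
      exact h6
    · by_contra hn
      push Not at hn
      have h6 : a i ≠ 0 := h4.ne_zero (⟨i, ⟨0, Nat.succ_pos _⟩⟩ : T.J)
      refine h6 ?_
      have h7 := hA i
      have h8 : (algebraMap (Polynomial ℝ) FX ∘ fun r => A' (i, r)) = 0 := by
        funext r
        rw [Function.comp_apply, hn r, map_zero, Pi.zero_apply]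
      rw [h8] at h7
      exact (smul_eq_zero.1 h7.symm).resolve_left hb0
  · intro hdet
    set e := (Pi.basisFun FX C.i).indexEquiv (Module.Basis.mk h4 h5.ge) with he
    have h6 : (Matrix.of fun r s => algebraMap (Polynomial ℝ) FX
        (((C.kX ^ ((e s).2 : ℕ)) *ᵥ (fun r => A' ((e s).1, r))) r)).det = 0 := by
      have h7 := congrArg (algebraMap (Polynomial ℝ) FX) hdet
      rw [map_zero, RingHom.map_det] at h7
      exact h7
    obtain ⟨w, hw0, hw⟩ := Matrix.exists_mulVec_eq_zero_iff.2 h6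
    refine hw0 ?_
    have h8 : ∑ c : T.J, (w (e.symm c) * algebraMap (Polynomial ℝ) FX b) •
        (C.kF ^ (c.2 : ℕ)) (a c.1) = 0 := by
      rw [← e.sum_comp]
      funext r
      have h9 := congrFun hw r
      rw [Pi.zero_apply] at h9 ⊢
      rw [← h9, Finset.sum_apply, mulVec, dotProduct]
      refine Finset.sum_congr rfl fun s _ => ?_
      have h10 := congrFun (hk (e s).1 ((e s).2 : ℕ)) r
      rw [Function.comp_apply] at h10
      rw [Matrix.of_apply, h10, Pi.smul_apply, Pi.smul_apply, smul_eq_mul, smul_eq_mul,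
        Equiv.symm_apply_apply]
      ring
    have h11 := Fintype.linearIndependent_iff.1 h4 _ h8
    funext s
    have h12 := h11 (e s)
    rw [Equiv.symm_apply_apply] at h12
    exact (mul_eq_zero.1 h12).resolve_right hb0

end Pool.Agent.LFC
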