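import Pool.Agent.LFC.Stmts

/-!
# PRIM: primitive decomposition of the Hodge norm
-/

set_option autoImplicit false

namespace Pool.Agent.LFC

open Matrix

namespace PRIM

lemma cst_add (a b : ℝ) : cst (a + b) = cst a + cst b := map_add HahnSeries.C a b
lemma cst_mul (a b : ℝ) : cst (a * b) = cst a * cst b := map_mul HahnSeries.C a b
lemma cst_zero : cst 0 = 0 := map_zero HahnSeries.C
lemma cst_one : cst 1 = 1 := map_one HahnSeries.C
lemma cst_neg (a : ℝ) : cst (-a) = -cst a := map_neg HahnSeries.C a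
lemma cst_pow (a : ℝ) (n : ℕ) : cst (a ^ n) = cst a ^ n := map_pow HahnSeries.C a n
lemma cst_natCast (n : ℕ) : cst (n : ℝ) = (n : K) := map_natCast HahnSeries.C n
lemma cst_div (a b : ℝ) : cst (a / b) = cst a / cst b := map_div₀ (HahnSeries.C (Γ := ℤ)) a b
lemma cst_sum {ι : Type*} (s : Finset ι) (f : ι → ℝ) : cst (∑ a ∈ s, f a) = ∑ a ∈ s, cst (f a) :=
  map_sum HahnSeries.C f s

lemma cst_mulVec {m n : Type} [Fintype n] (M : Matrix m n ℝ) (v : n → ℝ) :
    (fun r => cst ((M *ᵥ v) r)) = M.map cst *ᵥ (fun r => cst (v r)) := by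
  funext r
  simp only [Matrix.mulVec, dotProduct, cst_sum, cst_mul, Matrix.map_apply]

lemma fin_sum_ite (M e j : ℕ) (g : ℕ → K) :
    ∑ s : Fin (M + 1), (if j + (s : ℕ) = e then g s else 0) =
      if j ≤ e ∧ e - j ≤ M then g (e - j) else 0 := by
  rw [Fin.sum_univ_eq_sum_range (fun s => if j + s = e then g s else 0) (M + 1)]
  split_ifs with h
  · rw [Finset.sum_eq_single_of_mem (e - j) (Finset.mem_range.2 (by omega)), if_pos (by omega)]
    intro b _ hb
    rw [if_neg (by omega)]
  · apply Finset.sum_eq_zero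
    intro s hs
    rw [Finset.mem_range] at hs
    rw [if_neg]
    omega

variable {N : ℕ} {T : Str N}

lemma k_mulVec (w : T.J → K) (t : T.I) (s : Fin (N - 2 * T.j t + 1)) :
    (T.k K *ᵥ w) ⟨t, s⟩ = if h : 1 ≤ (s : ℕ) then w ⟨t, ⟨(s : ℕ) - 1, by omega⟩⟩ else 0 := by
  simp only [Matrix.mulVec, dotProduct, Str.k, Matrix.of_apply]
  split_ifs with h
  · rw [Finset.sum_eq_single (⟨t, ⟨(s : ℕ) - 1, by omega⟩⟩ : T.J)]
    · rw [if_pos ⟨rfl, by simp only; omega⟩, one_mul]
    · rintro ⟨t', s'⟩ _ hb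
      rw [if_neg, zero_mul]
      rintro ⟨h1, h2⟩
      apply hb
      simp only at h1 h2
      subst h1
      congr 1
      apply Fin.ext
      simp only
      omega
    · intro h'
      exact absurd (Finset.mem_univ _) h'
  · apply Finset.sum_eq_zero
    rintro ⟨t', s'⟩ _
    rw [if_neg, zero_mul]
    rintro ⟨h1, h2⟩
    simp only at h2
    omega

lemma gram_mulVec (ph : T.I → K) (w : T.J → K) (t : T.I) (s : Fin (N - 2 * T.j t + 1)) :
    (T.gram ph *ᵥ w) ⟨t, s⟩ =
      ph t * w ⟨t, ⟨N - 2 * T.j t - (s : ℕ), by omega⟩⟩ := by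
  simp only [Matrix.mulVec, dotProduct, Str.gram, Matrix.of_apply, Str.m]
  rw [Finset.sum_eq_single (⟨t, ⟨N - 2 * T.j t - (s : ℕ), by omega⟩⟩ : T.J)]
  · rw [if_pos ⟨rfl, by simp only; omega⟩]
  · rintro ⟨t', s'⟩ _ hb
    rw [if_neg, zero_mul]
    rintro ⟨h1, h2⟩
    apply hb
    simp only at h1 h2
    subst h1
    congr 1
    apply Fin.ext
    simp only
    omega
  · intro h'
    exact absurd (Finset.mem_univ _) h'

/-- the powers of the Lefschetz operator on a vector of degree `i` -/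
lemma kpow_mulVec {i : ℕ} {w : T.J → K} {y : T.I → K}
    (hw : ∀ (t : T.I) (s : Fin (N - 2 * T.j t + 1)),
      w ⟨t, s⟩ = if T.j t + (s : ℕ) = i then y t else 0)
    (hy : ∀ t, i < T.j t → y t = 0) (r : ℕ) :
    ∀ (t : T.I) (s : Fin (N - 2 * T.j t + 1)),
      ((T.k K) ^ r *ᵥ w) ⟨t, s⟩ = if T.j t + (s : ℕ) = i + r then y t else 0 := by
  induction r with
  | zero =>
    intro t s
    rw [pow_zero, Matrix.one_mulVec, hw, add_zero]
  | succ r ih =>
    intro t s
    rw [pow_succ', ← Matrix.mulVec_mulVec, k_mulVec]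
    split_ifs with h h1 h1
    · rw [ih, if_pos (by simp only; omega)]
    · rw [ih, if_neg (by simp only; omega)]
    · exact (hy t (by omega)).symm
    · rfl

lemma hf_eq {i : ℕ} (ph : T.I → K) {u : T.J → K} {y : T.I → K}
    (hu : ∀ (t : T.I) (s : Fin (N - 2 * T.j t + 1)),
      u ⟨t, s⟩ = if T.j t + (s : ℕ) = i then y t else 0) :
    hf (T.gam ph) u u = ∑ t : T.I, if T.j t ≤ i ∧ i - T.j t ≤ N - 2 * T.j t then
      ((((i - T.j t).factorial : ℕ) : K) / (((N - 2 * T.j t - (i - T.j t)).factorial : ℕ) : K)) *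
        ((-1) ^ (T.j t) * ph t * (y t * y t)) else 0 := by
  unfold hf
  rw [Fintype.sum_sigma]
  apply Finset.sum_congr rfl
  intro t _
  rw [← fin_sum_ite (N - 2 * T.j t) i (T.j t) (fun s => (((s.factorial : ℕ) : K) /
    (((N - 2 * T.j t - s).factorial : ℕ) : K)) * ((-1) ^ (T.j t) * ph t * (y t * y t)))]
  apply Finset.sum_congr rfl
  intro s _
  rw [hu]
  simp only [Str.gam, Str.m]
  split_ifs
  · ring
  · ring

lemma swap (i : ℕ) (j : T.I → ℕ) (z : T.I → K) (c : ℕ → K) :
    ∑ s ∈ Finset.range (i + 1), c s * (∑ t : T.I, if j t + s = i then z t else 0) =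
      ∑ t : T.I, if j t ≤ i then c (i - j t) * z t else 0 := by
  simp_rw [Finset.mul_sum]
  rw [Finset.sum_comm]
  apply Finset.sum_congr rfl
  intro t _
  split_ifs with h
  · rw [Finset.sum_eq_single_of_mem (i - j t) (Finset.mem_range.2 (by omega)), if_pos (by omega)]
    intro b _ hb
    rw [if_neg (by omega), mul_zero]
  · apply Finset.sum_eq_zero
    intro s hs
    rw [if_neg (by omega), mul_zero]

end PRIM

open PRIM in
theorem PRIM_thm (hORD : S_ORD) (_hKREL : S_KREL) : S_PRIM := by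
  intro N C _hC T S S' ph hF i hi v hv hOm
  obtain ⟨hadd, _, _, hsq, hiff, _⟩ := hORD
  have hN0 : Nng (0 : K) := (hiff 0).2 (Or.inl rfl)
  have hNsum : ∀ (f : T.I → K), (∀ t, Nng (f t)) → Nng (∑ t : T.I, f t) := by
    intro f hf
    apply Finset.sum_induction f Nng (fun a b ha hb => (hadd a b ha hb).1) hN0
    intro t _
    exact hf t
  -- coordinates
  set w : T.J → K := crd C T S' v with hwdef
  have hw0 : ∀ b, w b ≠ 0 → T.dg b = i := by
    intro b hb
    by_contra hne
    apply hb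
    rw [hwdef]
    simp only [crd, Matrix.mulVec, dotProduct]
    apply Finset.sum_eq_zero
    intro r _
    by_cases h1 : S' b r = 0
    · rw [h1, zero_mul]
    · by_cases h2 : v r = 0
      · rw [h2, cst_zero, mul_zero]
      · exact absurd ((hF.deg' b r h1).symm.trans (hv r h2)) hne
  let y : T.I → K := fun t => ∑ s : Fin (N - 2 * T.j t + 1), w ⟨t, s⟩
  have hyw : ∀ (t : T.I) (s : Fin (N - 2 * T.j t + 1)),
      w ⟨t, s⟩ = if T.j t + (s : ℕ) = i then y t else 0 := by
    intro t s
    split_ifs with h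
    · symm
      apply Finset.sum_eq_single_of_mem s (Finset.mem_univ s)
      intro s' _ hs'
      by_contra hne
      have := hw0 _ hne
      simp only [Str.dg] at this
      apply hs'
      apply Fin.ext
      omega
    · by_contra hne
      exact h (hw0 _ hne)
  have hy0 : ∀ t, i < T.j t → y t = 0 := by
    intro t ht
    apply Finset.sum_eq_zero
    intro s _
    rw [hyw, if_neg (by omega)]
  -- the Lefschetz operator in the frame
  have hka : S' * (sK • C.Om.map cst + C.Et.map cst) = T.k K * S' := by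
    calc S' * (sK • C.Om.map cst + C.Et.map cst)
        = S' * ((sK • C.Om.map cst + C.Et.map cst) * (S * S')) := by
          rw [hF.inv1, Matrix.mul_one]
      _ = S' * ((sK • C.Om.map cst + C.Et.map cst) * S) * S' := by
          simp only [Matrix.mul_assoc]
      _ = (S' * S) * T.k K * S' := by
          rw [hF.kap]; simp only [Matrix.mul_assoc]
      _ = T.k K * S' := by rw [hF.inv2, Matrix.one_mul]
  have hstep : ∀ u : C.i → ℝ, C.Om *ᵥ u = 0 → crd C T S' (C.Et *ᵥ u) = T.k K *ᵥ crd C T S' u := by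
    intro u hu
    unfold crd
    have h0 : C.Om.map cst *ᵥ (fun r => cst (u r)) = 0 := by
      rw [← cst_mulVec, hu]
      funext r
      exact cst_zero
    rw [Matrix.mulVec_mulVec, ← hka, ← Matrix.mulVec_mulVec, Matrix.add_mulVec,
      Matrix.smul_mulVec, h0, smul_zero, zero_add, ← cst_mulVec]
  have hOmr : ∀ r : ℕ, C.Om *ᵥ ((C.Et ^ r) *ᵥ v) = 0 := by
    intro r
    have hc : C.Om * C.Et ^ r = C.Et ^ r * C.Om :=
      (Commute.pow_right (show Commute C.Om C.Et from _hC.cm) r).eq
    rw [Matrix.mulVec_mulVec, hc, ← Matrix.mulVec_mulVec, hOm, Matrix.mulVec_zero]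
  have hpow : ∀ r : ℕ, crd C T S' ((C.Et ^ r) *ᵥ v) = (T.k K) ^ r *ᵥ w := by
    intro r
    induction r with
    | zero => rw [pow_zero, pow_zero, Matrix.one_mulVec, Matrix.one_mulVec]
    | succ r ih =>
      rw [pow_succ', ← Matrix.mulVec_mulVec, hstep _ (hOmr r), ih, pow_succ',
        ← Matrix.mulVec_mulVec]
  have hkp : ∀ r : ℕ, ∀ (t : T.I) (s : Fin (N - 2 * T.j t + 1)),
      (crd C T S' ((C.Et ^ r) *ᵥ v)) ⟨t, s⟩ = if T.j t + (s : ℕ) = i + r then y t else 0 := by
    intro r
    rw [hpow r]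
    exact kpow_mulVec hyw hy0 r
  let z : T.I → K := fun t => (-1) ^ (T.j t) * ph t * (y t * y t)
  let p : ℕ → K := fun s => ∑ t : T.I, if T.j t + s = i then z t else 0
  have hz : ∀ t, Nng (z t) := by
    intro t
    exact (hadd _ _ ((hiff _).2 (Or.inr (hF.pos t))) (hsq (y t))).2
  let c : ℕ → ℝ := fun s => ((s.factorial : ℕ) : ℝ) / (((N - 2 * i + s).factorial : ℕ) : ℝ)
  let c' : ℕ → ℝ := fun s => if s = 0 then 0 else
    (((s + (N - 2 * i) + 1).factorial : ℕ) : ℝ) / (((s - 1).factorial : ℕ) : ℝ)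
  refine ⟨p, c, c', ?_, ?_, ?_, ?_, ?_, ?_, ?_⟩
  · intro s
    apply hNsum
    intro t
    split_ifs
    · exact hz t
    · exact hN0
  · intro s
    exact div_pos (Nat.cast_pos.2 (Nat.factorial_pos _)) (Nat.cast_pos.2 (Nat.factorial_pos _))
  · exact if_pos rfl
  · intro s hs
    simp only [c']
    rw [if_neg (by omega)]
    exact div_pos (Nat.cast_pos.2 (Nat.factorial_pos _)) (Nat.cast_pos.2 (Nat.factorial_pos _))
  · -- the norm of `v`
    rw [swap i T.j z (fun s => cst (c s))]
    unfold nK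
    rw [hf_eq (i := i) ph hyw]
    apply Finset.sum_congr rfl
    intro t _
    have hj := T.hj t
    by_cases h : T.j t ≤ i
    · rw [if_pos ⟨h, by omega⟩, if_pos h]
      have e1 : N - 2 * T.j t - (i - T.j t) = N - 2 * i + (i - T.j t) := by omega
      simp only [c, z, cst_div, cst_natCast, e1]
    · rw [if_neg (by tauto), if_neg h]
  · -- the form
    have hsw := swap i T.j z (fun s => (-1 : K) ^ s)
    rw [hsw]
    have hSw : ∀ u : C.i → ℝ, (fun r => cst (u r)) = S *ᵥ crd C T S' u := by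
      intro u
      unfold crd
      rw [Matrix.mulVec_mulVec, hF.inv1, Matrix.one_mulVec]
    have hdot : ∀ a b : C.i → ℝ, cst (a ⬝ᵥ (C.Q *ᵥ b)) =
        crd C T S' a ⬝ᵥ (T.gram ph *ᵥ crd C T S' b) := by
      intro a b
      have h1 : cst (a ⬝ᵥ (C.Q *ᵥ b)) =
          (fun r => cst (a r)) ⬝ᵥ (fun r => cst ((C.Q *ᵥ b) r)) := by
        simp only [dotProduct, cst_sum, cst_mul]
      rw [h1, cst_mulVec, hSw a, hSw b, ← hF.gram]
      rw [Matrix.mulVec_mulVec, Matrix.dotProduct_mulVec, Matrix.dotProduct_mulVec,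
        Matrix.vecMul_mulVec]
      congr 2
      rw [Matrix.mul_assoc]
    rw [cst_mul, cst_pow, cst_neg, cst_one, hdot]
    have h2 : crd C T S' v ⬝ᵥ (T.gram ph *ᵥ crd C T S' ((C.Et ^ (N - 2 * i)) *ᵥ v)) =
        ∑ t : T.I, if T.j t ≤ i then ph t * (y t * y t) else 0 := by
      simp only [dotProduct]
      rw [Fintype.sum_sigma]
      apply Finset.sum_congr rfl
      intro t _
      have hj := T.hj t
      have h3 := fin_sum_ite (N - 2 * T.j t) i (T.j t) (fun _ => ph t * (y t * y t))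
      have h4 : (T.j t ≤ i ∧ i - T.j t ≤ N - 2 * T.j t) ↔ T.j t ≤ i :=
        ⟨fun h => h.1, fun h => ⟨h, by omega⟩⟩
      simp only [h4] at h3
      rw [← h3]
      apply Finset.sum_congr rfl
      intro s _
      rw [gram_mulVec, hkp, ← hwdef, hyw]
      by_cases hs : T.j t + (s : ℕ) = i
      · rw [if_pos hs, if_pos hs, if_pos (by simp only; omega)]
        ring
      · rw [if_neg hs, if_neg hs, zero_mul]
    rw [h2, Finset.mul_sum]
    apply Finset.sum_congr rfl
    intro t _
    split_ifs with h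
    · have e2 : (-1 : K) ^ i = (-1) ^ (i - T.j t) * (-1) ^ (T.j t) := by
        rw [← pow_add]; congr 1; omega
      simp only [z]
      rw [e2]
      ring
    · rw [mul_zero]
  · -- the norm of the image
    rw [swap i T.j z (fun s => cst (c' s))]
    unfold nK
    rw [hf_eq (i := i + (N - 2 * i + 1)) ph (hkp (N - 2 * i + 1))]
    apply Finset.sum_congr rfl
    intro t _
    have hj := T.hj t
    by_cases h : T.j t ≤ i
    · by_cases h' : T.j t = i
      · rw [if_neg (by omega), if_pos h]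
        have e0 : i - T.j t = 0 := by omega
        simp only [c', e0, if_true, cst_zero, zero_mul]
      · rw [if_pos ⟨by omega, by omega⟩, if_pos h]
        have e1 : i + (N - 2 * i + 1) - T.j t = i - T.j t + (N - 2 * i) + 1 := by omega
        have e3 : N - 2 * T.j t - (i + (N - 2 * i + 1) - T.j t) = i - T.j t - 1 := by omega
        simp only [c', z]
        rw [if_neg (by omega), cst_div, cst_natCast, cst_natCast, e3, e1]
    · rw [if_neg h]
      by_cases h5 : T.j t ≤ i + (N - 2 * i + 1) ∧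
          i + (N - 2 * i + 1) - T.j t ≤ N - 2 * T.j t
      · rw [if_pos h5, hy0 t (by omega)]
        ring
      · rw [if_neg h5]

end Pool.Agent.LFC
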