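import Pool.Agent.LFC.Stmts

/-!
SER: the derivation `s d/ds` and pole orders.
-/

set_option autoImplicit false

namespace Pool.Agent.LFC

namespace SER

/-- The coefficients of a product, for series with coefficients zero below `a` and `b`. -/
theorem coeff_mul_Icc {f g : K} {a b : ℤ} (hf : ∀ m < a, f.coeff m = 0)
    (hg : ∀ m < b, g.coeff m = 0) (n : ℤ) :
    (f * g).coeff n = ∑ i ∈ Finset.Icc a (n - b), f.coeff i * g.coeff (n - i) := by
  classical
  rw [HahnSeries.coeff_mul]
  have h0 : ∑ i ∈ Finset.Icc a (n - b), f.coeff i * g.coeff (n - i) =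
      ∑ i ∈ (Finset.Icc a (n - b)).filter fun i => f.coeff i ≠ 0 ∧ g.coeff (n - i) ≠ 0,
        f.coeff i * g.coeff (n - i) := by
    symm
    refine Finset.sum_filter_of_ne fun i _ h => ?_
    exact ⟨left_ne_zero_of_mul h, right_ne_zero_of_mul h⟩
  rw [h0]
  refine Finset.sum_nbij' (fun x => x.1) (fun i => (i, n - i)) ?_ ?_ ?_ ?_ ?_
  · rintro ⟨i, j⟩ h
    rw [Finset.mem_antidiagonal] at h
    obtain ⟨h1, h2, h3⟩ := h
    have h1' : f.coeff i ≠ 0 := h1
    have h2' : g.coeff j ≠ 0 := h2
    have h3' : i + j = n := h3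
    have hj : n - i = j := by omega
    have ha : a ≤ i := by
      by_contra hc
      exact h1' (hf i (by omega))
    have hb : b ≤ j := by
      by_contra hc
      exact h2' (hg j (by omega))
    simp only [Finset.mem_filter, Finset.mem_Icc]
    refine ⟨⟨ha, by omega⟩, h1', ?_⟩
    rw [hj]
    exact h2'
  · intro i h
    simp only [Finset.mem_filter, Finset.mem_Icc] at h
    rw [Finset.mem_antidiagonal]
    exact ⟨h.2.1, h.2.2, by change i + (n - i) = n; omega⟩
  · rintro ⟨i, j⟩ h
    rw [Finset.mem_antidiagonal] at h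
    have h3 : i + j = n := h.2.2
    simp only [Prod.mk.injEq, true_and]
    omega
  · intro i _
    rfl
  · rintro ⟨i, j⟩ h
    rw [Finset.mem_antidiagonal] at h
    have h3 : i + j = n := h.2.2
    have : n - i = j := by omega
    simp only [this]

/-- A series has coefficients zero below some integer. -/
theorem exists_low (f : K) : ∃ n : ℤ, ∀ m < n, f.coeff m = 0 := by
  by_cases hf : f = 0
  · exact ⟨0, fun m _ => by rw [hf, HahnSeries.coeff_zero]⟩
  · exact ⟨f.order, fun m hm => HahnSeries.coeff_eq_zero_of_lt_order hm⟩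

theorem dK_coeff (f : K) (n : ℤ) : (dK f).coeff n = -(n : ℝ) * f.coeff n := rfl

theorem dK_mul (f g : K) : dK (f * g) = dK f * g + f * dK g := by
  obtain ⟨a, ha⟩ := exists_low f
  obtain ⟨b, hb⟩ := exists_low g
  have ha' : ∀ m < a, (dK f).coeff m = 0 := fun m hm => by rw [dK_coeff, ha m hm, mul_zero]
  have hb' : ∀ m < b, (dK g).coeff m = 0 := fun m hm => by rw [dK_coeff, hb m hm, mul_zero]
  ext n
  rw [HahnSeries.coeff_add, dK_coeff, coeff_mul_Icc ha hb, coeff_mul_Icc ha' hb,
    coeff_mul_Icc ha hb', Finset.mul_sum, ← Finset.sum_add_distrib]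
  refine Finset.sum_congr rfl fun i _ => ?_
  rw [dK_coeff, dK_coeff]
  push_cast
  ring

end SER

open SER in
/-- SER: the derivation and pole orders. -/
theorem SER_thm : S_SER := by
  refine ⟨fun f g => ?_, dK_mul, fun a => ?_, ?_, fun m f hf n hn => ?_, fun m n f g hf hg => ?_⟩
  · ext n
    rw [HahnSeries.coeff_add, dK_coeff, dK_coeff, dK_coeff, HahnSeries.coeff_add]
    ring
  · ext n
    rw [dK_coeff, HahnSeries.coeff_zero, cst, HahnSeries.C_apply, HahnSeries.coeff_single]
    split_ifs with h
    · rw [h]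
      simp
    · rw [mul_zero]
  · ext n
    rw [dK_coeff, sK, HahnSeries.coeff_single]
    split_ifs with h
    · rw [h]
      simp
    · rw [mul_zero]
  · rw [dK_coeff, hf n hn, mul_zero]
  · constructor
    · intro k hk
      rw [coeff_mul_Icc hf hg, Finset.Icc_eq_empty (by omega), Finset.sum_empty]
    · have e1 : -(m + n) - -n = -m := by ring
      have e2 : -(m + n) - -m = -n := by ring
      rw [coeff_mul_Icc hf hg, e1, Finset.Icc_self, Finset.sum_singleton, e2]

end Pool.Agent.LFC
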