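import Pool.Agent.LFC.Stmts

/-!
Module STC: matrices commuting with the Lefschetz operator (MP_716236_co, part K).
-/

set_option autoImplicit false

namespace Pool.Agent.LFC

open Matrix

namespace STC

variable {R : Type} [Field R] {N : ℕ} {T : Str N}

/-- the block `(i', i)` of a matrix, extended by zero -/
noncomputable def B (A : Matrix T.J T.J R) (i' i : T.I) (s' s : ℕ) : R :=
  if h : s' < N - 2 * T.j i' + 1 ∧ s < N - 2 * T.j i + 1 then A ⟨i', ⟨s', h.1⟩⟩ ⟨i, ⟨s, h.2⟩⟩ else 0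

lemma B_eq (A : Matrix T.J T.J R) (a b : T.J) : B A a.1 b.1 a.2 b.2 = A a b := by
  unfold B
  rw [dif_pos ⟨a.2.2, b.2.2⟩]

lemma B_out (A : Matrix T.J T.J R) (i' i : T.I) (s' s : ℕ) (h : N - 2 * T.j i < s) :
    B A i' i s' s = 0 := by
  unfold B
  rw [dif_neg]
  omega

lemma B_mem {A : Matrix T.J T.J R} {i' i : T.I} {s' s : ℕ} (h : B A i' i s' s ≠ 0) :
    ∃ (h1 : s' < N - 2 * T.j i' + 1) (h2 : s < N - 2 * T.j i + 1),
      A ⟨i', ⟨s', h1⟩⟩ ⟨i, ⟨s, h2⟩⟩ ≠ 0 := by
  unfold B at h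
  split_ifs at h with h1
  · exact ⟨h1.1, h1.2, h⟩
  · exact absurd rfl h

/-- entries of `A k` -/
lemma mul_k (A : Matrix T.J T.J R) (a b : T.J) :
    (A * T.k R) a b = B A a.1 b.1 a.2 (b.2 + 1) := by
  rw [Matrix.mul_apply]
  by_cases h : (b.2 : ℕ) + 1 < N - 2 * T.j b.1 + 1
  · rw [Finset.sum_eq_single (⟨b.1, ⟨b.2 + 1, h⟩⟩ : T.J)]
    · have e1 : T.k R ⟨b.1, ⟨b.2 + 1, h⟩⟩ b = 1 := by
        simp [Str.k]
      rw [e1, mul_one]
      unfold B
      rw [dif_pos ⟨a.2.2, h⟩]
    · intro c _ hc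
      have : T.k R c b = 0 := by
        rw [Str.k, Matrix.of_apply, if_neg]
        rintro ⟨h1, h2⟩
        apply hc
        obtain ⟨c1, c2⟩ := c
        obtain ⟨b1, b2⟩ := b
        simp only at h1
        subst h1
        simp only at h2 ⊢
        congr 1
        exact Fin.ext h2
      rw [this, mul_zero]
    · intro h'
      exact absurd (Finset.mem_univ _) h'
  · rw [B_out _ _ _ _ _ (by omega)]
    refine Finset.sum_eq_zero fun c _ => ?_
    have : T.k R c b = 0 := by
      rw [Str.k, Matrix.of_apply, if_neg]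
      rintro ⟨h1, h2⟩
      have h3 := c.2.2
      have h4 : T.j c.1 = T.j b.1 := congrArg T.j h1
      omega
    rw [this, mul_zero]

/-- entries of `k A` -/
lemma k_mul (A : Matrix T.J T.J R) (a b : T.J) :
    (T.k R * A) a b = if (a.2 : ℕ) = 0 then 0 else B A a.1 b.1 (a.2 - 1) b.2 := by
  rw [Matrix.mul_apply]
  have ha := a.2.2
  by_cases h : (a.2 : ℕ) = 0
  · rw [if_pos h]
    refine Finset.sum_eq_zero fun c _ => ?_
    have : T.k R a c = 0 := by
      rw [Str.k, Matrix.of_apply, if_neg]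
      rintro ⟨h1, h2⟩
      omega
    rw [this, zero_mul]
  · rw [if_neg h]
    have h3 : (a.2 : ℕ) - 1 < N - 2 * T.j a.1 + 1 := by omega
    rw [Finset.sum_eq_single (⟨a.1, ⟨a.2 - 1, h3⟩⟩ : T.J)]
    · have e1 : T.k R a ⟨a.1, ⟨a.2 - 1, h3⟩⟩ = 1 := by
        rw [Str.k, Matrix.of_apply, if_pos]
        refine ⟨rfl, ?_⟩
        simp only
        omega
      rw [e1, one_mul]
      unfold B
      rw [dif_pos ⟨h3, b.2.2⟩]
    · intro c _ hc
      have : T.k R a c = 0 := by
        rw [Str.k, Matrix.of_apply, if_neg]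
        rintro ⟨h1, h2⟩
        apply hc
        obtain ⟨c1, c2⟩ := c
        obtain ⟨a1, a2⟩ := a
        simp only at h1
        subst h1
        simp only at h2 ⊢
        congr 1
        refine Fin.ext ?_
        simp only
        omega
      rw [this, zero_mul]
    · intro h'
      exact absurd (Finset.mem_univ _) h'

section

variable {A : Matrix T.J T.J R} (hA : br A (T.k R) = 0)

include hA

lemma entry (a b : T.J) : B A a.1 b.1 a.2 (b.2 + 1) =
    if (a.2 : ℕ) = 0 then 0 else B A a.1 b.1 (a.2 - 1) b.2 := by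
  rw [← mul_k, ← k_mul]
  have h := congrFun (congrFun hA a) b
  rw [br, Matrix.sub_apply, Matrix.zero_apply, sub_eq_zero] at h
  exact h

/-- one step -/
lemma step (i' i : T.I) (s' s : ℕ) (h' : s' + 1 ≤ N - 2 * T.j i') (h : s ≤ N - 2 * T.j i) :
    B A i' i (s' + 1) (s + 1) = B A i' i s' s := by
  have := entry hA ⟨i', ⟨s' + 1, by omega⟩⟩ ⟨i, ⟨s, by omega⟩⟩
  simpa using this

lemma low (i' i : T.I) (s : ℕ) : B A i' i 0 (s + 1) = 0 := by
  by_cases h : s ≤ N - 2 * T.j i
  · have := entry hA ⟨i', ⟨0, by omega⟩⟩ ⟨i, ⟨s, by omega⟩⟩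
    simpa using this
  · exact B_out _ _ _ _ _ (by omega)

lemma diag (i' i : T.I) (s' s n : ℕ) (h' : s' + n ≤ N - 2 * T.j i')
    (h : s + n ≤ N - 2 * T.j i + 1) : B A i' i (s' + n) (s + n) = B A i' i s' s := by
  induction n with
  | zero => rfl
  | succ n ih =>
    rw [← add_assoc, ← add_assoc, step hA i' i (s' + n) (s + n) (by omega) (by omega)]
    exact ih (by omega) (by omega)

lemma zero_of_lt (i' i : T.I) (s' s : ℕ) (hs : s' < s) : B A i' i s' s = 0 := by
  by_contra hne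
  obtain ⟨h1, h2, -⟩ := B_mem hne
  apply hne
  obtain ⟨t, rfl⟩ : ∃ t, s = t + 1 + s' := ⟨s - s' - 1, by omega⟩
  have := diag hA i' i 0 (t + 1) s' (by omega) (by omega)
  rw [zero_add] at this
  rw [this, low hA]

lemma main (i' i : T.I) (s' s : ℕ) (hs : s ≤ s') (h' : s' ≤ N - 2 * T.j i')
    (h : s ≤ N - 2 * T.j i) : B A i' i s' s = B A i' i (s' - s) 0 := by
  have := diag hA i' i (s' - s) 0 s (by omega) (by omega)
  rw [← this]
  congr 1 <;> omega

lemma upper (i' i : T.I) (r : ℕ) (hne : B A i' i r 0 ≠ 0) :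
    N - 2 * T.j i' ≤ N - 2 * T.j i + r := by
  by_contra hlt
  apply hne
  have := diag hA i' i r 0 (N - 2 * T.j i + 1) (by omega) (by omega)
  rw [← this]
  exact B_out _ _ _ _ _ (by omega)

/-- the statement for degree `d >= 0` -/
lemma degd (d : ℕ) (hd : MDeg T.dg d A) : ∃ xi : T.I → T.I → R,
    (∀ a b : T.J, A a b = if T.dg a = T.dg b + d then xi a.1 b.1 else 0) ∧
    (∀ i' i, xi i' i ≠ 0 → T.j i' ≤ T.j i + d ∧ T.j i ≤ T.j i' + d) := by
  have hB : ∀ i' i s' s, B A i' i s' s ≠ 0 → T.j i' + s' = T.j i + s + d := by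
    intro i' i s' s hne
    obtain ⟨h1, h2, hab⟩ := B_mem hne
    exact hd _ _ hab
  refine ⟨fun i' i => B A i' i (T.j i + d - T.j i') 0, ?_, ?_⟩
  · intro a b
    split_ifs with h
    · have hB' := B_eq A a b
      rw [← hB']
      have ha := a.2.2
      have hb := b.2.2
      rw [Str.dg, Str.dg] at h
      by_cases hs : (b.2 : ℕ) ≤ a.2
      · rw [main hA _ _ _ _ hs (by omega) (by omega)]
        congr 1
        omega
      · rw [zero_of_lt hA _ _ _ _ (by omega)]
        by_contra hne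
        have := hB _ _ _ _ (Ne.symm hne)
        omega
    · by_contra hne
      exact h (hd a b hne)
  · intro i' i hne
    have h1 := hB _ _ _ _ hne
    have h2 := upper hA _ _ _ hne
    have h3 := T.hj i
    have h4 := T.hj i'
    omega

end

end STC

open STC in
theorem STC_thm : S_STC := by
  intro R _ N T A hA
  refine ⟨?_, ?_, ?_⟩
  · intro hd
    exact degd hA 1 hd
  · intro hd
    obtain ⟨xi, h1, h2⟩ := degd hA 0 hd
    refine ⟨xi, fun a b => ?_, fun i' i h => ?_⟩
    · have := h1 a b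
      rwa [add_zero] at this
    · have := h2 i' i h
      omega
  · intro hd
    ext a b
    rw [Matrix.zero_apply]
    by_contra hne
    have h0 := hd a b hne
    have hB' := B_eq A a b
    rw [← hB'] at hne
    have ha := a.2.2
    have hb := b.2.2
    have hs : (b.2 : ℕ) ≤ a.2 := by
      by_contra hs
      exact hne (zero_of_lt hA _ _ _ _ (by omega))
    rw [main hA _ _ _ _ hs (by omega) (by omega)] at hne
    have h2 := upper hA _ _ _ hne
    have h3 := T.hj a.1
    have h4 := T.hj b.1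
    rw [Str.dg, Str.dg] at h0
    omega

end Pool.Agent.LFC
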