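import Pool.Agent.LFC.OUT
import Pool.Agent.LFC.LSU
import Pool.Agent.LFC.LBT
import Pool.Agent.LFC.GAM
import Pool.Agent.LFC.STC
import Pool.Agent.LFC.ALG1
import Pool.Agent.LFC.ALG2
import Pool.Agent.LFC.SER
import Pool.Agent.LFC.ORD
import Pool.Agent.LFC.LEAD
import Pool.Agent.LFC.PHL
import Pool.Agent.LFC.POLY
import Pool.Agent.LFC.KFR
import Pool.Agent.LFC.KREL
import Pool.Agent.LFC.DPHI
import Pool.Agent.LFC.CSQ
import Pool.Agent.LFC.LEMA
import Pool.Agent.LFC.LEMB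
import Pool.Agent.LFC.PRIM
import Pool.Agent.LFC.COORD
import Pool.Agent.KF.K.K0

/-!
The core frame, assembled: `S_OUT` and Theorem K without hypotheses.
-/

set_option autoImplicit false

namespace Pool.Agent.LFC

theorem c_ALG1 : S_ALG1 := ALG1_thm GAM_thm STC_thm

theorem c_ALG2 : S_ALG2 := ALG2_thm GAM_thm STC_thm c_ALG1

theorem c_LEAD : S_LEAD := LEAD_thm SER_thm ORD_thm

theorem c_KFR : S_KFR := KFR_thm (POLY_thm (LBT_thm LSU_thm) PHL_thm)

theorem c_KREL : S_KREL := KREL_thm c_ALG1 c_ALG2 SER_thm ORD_thm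

theorem c_DPHI : S_DPHI := DPHI_thm GAM_thm SER_thm c_KREL

theorem c_CSQ : S_CSQ := CSQ_thm GAM_thm ORD_thm c_KREL

theorem c_LEMA : S_LEMA := LEMA_thm ORD_thm c_LEAD c_KREL c_DPHI

theorem c_LEMB : S_LEMB := LEMB_thm SER_thm ORD_thm c_LEAD c_KREL c_DPHI c_LEMA

theorem c_PRIM : S_PRIM := PRIM_thm ORD_thm c_KREL

/-- the Hodge norm of constant vectors -/
theorem core : S_OUT := OUT_thm COORD_thm ORD_thm c_KFR c_KREL c_LEMA c_LEMB c_CSQ c_PRIM

end Pool.Agent.LFC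

namespace Pool.Agent.KF.K

/-- Theorem K (all exponents) without hypotheses -/
theorem K_final : Pool.Agent.KF.G.S_K := s_K Pool.Agent.LFC.core

end Pool.Agent.KF.K
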