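import Mathlib

/-!
Definitions for the core frame (MP_716236_co, part K, linear algebra; proofs in
Pool/Agent/LFC/PAPER.md).
-/

set_option autoImplicit false

namespace Pool.Agent.LFC

open Matrix

/-! ## graded paired spaces -/

section Abstract

variable {F : Type} [Field F] {H : Type} [AddCommGroup H] [Module F H]

/-- `H` is the direct sum of the subspaces `G 0, ..., G N` -/
def Graded (N : ℕ) (G : ℕ → Submodule F H) : Prop :=
  DirectSum.IsInternal G ∧ ∀ j, N < j → G j = ⊥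

/-- symmetric nondegenerate form; `G i` and `G j` are orthogonal unless `i + j = N` -/
def Paired (N : ℕ) (G : ℕ → Submodule F H) (Q : H →ₗ[F] H →ₗ[F] F) : Prop :=
  (∀ v w, Q v w = Q w v) ∧ (∀ v, (∀ w, Q v w = 0) → v = 0) ∧
    ∀ i j, i + j ≠ N → ∀ v ∈ G i, ∀ w ∈ G j, Q v w = 0

/-- operators of degree 1 -/
def Deg1 (G : ℕ → Submodule F H) (T : H →ₗ[F] H) : Prop := ∀ j, ∀ v ∈ G j, T v ∈ G (j + 1)

/-- operators selfadjoint for `Q` -/
def SelfAdj (Q : H →ₗ[F] H →ₗ[F] F) (T : H →ₗ[F] H) : Prop := ∀ v w, Q (T v) w = Q v (T w)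

/-- hard Lefschetz -/
def HL (N : ℕ) (G : ℕ → Submodule F H) (T : H →ₗ[F] H) : Prop :=
  ∀ j, 2 * j ≤ N → ∀ a ∈ G j, (T ^ (N - 2 * j)) a = 0 → a = 0

end Abstract

section RealCase

variable {H : Type} [AddCommGroup H] [Module ℝ H]

/-- Hodge-Riemann -/
def HR (N : ℕ) (G : ℕ → Submodule ℝ H) (Q : H →ₗ[ℝ] H →ₗ[ℝ] ℝ) (T : H →ₗ[ℝ] H) : Prop :=
  ∀ j, 2 * j ≤ N → ∀ a ∈ G j, (T ^ (N - 2 * j + 1)) a = 0 → a ≠ 0 →
    0 < (-1 : ℝ) ^ j * Q a ((T ^ (N - 2 * j)) a)

/-- the hypotheses of the theorem -/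
structure Hyp (N : ℕ) (G : ℕ → Submodule ℝ H) (Q : H →ₗ[ℝ] H →ₗ[ℝ] ℝ)
    (om et : H →ₗ[ℝ] H) : Prop where
  gr : Graded N G
  pa : Paired N G Q
  omd : Deg1 G om
  etd : Deg1 G et
  oms : SelfAdj Q om
  ets : SelfAdj Q et
  cm : ∀ v, om (et v) = et (om v)
  hr : ∃ s0 : ℝ, ∀ s, s0 < s → HR N G Q (s • om + et)

end RealCase

/-! ## Laurent series in `u`, `s = 1/u` -/

/-- Laurent series -/
abbrev K : Type := LaurentSeries ℝ

/-- the derivation `s d/ds`: multiplication of the coefficient of `u^n` by `-n` -/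
noncomputable def dK (f : K) : K where
  coeff n := -(n : ℝ) * f.coeff n
  isPWO_support' := f.isPWO_support.mono (by
    intro n hn
    simp only [Function.mem_support] at hn ⊢
    intro h
    exact hn (by rw [h, mul_zero]))

/-- `s = u^(-1)` -/
noncomputable def sK : K := HahnSeries.single (-1) 1

/-- constants -/
noncomputable def cst (a : ℝ) : K := HahnSeries.C a

/-- pole order at most `m` -/
def Pol (m : ℤ) (f : K) : Prop := ∀ n : ℤ, n < -m → f.coeff n = 0

/-- positive for large `s` -/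
def Psv (f : K) : Prop := 0 < f.leadingCoeff

/-- nonnegative for large `s` -/
def Nng (f : K) : Prop := 0 ≤ f.leadingCoeff

/-! ## string data -/

/-- a set of primitive vectors: index set and degrees -/
structure Str (N : ℕ) where
  I : Type
  fin : Fintype I
  dec : DecidableEq I
  j : I → ℕ
  hj : ∀ i, 2 * j i ≤ N

attribute [instance] Str.fin Str.dec

namespace Str

variable {N : ℕ} (T : Str N)

/-- length of the string minus one -/
def m (i : T.I) : ℕ := N - 2 * T.j i

/-- index set of the string basis `kappa^s a_i` -/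
abbrev J : Type := Σ i : T.I, Fin (N - 2 * T.j i + 1)

/-- degree of a basis vector -/
def dg (a : T.J) : ℕ := T.j a.1 + a.2

variable (R : Type) [Field R]

/-- the Lefschetz operator -/
def k : Matrix T.J T.J R :=
  Matrix.of fun a b => if a.1 = b.1 ∧ (a.2 : ℕ) = (b.2 : ℕ) + 1 then 1 else 0

/-- the lowering operator: `Lam kappa^s a = s (m-s+1) kappa^(s-1) a` -/
def l : Matrix T.J T.J R :=
  Matrix.of fun a b => if a.1 = b.1 ∧ (b.2 : ℕ) = (a.2 : ℕ) + 1
    then (((b.2 : ℕ) * (T.m b.1 - (b.2 : ℕ) + 1) : ℕ) : R) else 0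

/-- the grading operator -/
def h : Matrix T.J T.J R :=
  Matrix.diagonal fun a => 2 * ((T.dg a : ℕ) : R) - ((N : ℕ) : R)

/-- the operator `C kappa^s a = (-1)^j s!/(m-s)! kappa^(m-s) a` -/
def c : Matrix T.J T.J R :=
  Matrix.of fun a b => if a.1 = b.1 ∧ (a.2 : ℕ) + (b.2 : ℕ) = T.m b.1
    then (-1) ^ (T.j b.1) * (((b.2 : ℕ).factorial : ℕ) : R) / (((a.2 : ℕ).factorial : ℕ) : R)
    else 0

variable {R}

/-- the Gram matrix of `Q` in the string basis, `ph i = Q(a_i, kappa^m a_i)` -/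
def gram (ph : T.I → R) : Matrix T.J T.J R :=
  Matrix.of fun a b => if a.1 = b.1 ∧ (a.2 : ℕ) + (b.2 : ℕ) = T.m b.1 then ph a.1 else 0

/-- the diagonal of the Hodge metric `g = Q(.,C.)` -/
def gam (ph : T.I → R) : T.J → R := fun a =>
  (-1) ^ (T.j a.1) * ph a.1 * (((a.2 : ℕ).factorial : ℕ) : R) /
    (((T.m a.1 - (a.2 : ℕ)).factorial : ℕ) : R)

end Str

/-- the adjoint of a matrix for the diagonal form `ga` -/
def adj {J R : Type} [Fintype J] [DecidableEq J] [Field R] (ga : J → R) (A : Matrix J J R) :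
    Matrix J J R :=
  Matrix.diagonal (fun a => (ga a)⁻¹) * Aᵀ * Matrix.diagonal ga

/-- commutator -/
def br {J R : Type} [Fintype J] [Ring R] (A B : Matrix J J R) : Matrix J J R := A * B - B * A

/-- degree of a square matrix -/
def MDeg {J R : Type} [Zero R] (dg : J → ℕ) (d : ℕ) (A : Matrix J J R) : Prop :=
  ∀ a b, A a b ≠ 0 → dg a = dg b + d

/-- the diagonal form -/
def hf {J R : Type} [Fintype J] [Field R] (ga : J → R) (v w : J → R) : R := ∑ a, ga a * v a * w a

/-! ## coordinates -/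

/-- coordinate data: a homogeneous basis of the real space and three real matrices -/
structure CD where
  i : Type
  fin : Fintype i
  dec : DecidableEq i
  dg : i → ℕ
  Q : Matrix i i ℝ
  Om : Matrix i i ℝ
  Et : Matrix i i ℝ

attribute [instance] CD.fin CD.dec

/-- the hypotheses of the theorem in coordinates -/
structure CD.Ok (N : ℕ) (C : CD) : Prop where
  le : ∀ r, C.dg r ≤ N
  qs : C.Qᵀ = C.Q
  qi : ∃ Q' : Matrix C.i C.i ℝ, C.Q * Q' = 1 ∧ Q' * C.Q = 1
  qd : ∀ r s, C.Q r s ≠ 0 → C.dg r + C.dg s = N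
  omd : MDeg C.dg 1 C.Om
  etd : MDeg C.dg 1 C.Et
  cm : C.Om * C.Et = C.Et * C.Om
  oms : C.Omᵀ * C.Q = C.Q * C.Om
  ets : C.Etᵀ * C.Q = C.Q * C.Et
  hr : ∃ s0 : ℝ, ∀ s, s0 < s → ∀ j, 2 * j ≤ N → ∀ v : C.i → ℝ, (∀ r, v r ≠ 0 → C.dg r = j) →
    ((s • C.Om + C.Et) ^ (N - 2 * j + 1)) *ᵥ v = 0 → v ≠ 0 →
    0 < (-1 : ℝ) ^ j * (v ⬝ᵥ (C.Q *ᵥ (((s • C.Om + C.Et) ^ (N - 2 * j)) *ᵥ v)))

/-- the coordinate subspaces of `F^i` -/
def cG (F : Type) [Field F] (C : CD) (j : ℕ) : Submodule F (C.i → F) where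
  carrier := {v | ∀ r, v r ≠ 0 → C.dg r = j}
  add_mem' := by
    intro a b ha hb r hr
    by_cases h : a r = 0
    · exact hb r (fun h' => hr (by rw [Pi.add_apply, h, h', add_zero]))
    · exact ha r h
  zero_mem' := fun r hr => absurd rfl hr
  smul_mem' := by
    intro c a ha r hr
    exact ha r (fun h' => hr (by rw [Pi.smul_apply, h', smul_zero]))

/-- the bilinear form `v, w => v . (M w)` -/
def cQ (F : Type) [Field F] (C : CD) (M : Matrix C.i C.i F) :
    (C.i → F) →ₗ[F] (C.i → F) →ₗ[F] F :=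
  LinearMap.mk₂ F (fun v w => v ⬝ᵥ (M *ᵥ w))
    (by intro a b c; exact add_dotProduct _ _ _)
    (by intro c a b; exact smul_dotProduct _ _ _)
    (by intro a b c; rw [Matrix.mulVec_add, dotProduct_add])
    (by intro c a b; rw [Matrix.mulVec_smul, dotProduct_smul])

/-- `X Om + Et` over the polynomial ring -/
noncomputable def CD.kX (C : CD) : Matrix C.i C.i (Polynomial ℝ) :=
  (Polynomial.X : Polynomial ℝ) • C.Om.map Polynomial.C + C.Et.map Polynomial.C

/-- the field of rational functions -/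
abbrev FX : Type := FractionRing (Polynomial ℝ)

/-- the operator `X Om + Et` over the field of rational functions -/
noncomputable def CD.kF (C : CD) : (C.i → FX) →ₗ[FX] (C.i → FX) :=
  (C.kX.map (algebraMap (Polynomial ℝ) FX)).mulVecLin

/-- the form over the field of rational functions -/
noncomputable def CD.QF (C : CD) : (C.i → FX) →ₗ[FX] (C.i → FX) →ₗ[FX] FX :=
  cQ FX C (C.Q.map (fun a => algebraMap (Polynomial ℝ) FX (Polynomial.C a)))

/-- a K-frame: a string basis over `K` for the operator `s om + et` -/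
structure Frame (N : ℕ) (C : CD) (T : Str N) (S : Matrix C.i T.J K) (S' : Matrix T.J C.i K)
    (ph : T.I → K) : Prop where
  inv1 : S * S' = 1
  inv2 : S' * S = 1
  deg : ∀ r b, S r b ≠ 0 → C.dg r = T.dg b
  deg' : ∀ b r, S' b r ≠ 0 → C.dg r = T.dg b
  kap : (sK • C.Om.map cst + C.Et.map cst) * S = S * T.k K
  gram : Sᵀ * C.Q.map cst * S = T.gram ph
  pos : ∀ i, Psv ((-1) ^ (T.j i) * ph i)

/-- the matrix of `X = s om` in the frame -/
noncomputable def xK (C : CD) {N : ℕ} (T : Str N) (S : Matrix C.i T.J K)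
    (S' : Matrix T.J C.i K) : Matrix T.J T.J K := S' * (sK • C.Om.map cst) * S

/-- the connection matrix -/
noncomputable def thK (C : CD) {N : ℕ} (T : Str N) (S : Matrix C.i T.J K)
    (S' : Matrix T.J C.i K) : Matrix T.J T.J K := S' * (S.map dK)

/-- the coordinates of a constant real vector in the frame -/
noncomputable def crd (C : CD) {N : ℕ} (T : Str N) (S' : Matrix T.J C.i K) (v : C.i → ℝ) :
    T.J → K := S' *ᵥ (fun r => cst (v r))

/-- the Hodge norm squared of a constant vector, an element of `K` -/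
noncomputable def nK (C : CD) {N : ℕ} (T : Str N) (S' : Matrix T.J C.i K) (ph : T.I → K)
    (v : C.i → ℝ) : K := hf (T.gam ph) (crd C T S' v) (crd C T S' v)

end Pool.Agent.LFC
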