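import Pool.Agent.LFC.Stmts

/-!
LEMB: decay of the Hodge norm on the image of `om` (PAPER.md, entry LEMB).
-/

set_option autoImplicit false

namespace Pool.Agent.LFC

open Matrix

namespace LEMB

/-- the adjoint for the diagonal form -/
theorem hf_adj {J R : Type} [Fintype J] [DecidableEq J] [Field R] {ga : J → R}
    (h : ∀ a, ga a ≠ 0) (A : Matrix J J R) (v w : J → R) :
    hf ga (A *ᵥ v) w = hf ga v (adj ga A *ᵥ w) := by
  have h1 : ∀ a, (adj ga A *ᵥ w) a = (ga a)⁻¹ * ∑ b, A b a * (ga b * w b) := by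
    intro a
    rw [adj, ← Matrix.mulVec_mulVec, ← Matrix.mulVec_mulVec, Matrix.mulVec_diagonal]
    congr 1
    refine Finset.sum_congr rfl fun b _ => ?_
    change A b a * (Matrix.diagonal ga *ᵥ w) b = _
    rw [Matrix.mulVec_diagonal]
  unfold hf
  simp only [h1]
  have h2 : ∀ a, ga a * v a * ((ga a)⁻¹ * ∑ b, A b a * (ga b * w b)) =
      ∑ b, v a * (A b a * (ga b * w b)) := by
    intro a
    rw [← Finset.mul_sum]
    field_simp [h a]
  simp only [h2]
  rw [Finset.sum_comm]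
  refine Finset.sum_congr rfl fun b _ => ?_
  have h3 : (A *ᵥ v) b = ∑ a, A b a * v a := rfl
  rw [h3, Finset.mul_sum, Finset.sum_mul]
  refine Finset.sum_congr rfl fun a _ => ?_
  ring

theorem hf_smul_left {J R : Type} [Fintype J] [Field R] (ga : J → R) (c : R) (v w : J → R) :
    hf ga (c • v) w = c * hf ga v w := by
  unfold hf
  rw [Finset.mul_sum]
  refine Finset.sum_congr rfl fun b _ => ?_
  rw [Pi.smul_apply, smul_eq_mul]
  ring

theorem hf_zero_left {J R : Type} [Fintype J] [Field R] (ga : J → R) (w : J → R) :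
    hf ga 0 w = 0 := by
  unfold hf
  refine Finset.sum_eq_zero fun b _ => ?_
  rw [Pi.zero_apply, mul_zero, zero_mul]

theorem conj_mulVec {i J R : Type} [Fintype i] [DecidableEq i] [Fintype J] [Field R]
    (S : Matrix i J R) (S' : Matrix J i R) (h : S * S' = 1) (a : R) (M : Matrix i i R)
    (v : i → R) : (S' * (a • M) * S) *ᵥ (S' *ᵥ v) = a • (S' *ᵥ (M *ᵥ v)) := by
  rw [Matrix.mulVec_mulVec, Matrix.mulVec_mulVec, Matrix.mul_assoc, h, Matrix.mul_one,
    Matrix.mul_smul, Matrix.smul_mulVec]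

/-- `X` in the frame is `s om` -/
theorem x_crd {N : ℕ} {C : CD} {T : Str N} {S : Matrix C.i T.J K} {S' : Matrix T.J C.i K}
    {ph : T.I → K} (hF : Frame N C T S S' ph) (v : C.i → ℝ) :
    xK C T S S' *ᵥ crd C T S' v = sK • crd C T S' (C.Om *ᵥ v) := by
  have h1 : (fun r => cst ((C.Om *ᵥ v) r)) = C.Om.map cst *ᵥ (fun r => cst (v r)) := by
    funext r
    have h2 : (C.Om *ᵥ v) r = ∑ t, C.Om r t * v t := rfl
    have h3 : (C.Om.map cst *ᵥ (fun r => cst (v r))) r = ∑ t, cst (C.Om r t) * cst (v t) := rfl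
    rw [h2, h3]
    change (HahnSeries.C : ℝ →+* K) _ = ∑ t, (HahnSeries.C : ℝ →+* K) _ * (HahnSeries.C : ℝ →+* K) _
    rw [map_sum]
    simp only [map_mul]
  unfold xK crd
  rw [h1]
  exact conj_mulVec S S' hF.inv1 sK (C.Om.map cst) _

theorem Pol_s : Pol 1 sK := by
  intro n hn
  rw [sK, HahnSeries.coeff_single, if_neg (by omega)]

theorem s_coeff : sK.coeff (-1) = 1 := by
  rw [sK, HahnSeries.coeff_single, if_pos rfl]

end LEMB

open LEMB in
theorem LEMB_thm (hSER : S_SER) (hORD : S_ORD) (hLEAD : S_LEAD) (hKREL : S_KREL)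
    (hDPHI : S_DPHI) (hLEMA : S_LEMA) : S_LEMB := by
  intro N C hC T S S' ph hF u hu
  obtain ⟨-, -, -, -, -, hmul⟩ := hSER
  obtain ⟨hadd, -, -, hsq, hNP, -, -, hle, -, -, hCS⟩ := hORD
  obtain ⟨hpos, -⟩ := hKREL N C hC T S S' ph hF
  have hne : ∀ a, T.gam ph a ≠ 0 := by
    intro a h0
    have h1 := hpos a
    rw [h0, Psv, HahnSeries.leadingCoeff_zero] at h1
    exact lt_irrefl _ h1
  -- the norms of `v = om u` and `u`
  have hv0 : Pol 0 (nK C T S' ph (C.Om *ᵥ u)) := (hLEMA N C hC T S S' ph hF _).1 hu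
  have hu2 : Pol 2 (nK C T S' ph u) := (hLEMA N C hC T S S' ph hF u).2 hu
  have hXw : xK C T S S' *ᵥ crd C T S' (C.Om *ᵥ u) = 0 := by
    rw [x_crd hF, hu]
    have : crd C T S' 0 = 0 := by
      unfold crd
      have h2 : (fun r : C.i => cst ((0 : C.i → ℝ) r)) = 0 := by
        funext r
        exact map_zero (HahnSeries.C : ℝ →+* K)
      rw [h2, Matrix.mulVec_zero]
    rw [this, smul_zero]
  -- `|X* w|^2` has pole order at most `-1`
  have hD := (hDPHI N C hC T S S' ph hF (C.Om *ᵥ u)).2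
  rw [hXw, hf_zero_left, sub_zero] at hD
  have hP := hLEAD.2.2 _ hv0
  rw [hD] at hP
  have hN1 := fun v w : T.J → K => hCS T.J (T.gam ph) v w hpos
  have hX : Pol (-1) (hf (T.gam ph) (adj (T.gam ph) (xK C T S S') *ᵥ crd C T S' (C.Om *ᵥ u))
      (adj (T.gam ph) (xK C T S S') *ᵥ crd C T S' (C.Om *ᵥ u))) := by
    refine hle _ _ _ (hN1 _ 0).1 ?_ hP
    rw [add_sub_cancel_right]
    exact (hN1 _ 0).1
  -- the pairing
  have hpair : sK * nK C T S' ph (C.Om *ᵥ u) = hf (T.gam ph) (crd C T S' u)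
      (adj (T.gam ph) (xK C T S S') *ᵥ crd C T S' (C.Om *ᵥ u)) := by
    rw [← hf_adj hne, x_crd hF, hf_smul_left]
    rfl
  have hcs := (hN1 (crd C T S' u)
    (adj (T.gam ph) (xK C T S S') *ᵥ crd C T S' (C.Om *ᵥ u))).2.2
  rw [← hpair] at hcs
  have hprod := (hmul 2 (-1) _ _ hu2 hX).1
  have h21 : (2 : ℤ) + -1 = 1 := by norm_num
  rw [h21] at hprod
  have hsq1 : Pol 1 ((sK * nK C T S' ph (C.Om *ᵥ u)) * (sK * nK C T S' ph (C.Om *ᵥ u))) :=
    hle _ _ _ (hsq _) hcs hprod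
  -- the coefficient
  obtain ⟨h1, h2⟩ := hmul 1 0 _ _ Pol_s hv0
  obtain ⟨-, h3⟩ := hmul (1 + 0) (1 + 0) _ _ h1 h1
  rw [hsq1 _ (by norm_num), h2] at h3
  have h4 : (nK C T S' ph (C.Om *ᵥ u)).coeff 0 = 0 := by
    have h5 : sK.coeff (-1) * (nK C T S' ph (C.Om *ᵥ u)).coeff (-0) = 0 := by
      exact mul_self_eq_zero.1 h3.symm
    rw [s_coeff, one_mul, neg_zero] at h5
    exact h5
  intro n hn
  rcases lt_or_eq_of_le (show n ≤ 0 by omega) with h | h
  · exact hv0 n (by omega)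
  · rw [h, h4]

end Pool.Agent.LFC
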