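import Pool.Agent.LFC.Stmts

/-!
OUT: the Hodge norm of constant vectors (assembly of the core frame).
-/

set_option autoImplicit false

namespace Pool.Agent.LFC

open Matrix

theorem OUT_thm (hCOORD : S_COORD) (hORD : S_ORD) (hKFR : S_KFR) (hKREL : S_KREL)
    (hLEMA : S_LEMA) (hLEMB : S_LEMB) (hCSQ : S_CSQ) (hPRIM : S_PRIM) : S_OUT := by
  intro H _ _ _ N G Q om et hH
  obtain ⟨C, e, hC, hom, het, hQ, hG⟩ := hCOORD H N G Q om et hH
  obtain ⟨T, S, S', ph, hF⟩ := hKFR N C hC
  have hpow : ∀ (n : ℕ) (v : H), e ((et ^ n) v) = (C.Et ^ n) *ᵥ e v := by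
    intro n
    induction n with
    | zero => intro v; simp
    | succ n ih =>
      intro v
      rw [pow_succ', pow_succ', Module.End.mul_apply, het, ih, Matrix.mulVec_mulVec]
  refine ⟨fun v => nK C T S' ph (e v), ?_, ?_, ?_, ?_, ?_⟩
  · intro v
    obtain ⟨-, -, -, -, -, -, -, -, -, -, h⟩ := hORD
    exact (h T.J (T.gam ph) (crd C T S' (e v)) (crd C T S' (e v))
      ((hKREL N C hC T S S' ph hF).1)).1
  · intro v hv
    refine (hLEMA N C hC T S S' ph hF (e v)).1 ?_
    rw [← hom, hv, map_zero]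
  · intro y hy
    have h := hLEMB N C hC T S S' ph hF (e y) (by rw [← hom, ← hom, hy, map_zero])
    rw [← hom] at h
    exact h
  · intro i hi v hv hv0
    have h := hPRIM N C hC T S S' ph hF i hi (e v) ((hG i v).1 hv) (by rw [← hom, hv0, map_zero])
    rw [← hpow, ← hpow, ← hQ] at h
    exact h
  · intro v b
    have h := hCSQ N C hC T S S' ph hF (e v) (e b)
    rw [← hQ] at h
    exact h

end Pool.Agent.LFC
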